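import Pool.Agent.P.MP_8f2c45_lc.Normal

/-!
Paths of trees of bounded width are isolated; for decidable trees they are computable.
-/

namespace Pool.Agent.P.MP_8f2c45_lc

open Pool.Agent.Lib.Comp

/-- If a tree has at most `d` nodes at infinitely many levels then every sequence is isolated. -/
theorem isolated (T : Str → Prop) (hT : ∀ σ τ, σ <+: τ → T τ → T σ) (d : ℕ)
    (hd : ∀ N, ∃ j, N ≤ j ∧ ∀ F : Finset Str, (∀ σ ∈ F, T σ ∧ σ.length = j) → F.card ≤ d)
    (A : ℕ → Bool) : ∃ n0, ∀ n, ∃ N, ∀ σ, T σ → N ≤ σ.length → pre A n0 <+: σ → pre A n <+: σ := by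
  classical
  by_contra hcon
  push Not at hcon
  choose nx hnx using hcon
  have key : ∀ k : ℕ, ∃ n, ∀ j, n ≤ j → ∃ F : Finset Str, F.card = k ∧
      ∀ σ ∈ F, T σ ∧ σ.length = j ∧ ¬ pre A n <+: σ := by
    intro k
    induction k with
    | zero => exact ⟨0, fun j _ => ⟨∅, rfl, by simp⟩⟩
    | succ k ih =>
      obtain ⟨n, hn⟩ := ih
      refine ⟨max n (nx n), fun j hj => ?_⟩
      obtain ⟨F, hF, hF'⟩ := hn j (le_trans (le_max_left _ _) hj)
      obtain ⟨σ, h1, h2, h3, h4⟩ := hnx n j
      have h5 : pre A n <+: σ.take j :=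
        List.prefix_take_iff.2 ⟨h3, by simpa using le_trans (le_max_left _ _) hj⟩
      refine ⟨insert (σ.take j) F, ?_, ?_⟩
      · rw [Finset.card_insert_of_notMem, hF]
        exact fun h => (hF' _ h).2.2 h5
      · intro τ hτ
        rcases Finset.mem_insert.1 hτ with rfl | hτ
        · refine ⟨hT _ _ (List.take_prefix _ _) h1, by simp [h2], fun h => h4 ?_⟩
          exact ((pre_isPrefix A (le_max_right _ _)).trans h).trans (List.take_prefix _ _)
        · exact ⟨(hF' _ hτ).1, (hF' _ hτ).2.1,
            fun h => (hF' _ hτ).2.2 ((pre_isPrefix A (le_max_left _ _)).trans h)⟩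
  obtain ⟨n, hn⟩ := key (d + 1)
  obtain ⟨j, hj, h⟩ := hd n
  obtain ⟨F, hF, hF'⟩ := hn j hj
  have := h F fun σ hσ => ⟨(hF' σ hσ).1, (hF' σ hσ).2.1⟩
  omega

/-- A path of a computable tree with at most `d` nodes at infinitely many levels is computable.
The levels of the tree are given as lists. -/
theorem computable_of_narrow (L : ℕ → List Str) (hL : Computable L)
    (hlen : ∀ j, ∀ σ ∈ L j, σ.length = j)
    (hcl : ∀ j, ∀ σ ∈ L (j + 1), σ.take j ∈ L j) (d : ℕ)
    (hd : ∀ N, ∃ j, N ≤ j ∧ (L j).length ≤ d)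
    (A : ℕ → Bool) (hA : ∀ j, pre A j ∈ L j) : Computable A := by
  classical
  have hT : ∀ j, ∀ τ ∈ L j, ∀ i ≤ j, τ.take i ∈ L i := by
    intro j
    induction j with
    | zero =>
      intro τ hτ i hi
      obtain rfl : i = 0 := by omega
      have := hlen _ _ hτ
      rwa [List.take_of_length_le this.le]
    | succ j ih =>
      intro τ hτ i hi
      rcases Nat.eq_or_lt_of_le hi with rfl | h
      · rwa [List.take_of_length_le (hlen _ _ hτ).le]
      · have := ih _ (hcl _ _ hτ) i (by omega)
        rwa [List.take_take, min_eq_left (by omega)] at this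
  obtain ⟨n0, hn0⟩ := isolated (fun σ => σ ∈ L σ.length)
    (fun σ τ h hτ => by
      have := hT _ _ hτ _ h.length_le
      rwa [← List.prefix_iff_eq_take.1 h] at this) d
    (fun N => by
      obtain ⟨j, hj, h⟩ := hd N
      refine ⟨j, hj, fun F hF => le_trans ?_ ((List.toFinset_card_le (L j)).trans h)⟩
      refine Finset.card_le_card fun σ hσ => List.mem_toFinset.2 ?_
      have := hF σ hσ
      rw [← this.2]; exact this.1) A
  let G : ℕ × List Str → Option Bool := fun x =>
    ([false, true] : List Bool).find? fun b => x.2.all fun σ =>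
      !isPre (pre A n0) σ || eqb σ[x.1]? (some b)
  have hG : Primrec G := by
    simp only [G]
    fun_prop
  have hG' : Computable₂ fun n N => G (n, L N) :=
    hG.to_comp.comp (Computable.fst.pair (hL.comp Computable.snd))
  have sound : ∀ n N b, n0 ≤ N → G (n, L N) = some b → b = A n := by
    intro n N b hN h
    have := List.find?_some h
    simp only [List.all_eq_true, Bool.or_eq_true, Bool.not_eq_true', eqb_true] at this
    rcases this _ (hA N) with h1 | h1
    · rw [isPre_true.2 (pre_isPrefix A hN)] at h1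
      exact absurd h1 (by simp)
    · rw [getElem?_pre] at h1
      split_ifs at h1
      exact (Option.some.inj h1).symm
  have hR : Partrec fun n => Nat.rfindOpt fun N => G (n, L (N + n0)) :=
    Partrec.rfindOpt (f := fun n N => G (n, L (N + n0)))
      (hG'.comp Computable.fst (Primrec.to_comp (by fun_prop)))
  refine hR.of_eq_tot fun n => ?_
  have hdom : (Nat.rfindOpt fun N => G (n, L (N + n0))).Dom := by
    rw [Nat.rfindOpt_dom]
    obtain ⟨N, hN⟩ := hn0 (n + 1)
    have : (G (n, L (N + n0))).isSome := by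
      simp only [G]
      rw [List.find?_isSome]
      refine ⟨A n, by cases A n <;> simp, ?_⟩
      simp only [List.all_eq_true, Bool.or_eq_true, Bool.not_eq_true', eqb_true]
      intro σ hσ
      cases h : isPre (pre A n0) σ
      · exact Or.inl rfl
      · right
        have h1 := hlen _ _ hσ
        obtain ⟨t, ht⟩ := hN σ (by rw [h1]; exact hσ) (by omega) (isPre_true.1 h)
        rw [← ht, List.getElem?_append_left (by simp), getElem?_pre, if_pos (by omega)]
    obtain ⟨b, hb⟩ := Option.isSome_iff_exists.1 this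
    exact ⟨N, b, hb⟩
  have h1 := Part.get_mem hdom
  obtain ⟨N, hN⟩ := Nat.rfindOpt_spec h1
  rwa [← sound n _ _ (Nat.le_add_left _ _) hN]

end Pool.Agent.P.MP_8f2c45_lc
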