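import Pool.Agent.P.MP_8f2c45_lc.Coding
import Pool.Agent.P.MP_8f2c45_lc.Tree

/-!
A primitive recursive approximation of a K-trivial set through the stage trees.
-/

namespace Pool.Agent.P.MP_8f2c45_lc

open Pool.Agent.Lib.Comp Filter

namespace Setting

variable (S : Setting) (b : ℕ)

/-- The tree of the strings that are K-trivial with constant `b`. -/
def triv (σ : Str) : Prop :=
  ∀ n ≤ σ.length, S.KH emptyOracle (σ.take n) ≤ S.KH emptyOracle (List.replicate n false) + b

/-- The same tree, as it looks at stage `t`. -/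
def trivAt (t : ℕ) (σ : Str) : Bool :=
  (List.range (σ.length + 1)).all fun n => (upto t).all fun p =>
    !eqb (S.H0 t p) (some (List.replicate n false)) ||
      (upto t).any fun q => eqb (S.H0 t q) (some (σ.take n)) && leb q.length (p.length + b)

@[fun_prop] theorem pr_trivAt {α : Type*} [Primcodable α] {f : α → ℕ} {g : α → Str}
    (hf : Primrec f) (hg : Primrec g) : Primrec (fun x => S.trivAt b (f x) (g x)) := by
  unfold trivAt
  fun_prop

variable {S b}

theorem trivAt_true {t : ℕ} {σ : Str} : S.trivAt b t σ = true ↔ ∀ n ≤ σ.length, ∀ p,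
    S.H0 t p = some (List.replicate n false) →
      ∃ q, S.H0 t q = some (σ.take n) ∧ q.length ≤ p.length + b := by
  simp only [trivAt, List.all_eq_true, List.mem_range, Nat.lt_succ_iff, mem_upto, Bool.or_eq_true,
    Bool.not_eq_true', List.any_eq_true, Bool.and_eq_true, eqb_true, leb_true]
  refine forall₂_congr fun n _ => forall_congr' fun p => ⟨fun h hp => ?_, fun h _ => ?_⟩
  · rcases h (H0_len hp) with h1 | ⟨q, -, h1⟩
    · rw [eqb_true.2 hp] at h1
      exact absurd h1 (by simp)
    · exact ⟨q, h1⟩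
  · cases h1 : eqb (S.H0 t p) (some (List.replicate n false))
    · exact Or.inl rfl
    · obtain ⟨q, h2⟩ := h (eqb_true.1 h1)
      exact Or.inr ⟨q, H0_len h2.1, h2⟩

theorem take_of_isPrefix {σ τ : Str} (h : σ <+: τ) {n : ℕ} (hn : n ≤ σ.length) :
    τ.take n = σ.take n := by
  obtain ⟨t, rfl⟩ := h
  exact List.take_append_of_le_length hn

theorem triv_mono {σ τ : Str} (h : σ <+: τ) (hτ : S.triv b τ) : S.triv b σ := fun n hn =>
  take_of_isPrefix h hn ▸ hτ n (hn.trans h.length_le)

theorem trivAt_mono {t : ℕ} {σ τ : Str} (h : σ <+: τ) (hτ : S.trivAt b t τ = true) :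
    S.trivAt b t σ = true := trivAt_true.2 fun n hn =>
  take_of_isPrefix h hn ▸ trivAt_true.1 hτ n (hn.trans h.length_le)

theorem eventually_trivAt (σ : Str) : ∀ᶠ t in atTop, (S.trivAt b t σ = true ↔ S.triv b σ) := by
  have h : ∀ y, ∀ᶠ t in atTop, ∃ p : Str, p.length = S.KH emptyOracle y ∧ S.H0 t p = some y := by
    intro y
    obtain ⟨p, s, h1, h2⟩ := S.KH0_spec y
    filter_upwards [eventually_ge_atTop s] with t ht using ⟨p, h1, H0_mono ht h2⟩
  filter_upwards [(eventually_all_finset (Finset.range (σ.length + 1))).2 fun n _ =>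
    (h (List.replicate n false)).and (h (σ.take n))] with t ht
  rw [trivAt_true]
  refine forall₂_congr fun n hn => ?_
  obtain ⟨⟨p, p1, p2⟩, q, q1, q2⟩ := ht n (Finset.mem_range.2 (Nat.lt_succ_of_le hn))
  constructor
  · intro k
    obtain ⟨r, r1, r2⟩ := k p p2
    have := KH0_le r1
    omega
  · intro k r hr
    have := KH0_le hr
    exact ⟨q, q2, by omega⟩

variable (S b)

theorem triv_width : ∃ d, ∀ j, ∀ F : Finset Str,
    (∀ σ ∈ F, S.triv b σ ∧ σ.length = j) → F.card ≤ d := by
  obtain ⟨c, hc⟩ := S.coding (cls := List.length) Primrec.list_length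
  refine ⟨2 ^ c * 2 ^ b, fun j F hF => ?_⟩
  obtain ⟨N, hN⟩ := sum_KH_le (S := S) F (fun y => eqb y.length j)
    fun y hy => eqb_true.2 (hF y hy).2
  have h1 : F.card • wt (S.KH emptyOracle (List.replicate j false) + b) ≤
      ∑ y ∈ F, wt (S.KH emptyOracle y) := Finset.card_nsmul_le_sum _ _ _ fun y hy => by
    have := (hF y hy).1 _ le_rfl
    rw [List.take_length, (hF y hy).2] at this
    exact wt_le_wt.2 this
  have h2 := (h1.trans hN).trans (hc j N)
  rw [nsmul_eq_mul, wt_add, mul_comm (wt _), ← mul_assoc] at h2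
  have h3 := mul_le_mul_of_nonneg_right (le_of_mul_le_mul_right h2 (wt_pos _))
    (show (0 : ℝ) ≤ 2 ^ b by positivity)
  rw [mul_assoc, wt_mul_pow, mul_one] at h3
  exact_mod_cast h3

/-- The approximation above the string `ρ`. -/
def approx (ρ : Str) (t : ℕ) : Str :=
  Nat.rec (motive := fun _ => Str) ρ (fun s α => ((strs (α.length + 1)).find? fun σ =>
    isPre ρ σ && S.trivAt b (s + 1) σ).getD α) t

theorem approx_step (ρ : Str) (t : ℕ) :
    (S.approx b ρ (t + 1) = S.approx b ρ t ∧ ∀ σ : Str, σ.length = (S.approx b ρ t).length + 1 →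
      ρ <+: σ → ¬ S.trivAt b (t + 1) σ = true) ∨
    ((S.approx b ρ (t + 1)).length = (S.approx b ρ t).length + 1 ∧ ρ <+: S.approx b ρ (t + 1) ∧
      S.trivAt b (t + 1) (S.approx b ρ (t + 1)) = true) := by
  have e : S.approx b ρ (t + 1) = ((strs ((S.approx b ρ t).length + 1)).find? fun σ =>
    isPre ρ σ && S.trivAt b (t + 1) σ).getD (S.approx b ρ t) := rfl
  rw [e]
  cases h : (strs ((S.approx b ρ t).length + 1)).find? fun σ =>
    isPre ρ σ && S.trivAt b (t + 1) σ with
  | none =>
    refine Or.inl ⟨rfl, fun σ h1 h2 h3 => List.find?_eq_none.1 h σ (mem_strs.2 h1) ?_⟩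
    rw [isPre_true.2 h2, h3]; rfl
  | some σ =>
    have h1 := List.find?_some h
    rw [Bool.and_eq_true, isPre_true] at h1
    exact Or.inr ⟨mem_strs.1 (List.mem_of_find?_eq_some h), h1⟩

end Setting

theorem Setting.exists_approx (S : Setting) (A : ℕ → Bool) (b : ℕ)
    (hA : ∀ n, S.KH emptyOracle (pre A n) ≤ S.KH emptyOracle (List.replicate n false) + b) :
    ∃ a : ℕ → Str, Primrec a ∧ (∀ t, (a t).length ≤ (a (t + 1)).length) ∧
      (∀ n, ∀ᶠ t in Filter.atTop, pre A n <+: a t) ∧
      ∀ t, a (t + 1) ≠ a t → ∀ n ≤ (a (t + 1)).length, ∀ p,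
        S.H0 (t + 1) p = some (List.replicate n false) →
          S.KH emptyOracle ((a (t + 1)).take n) ≤ p.length + b := by
  obtain ⟨d, hd⟩ := S.triv_width b
  obtain ⟨n0, hn0⟩ := isolated (S.triv b) (fun _ _ => Setting.triv_mono) d
    (fun N => ⟨N, le_rfl, hd N⟩) A
  have step := S.approx_step b (pre A n0)
  set a := S.approx b (pre A n0) with ha
  have hlen : ∀ t, (a t).length ≤ (a (t + 1)).length := fun t => by
    rcases step t with h | h
    · rw [h.1]
    · omega
  have hmono : Monotone fun t => (a t).length := monotone_nat_of_le_succ hlen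
  have h0 : ∀ t, n0 ≤ (a t).length := fun t => (length_pre A n0).symm.le.trans (hmono t.zero_le)
  have hT : ∀ L, S.triv b (pre A L) := fun L n hn => by
    rw [take_pre A (by simpa using hn)]
    exact hA n
  have grow : ∀ L, ∀ᶠ t in atTop, L ≤ (a t).length := by
    intro L
    induction L with
    | zero => exact Eventually.of_forall fun _ => Nat.zero_le _
    | succ L ih =>
      obtain ⟨t, h1, h2⟩ := (ih.and ((tendsto_add_atTop_nat 1).eventually
        (Setting.eventually_trivAt (S := S) (b := b) (pre A (L + 1))))).exists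
      have h3 : L + 1 ≤ (a (t + 1)).length := by
        rcases h1.eq_or_lt with h4 | h4
        · rcases step t with h | h
          · exact absurd (h2.2 (hT _)) (h.2 _ (by rw [length_pre, h4])
              (pre_isPrefix A (by have := h0 t; omega)))
          · omega
        · exact le_trans h4 (hlen t)
      filter_upwards [eventually_ge_atTop (t + 1)] with s hs using h3.trans (hmono hs)
  refine ⟨a, ?_, hlen, fun n => ?_, fun t ht n hn p hp => ?_⟩
  · rw [ha]
    unfold Setting.approx
    fun_prop
  · obtain ⟨N, hN⟩ := hn0 n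
    obtain ⟨t1, ht1⟩ := eventually_atTop.1 (((eventually_all_finset (strs (N + n0)).toFinset).2
      fun σ _ => Setting.eventually_trivAt (S := S) (b := b) σ).and (grow (N + n0)))
    have key : ∀ t, t1 ≤ t → (a t).length = (a t1).length ∨ pre A n <+: a t := by
      intro t ht
      induction t, ht using Nat.le_induction with
      | base => exact Or.inl rfl
      | succ t ht ih =>
        rcases step t with h | h
        · rwa [h.1]
        · obtain ⟨k1, k2⟩ := ht1 (t + 1) (by omega)
          have k3 : ((a (t + 1)).take (N + n0)).length = N + n0 := by simpa using k2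
          exact Or.inr ((hN _ ((k1 _ (List.mem_toFinset.2 (mem_strs.2 k3))).1
            (Setting.trivAt_mono (List.take_prefix _ _) h.2.2)) (by omega)
            (List.prefix_take_iff.2 ⟨h.2.1, by simp⟩)).trans (List.take_prefix _ _))
    filter_upwards [eventually_ge_atTop t1, grow ((a t1).length + 1)] with t h1 h2
    exact (key t h1).resolve_left (by omega)
  · obtain ⟨q, q1, q2⟩ := Setting.trivAt_true.1 ((step t).resolve_left fun h => ht h.1).2.2 n hn p hp
    exact (Setting.KH0_le q1).trans q2

end Pool.Agent.P.MP_8f2c45_lc
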