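import Pool.Agent.P.MP_8f2c45_lc.Defs
import Pool.Agent.Lib.Comp.PrimFun

/-!
Strings, dyadic weights, the Kraft inequality.
-/

namespace Pool.Agent.P.MP_8f2c45_lc

open Pool.Agent.Lib.Comp

abbrev Str := List Bool

section prim
variable {α β γ σ : Type*} [Primcodable α] [Primcodable β] [Primcodable γ] [Primcodable σ]

@[fun_prop] theorem pr_pow2 {f : α → ℕ} (hf : Primrec f) : Primrec (fun x => 2 ^ f x) := by
  have h : Primrec (fun x => (Nat.rec (motive := fun _ => ℕ) 1 (fun _ r => r * 2) (f x) : ℕ)) := by
    fun_prop
  refine h.of_eq fun x => ?_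
  induction f x with
  | zero => rfl
  | succ n ih => simp [pow_succ, ← ih]

@[fun_prop] theorem pr_flatMap {f : α → List β} {g : α → β → List σ} (hf : Primrec f)
    (hg : Primrec (fun p : α × β => g p.1 p.2)) : Primrec (fun x => (f x).flatMap (g x)) :=
  Primrec.list_flatMap hf hg

@[fun_prop] theorem pr_filterMap {f : α → List β} {g : α → β → Option σ} (hf : Primrec f)
    (hg : Primrec (fun p : α × β => g p.1 p.2)) : Primrec (fun x => (f x).filterMap (g x)) :=
  Primrec.listFilterMap hf hg

@[fun_prop] theorem pr_filter {f : α → List β} {g : α → β → Bool} (hf : Primrec f)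
    (hg : Primrec (fun p : α × β => g p.1 p.2)) : Primrec (fun x => (f x).filter (g x)) := by
  have h : Primrec (fun x => (f x).foldr (fun b r => cond (g x b) (b :: r) r) []) := by fun_prop
  refine h.of_eq fun x => ?_
  induction f x with
  | nil => rfl
  | cons b l ih =>
    rw [List.foldr_cons, ih, List.filter_cons]
    cases g x b <;> rfl

@[fun_prop] theorem pr_sum {f : α → List ℕ} (hf : Primrec f) : Primrec (fun x => (f x).sum) := by
  have h : Primrec (fun x => (f x).foldr (fun b r => b + r) 0) := by fun_prop
  refine h.of_eq fun x => ?_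
  induction f x with
  | nil => rfl
  | cons b l ih => simp [ih]

@[fun_prop] theorem pr_replicate {f : α → ℕ} {g : α → β} (hf : Primrec f) (hg : Primrec g) :
    Primrec (fun x => List.replicate (f x) (g x)) := by
  have h : Primrec (fun x => (List.range (f x)).map (fun _ => g x)) := by fun_prop
  refine h.of_eq fun x => ?_
  simp

@[fun_prop] theorem pr_lookup [DecidableEq β] {f : α → β} {g : α → List (β × γ)} (hf : Primrec f)
    (hg : Primrec g) : Primrec (fun x => List.lookup (f x) (g x)) :=
  Primrec.listLookup.comp hf hg

@[fun_prop] theorem pr_pre {D : α → ℕ → Bool} {k : α → ℕ}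
    (hD : Primrec (fun p : α × ℕ => D p.1 p.2)) (hk : Primrec k) :
    Primrec (fun a => pre (D a) (k a)) := by
  unfold pre
  fun_prop

end prim

/-! ### Initial segments -/

@[simp] theorem length_pre (D : ℕ → Bool) (k : ℕ) : (pre D k).length = k := by simp [pre]

theorem getElem?_pre (D : ℕ → Bool) (k x : ℕ) :
    (pre D k)[x]? = if x < k then some (D x) else none := by
  unfold pre
  split_ifs with h
  · simp [h]
  · simp; omega

theorem getD_pre (D : ℕ → Bool) {k x : ℕ} (h : x < k) (d : Bool) : (pre D k).getD x d = D x := by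
  rw [List.getD_eq_getElem?_getD, getElem?_pre, if_pos h, Option.getD_some]

theorem pre_succ (D : ℕ → Bool) (k : ℕ) : pre D (k + 1) = pre D k ++ [D k] := by
  simp [pre, List.range_succ]

theorem pre_congr {D D' : ℕ → Bool} {k : ℕ} (h : ∀ x < k, D x = D' x) : pre D k = pre D' k := by
  unfold pre
  apply List.map_congr_left
  intro x hx
  exact h x (List.mem_range.1 hx)

theorem pre_eq_iff {D D' : ℕ → Bool} {k : ℕ} : pre D k = pre D' k ↔ ∀ x < k, D x = D' x := by
  refine ⟨fun h x hx => ?_, pre_congr⟩
  rw [← getD_pre D hx false, h, getD_pre D' hx]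

theorem take_pre (D : ℕ → Bool) {j k : ℕ} (h : j ≤ k) : (pre D k).take j = pre D j := by
  unfold pre
  rw [← List.map_take, List.take_range, min_eq_left h]

theorem pre_isPrefix (D : ℕ → Bool) {j k : ℕ} (h : j ≤ k) : pre D j <+: pre D k := by
  rw [← take_pre D h]; exact List.take_prefix _ _

theorem pre_empty (n : ℕ) : pre emptyOracle n = List.replicate n false := by
  unfold pre emptyOracle
  simp

/-- A string, read as an oracle. -/
def ext (α : Str) : ℕ → Bool := fun i => α.getD i false

theorem pre_ext (α : Str) : pre (ext α) α.length = α := by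
  apply List.ext_getElem?
  intro i
  rw [getElem?_pre]
  split_ifs with h
  · simp [ext, h]
  · simp; omega

theorem pre_ext_le (α : Str) {n : ℕ} (h : n ≤ α.length) : pre (ext α) n = α.take n := by
  rw [← take_pre (ext α) h, pre_ext]

theorem eq_pre_of_isPrefix {D : ℕ → Bool} {n : ℕ} {y : Str} (h : y <+: pre D n) :
    y = pre D y.length := by
  have hl : y.length ≤ n := by simpa using h.length_le
  rw [← take_pre D hl]
  exact List.prefix_iff_eq_take.1 h

/-- Boolean test for being an initial segment. -/
def isPre (p q : Str) : Bool := eqb (q.take p.length) p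

@[simp] theorem isPre_true {p q : Str} : isPre p q = true ↔ p <+: q := by
  rw [isPre, eqb_true, List.prefix_iff_eq_take]; exact eq_comm

@[fun_prop] theorem pr_isPre {α : Type*} [Primcodable α] {f g : α → Str} (hf : Primrec f)
    (hg : Primrec g) : Primrec (fun x => isPre (f x) (g x)) := by
  unfold isPre
  fun_prop

/-! ### Lists of all strings -/

/-- All strings of length `n`. -/
def strs (n : ℕ) : List Str :=
  Nat.rec (motive := fun _ => List Str) [[]]
    (fun _ L => L.map (fun s => false :: s) ++ L.map (fun s => true :: s)) n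

theorem strs_succ (n : ℕ) :
    strs (n + 1) = (strs n).map (fun s => false :: s) ++ (strs n).map (fun s => true :: s) := rfl

@[fun_prop] theorem pr_strs {α : Type*} [Primcodable α] {f : α → ℕ} (hf : Primrec f) :
    Primrec (fun x => strs (f x)) := by
  unfold strs
  fun_prop

@[simp] theorem mem_strs {n : ℕ} {s : Str} : s ∈ strs n ↔ s.length = n := by
  induction n generalizing s with
  | zero => simp [strs]
  | succ n ih =>
    rw [strs_succ]
    cases s with
    | nil => simp
    | cons b s => cases b <;> simp [ih]

theorem nodup_strs (n : ℕ) : (strs n).Nodup := by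
  induction n with
  | zero => simp [strs]
  | succ n ih =>
    rw [strs_succ, List.nodup_append]
    refine ⟨ih.map (fun _ _ h => by simpa using h), ih.map (fun _ _ h => by simpa using h), ?_⟩
    intro a ha b hb hab
    simp only [List.mem_map] at ha hb
    obtain ⟨_, _, rfl⟩ := ha
    obtain ⟨_, _, rfl⟩ := hb
    simp at hab

@[simp] theorem length_strs (n : ℕ) : (strs n).length = 2 ^ n := by
  induction n with
  | zero => simp [strs]
  | succ n ih => rw [strs_succ]; simp [ih]; ring

/-- All strings of length at most `n`. -/
def upto (n : ℕ) : List Str := (List.range (n + 1)).flatMap strs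

@[fun_prop] theorem pr_upto {α : Type*} [Primcodable α] {f : α → ℕ} (hf : Primrec f) :
    Primrec (fun x => upto (f x)) := by
  unfold upto
  fun_prop

@[simp] theorem mem_upto {n : ℕ} {s : Str} : s ∈ upto n ↔ s.length ≤ n := by
  simp [upto]

theorem nodup_upto (n : ℕ) : (upto n).Nodup := by
  unfold upto
  rw [List.nodup_flatMap]
  refine ⟨fun i _ => nodup_strs i, ?_⟩
  refine List.Pairwise.imp ?_ (List.nodup_range (n := n + 1))
  intro a b hab
  simp only [Function.onFun]
  intro s h1 h2
  rw [mem_strs] at h1 h2
  omega

/-! ### Dyadic weights -/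

/-- `2^{-n}`. -/
noncomputable def wt (n : ℕ) : ℝ := (1 / 2 : ℝ) ^ n

theorem wt_pos (n : ℕ) : 0 < wt n := by unfold wt; positivity

@[simp] theorem wt_zero : wt 0 = 1 := by simp [wt]

theorem wt_succ (n : ℕ) : wt (n + 1) = wt n / 2 := by unfold wt; ring

theorem wt_add (m n : ℕ) : wt (m + n) = wt m * wt n := by unfold wt; ring

theorem wt_mul_pow (n : ℕ) : wt n * 2 ^ n = 1 := by
  unfold wt; rw [← mul_pow]; norm_num

theorem wt_le_wt {m n : ℕ} : wt m ≤ wt n ↔ n ≤ m := by
  unfold wt
  exact pow_le_pow_iff_right_of_lt_one₀ (by norm_num) (by norm_num)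

theorem wt_lt_wt {m n : ℕ} : wt m < wt n ↔ n < m := by
  rw [← not_le, wt_le_wt, not_le]

theorem wt_le_one (n : ℕ) : wt n ≤ 1 := by
  rw [← wt_zero, wt_le_wt]; omega

theorem wt_sub {m n : ℕ} (h : n ≤ m) : wt (m - n) = wt m * 2 ^ n := by
  have : wt m = wt (m - n) * wt n := by rw [← wt_add]; congr 1; omega
  rw [this, mul_assoc, wt_mul_pow, mul_one]

/-- Total weight of a list of exponents. -/
noncomputable def W (L : List ℕ) : ℝ := (L.map wt).sum

@[simp] theorem W_nil : W [] = 0 := rfl

@[simp] theorem W_cons (a : ℕ) (L : List ℕ) : W (a :: L) = wt a + W L := by simp [W]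

@[simp] theorem W_append (L L' : List ℕ) : W (L ++ L') = W L + W L' := by simp [W]

theorem W_nonneg (L : List ℕ) : 0 ≤ W L := by
  induction L with
  | nil => simp
  | cons a L ih => rw [W_cons]; have := wt_pos a; linarith

theorem W_replicate (n a : ℕ) : W (List.replicate n a) = n * wt a := by
  simp [W]

theorem W_map_add (L : List ℕ) (c : ℕ) : W (L.map fun l => l + c) = W L * wt c := by
  induction L with
  | nil => simp
  | cons a L ih => simp only [List.map_cons, W_cons, ih, wt_add]; ring

theorem W_sublist {L L' : List ℕ} (h : L.Sublist L') : W L ≤ W L' := by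
  induction h with
  | slnil => simp
  | cons a _ ih => rw [W_cons]; have := wt_pos a; linarith
  | cons_cons a _ ih => rw [W_cons, W_cons]; linarith

theorem wt_le_W {L : List ℕ} {a : ℕ} (h : a ∈ L) : wt a ≤ W L := by
  have := W_sublist (List.singleton_sublist.2 h)
  simpa using this

theorem W_flatMap {β : Type*} (L : List β) (f : β → List ℕ) :
    W (L.flatMap f) = (L.map fun b => W (f b)).sum := by
  induction L with
  | nil => simp
  | cons a L ih => simp [ih]

/-- The weight scaled by `2^E`. -/
def WN (E : ℕ) (L : List ℕ) : ℕ := (L.map fun l => 2 ^ (E - l)).sum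

theorem WN_cast {E : ℕ} {L : List ℕ} (h : ∀ l ∈ L, l ≤ E) : (WN E L : ℝ) = 2 ^ E * W L := by
  induction L with
  | nil => simp [WN]
  | cons a L ih =>
    have h1 : a ≤ E := h a (by simp)
    have h2 := ih (fun l hl => h l (by simp [hl]))
    simp only [WN, List.map_cons, List.sum_cons, W_cons] at h2 ⊢
    push_cast at h2 ⊢
    rw [h2, mul_add]
    congr 1
    have : (2 : ℝ) ^ E = 2 ^ (E - a) * 2 ^ a := by rw [← pow_add]; congr 1; omega
    rw [this, mul_assoc, mul_comm (2 ^ a) (wt a), wt_mul_pow, mul_one]

/-- Boolean comparison of weights. -/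
def wle (L L' : List ℕ) : Bool := leb (WN (L.sum + L'.sum) L) (WN (L.sum + L'.sum) L')

@[fun_prop] theorem pr_wle {α : Type*} [Primcodable α] {f g : α → List ℕ} (hf : Primrec f)
    (hg : Primrec g) : Primrec (fun x => wle (f x) (g x)) := by
  unfold wle WN
  fun_prop

@[simp] theorem wle_true {L L' : List ℕ} : wle L L' = true ↔ W L ≤ W L' := by
  rw [wle, leb_true, ← Nat.cast_le (α := ℝ),
    WN_cast (fun l hl => le_trans (List.single_le_sum (by simp) l hl) (Nat.le_add_right _ _)),
    WN_cast (fun l hl => le_trans (List.single_le_sum (by simp) l hl) (Nat.le_add_left _ _))]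
  exact mul_le_mul_iff_right₀ (by positivity)

@[simp] theorem wle_false {L L' : List ℕ} : wle L L' = false ↔ W L' < W L := by
  rw [← not_le, ← wle_true, Bool.not_eq_true]

/-! ### The Kraft inequality -/

theorem kraft_aux (N : ℕ) : ∀ P : Finset Str, (∀ p ∈ P, p.length ≤ N) →
    (∀ p ∈ P, ∀ q ∈ P, p <+: q → p = q) → ∑ p ∈ P, wt p.length ≤ 1 := by
  induction N with
  | zero =>
    intro P h _
    have : P ⊆ {[]} := fun p hp => by
      have := h p hp
      simpa using this
    calc ∑ p ∈ P, wt p.length ≤ ∑ p ∈ ({[]} : Finset Str), wt p.length :=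
          Finset.sum_le_sum_of_subset_of_nonneg this fun _ _ _ => (wt_pos _).le
      _ = 1 := by simp
  | succ N ih =>
    intro P h hf
    by_cases h0 : [] ∈ P
    · have : P ⊆ {[]} := fun p hp => by
        have := hf [] h0 p hp List.nil_prefix
        simp [← this]
      calc ∑ p ∈ P, wt p.length ≤ ∑ p ∈ ({[]} : Finset Str), wt p.length :=
            Finset.sum_le_sum_of_subset_of_nonneg this fun _ _ _ => (wt_pos _).le
        _ = 1 := by simp
    · have inj : ∀ b : Bool, Function.Injective (fun s : Str => b :: s) :=
        fun b _ _ h => by simpa using h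
      have key : ∀ b : Bool,
          ∑ p ∈ (P.preimage (fun s : Str => b :: s) (inj b).injOn).image (fun s : Str => b :: s),
            wt p.length ≤ 1 / 2 := by
        intro b
        rw [Finset.sum_image (fun _ _ _ _ h => inj b h)]
        have := ih (P.preimage (fun s : Str => b :: s) (inj b).injOn)
          (fun p hp => by
            have := h _ (Finset.mem_preimage.1 hp)
            simpa using this)
          (fun p hp q hq hpq => by
            have := hf _ (Finset.mem_preimage.1 hp) _ (Finset.mem_preimage.1 hq)
              (by simpa using hpq)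
            simpa using this)
        simp only [List.length_cons, wt_succ]
        rw [← Finset.sum_div]
        linarith
      have hsub : P ⊆
          (P.preimage (fun s : Str => false :: s) (inj false).injOn).image
            (fun s : Str => false :: s) ∪
          (P.preimage (fun s : Str => true :: s) (inj true).injOn).image
            (fun s : Str => true :: s) := by
        intro p hp
        cases p with
        | nil => exact absurd hp h0
        | cons b s => cases b <;> simp [hp]
      have h1 := Finset.sum_le_sum_of_subset_of_nonneg (f := fun p : Str => wt p.length) hsub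
        fun _ _ _ => (wt_pos _).le
      have h2 := Finset.sum_union_inter (f := fun p : Str => wt p.length)
        (s₁ := (P.preimage (fun s : Str => false :: s) (inj false).injOn).image
            (fun s : Str => false :: s))
        (s₂ := (P.preimage (fun s : Str => true :: s) (inj true).injOn).image
            (fun s : Str => true :: s))
      have h3 : 0 ≤ ∑ p ∈ (P.preimage (fun s : Str => false :: s) (inj false).injOn).image
            (fun s : Str => false :: s) ∩
          (P.preimage (fun s : Str => true :: s) (inj true).injOn).image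
            (fun s : Str => true :: s), wt p.length :=
        Finset.sum_nonneg fun _ _ => (wt_pos _).le
      have := key false
      have := key true
      linarith

theorem kraft (P : Finset Str) (hf : ∀ p ∈ P, ∀ q ∈ P, p <+: q → p = q) :
    ∑ p ∈ P, wt p.length ≤ 1 :=
  kraft_aux (P.sup List.length) P (fun _ hp => Finset.le_sup hp) hf

theorem W_lengths_eq {L : List Str} (hL : L.Nodup) :
    W (L.map List.length) = ∑ p ∈ L.toFinset, wt p.length := by
  rw [List.sum_toFinset _ hL, W, List.map_map]
  rfl

theorem kraft_list {L : List Str} (hL : L.Nodup) (hf : ∀ p ∈ L, ∀ q ∈ L, p <+: q → p = q) :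
    W (L.map List.length) ≤ 1 := by
  rw [W_lengths_eq hL]
  exact kraft _ fun p hp q hq => hf p (List.mem_toFinset.1 hp) q (List.mem_toFinset.1 hq)

theorem sum_wt_succ_le (n : ℕ) : ∑ i ∈ Finset.range n, wt (i + 1) ≤ 1 - wt n := by
  induction n with
  | zero => simp
  | succ n ih => rw [Finset.sum_range_succ, wt_succ]; linarith

theorem sum_wt_le_two (S : Finset ℕ) : ∑ i ∈ S, wt i ≤ 2 := by
  have h1 : ∑ i ∈ S, wt i ≤ ∑ i ∈ Finset.range (S.sup id + 1), wt i :=
    Finset.sum_le_sum_of_subset_of_nonneg
      (fun i hi => Finset.mem_range.2 (Nat.lt_succ_of_le (Finset.le_sup (f := id) hi)))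
      fun _ _ _ => (wt_pos _).le
  have h2 := sum_wt_succ_le (S.sup id + 1)
  simp only [wt_succ] at h2
  rw [← Finset.sum_div] at h2
  have := wt_pos (S.sup id)
  linarith

end Pool.Agent.P.MP_8f2c45_lc
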