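import Pool.Agent.P.MP_8f2c45_lc.KC

/-!
Kraft–Chaitin theorems for a universal clocked machine, masses of programs, the coding lemma.
-/

namespace Pool.Agent.P.MP_8f2c45_lc

open Pool.Agent.Lib.Comp

theorem comp_kc {α : Type*} [Primcodable α] {f : α → List Req} {g : α → Str}
    (hf : Computable f) (hg : Computable g) : Computable (fun x => kc (f x) (g x)) :=
  Computable₂.comp (f := kc) (Primrec.to_comp (pr_kc Primrec.fst Primrec.snd)) hf hg

theorem comp_stream {α β : Type*} [Primcodable α] [Primcodable β] (d : ℕ)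
    {batch : β → Str → List Req} (hb : Computable fun x : β × Str => batch x.1 x.2)
    {f : α → β} {g : α → Str} (hf : Computable f) (hg : Computable g) :
    Computable (fun x => stream d (batch (f x)) (g x)) :=
  Computable₂.comp (f := fun b a => stream d (batch b) a) (stream_computable d hb) hf hg

namespace Setting

variable (S : Setting)

@[fun_prop] theorem pr_H {α : Type*} [Primcodable α] {f g : α → Str} (hf : Primrec f)
    (hg : Primrec g) : Primrec (fun x => S.H (f x) (g x)) := S.prim.comp (hf.pair hg)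

/-- The machine without oracle. -/
def H0 (n : ℕ) (p : Str) : Option Str := S.H (List.replicate n false) p

@[fun_prop] theorem pr_H0 {α : Type*} [Primcodable α] {f : α → ℕ} {g : α → Str} (hf : Primrec f)
    (hg : Primrec g) : Primrec (fun x => S.H0 (f x) (g x)) := by
  unfold H0
  fun_prop

theorem H0_eq (n : ℕ) (p : Str) : S.H0 n p = S.H (pre emptyOracle n) p := by rw [pre_empty, H0]

variable {S}

theorem mono_pre {B : ℕ → Bool} {n n' : ℕ} {p y : Str} (h : n ≤ n')
    (hy : S.H (pre B n) p = some y) : S.H (pre B n') p = some y := S.mono (pre_isPrefix B h) hy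

theorem H0_mono {n n' : ℕ} {p y : Str} (h : n ≤ n') (hy : S.H0 n p = some y) :
    S.H0 n' p = some y := by
  rw [H0_eq] at hy ⊢; exact mono_pre h hy

theorem H0_free {n n' : ℕ} {p q y z : Str} (hp : S.H0 n p = some y) (hq : S.H0 n' q = some z)
    (h : p <+: q) : p = q :=
  S.free (H0_mono (le_max_left n n') hp) (H0_mono (le_max_right n n') hq) h

theorem H0_len {n : ℕ} {p y : Str} (hp : S.H0 n p = some y) : p.length ≤ n := by
  simpa using S.len hp

theorem H0_unique {n n' : ℕ} {p y z : Str} (hp : S.H0 n p = some y) (hq : S.H0 n' p = some z) :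
    y = z := by
  have h1 := H0_mono (le_max_left n n') hp
  rw [H0_mono (le_max_right n n') hq] at h1
  exact (Option.some.inj h1).symm

variable (S)

/-- Kraft–Chaitin with oracle and time bound. -/
theorem KCb {batch : Str → List Req} (hb : Computable batch) (d : ℕ) :
    ∃ (c : ℕ) (h : ℕ → ℕ), Computable h ∧ Monotone h ∧ ∀ B n l y, (l, y) ∈ batch (pre B n) →
      ∑ s ∈ Finset.range (n + 1), WR (batch (pre B s)) ≤ 2 ^ d →
      ∃ q : Str, q.length = l + c ∧ S.H (pre B (h (l + n))) q = some y := by
  have hc : Computable fun x : Str × Str => stream d batch x.1 :=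
    comp_stream (β := Unit) d (batch := fun _ => batch) (hb.comp Computable.snd)
      (Computable.const ()) Computable.fst
  have hk : Computable fun x : Str × Str => kc (stream d batch x.1) x.2 :=
    comp_kc hc Computable.snd
  obtain ⟨c, h, hh, hm, hs⟩ := S.univ (fun α x => kc (stream d batch α) x) hk
    (fun α α' p y hα => kc_mono (stream_mono d batch hα)) (fun α p q y z => kc_free)
  refine ⟨d + 1 + c, fun m => h (m + d + 1), hh.comp (Primrec.to_comp (by fun_prop)),
    fun a b hab => hm (by omega), fun B n l y h1 h2 => ?_⟩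
  have h3 : WR (stream d batch (pre B n)) ≤ 1 := by
    rw [WR_stream, ← wt_mul_pow d, mul_comm]
    exact mul_le_mul_of_nonneg_left h2 (wt_pos d).le
  obtain ⟨p, hp, h4⟩ := kc_exists (mem_stream d batch B h1) h3
  obtain ⟨q, hq, h5⟩ := hs B n p y h4
  exact ⟨q, by omega, mono_pre (hm (by omega)) h5⟩

/-- The position where the halting initial segment of `x` ends. -/
def split (n : ℕ) (x : Str) : Option ℕ :=
  (List.range (x.length + 1)).find? fun i => (S.H0 n (x.take i)).isSome

theorem split_eq {n i : ℕ} {x : Str} :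
    S.split n x = some i ↔ i ≤ x.length ∧ (S.H0 n (x.take i)).isSome := by
  have key : ∀ i, S.split n x = some i → i ≤ x.length ∧ (S.H0 n (x.take i)).isSome := by
    intro i h
    have h1 := List.mem_of_find?_eq_some h
    have h2 := List.find?_some h
    exact ⟨by simpa [Nat.lt_succ_iff] using h1, h2⟩
  refine ⟨key i, fun ⟨h1, h2⟩ => ?_⟩
  have : (S.split n x).isSome := by
    unfold split
    rw [List.find?_isSome]
    exact ⟨i, by simp; omega, h2⟩
  obtain ⟨j, hj⟩ := Option.isSome_iff_exists.1 this
  obtain ⟨h3, h4⟩ := key j hj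
  obtain ⟨y, hy⟩ := Option.isSome_iff_exists.1 h2
  obtain ⟨z, hz⟩ := Option.isSome_iff_exists.1 h4
  rw [hj]
  congr 1
  rcases le_total i j with c | c
  · have := congrArg List.length (H0_free hy hz (List.take_prefix_take_left c))
    simp at this; omega
  · have := congrArg List.length (H0_free hz hy (List.take_prefix_take_left c))
    simp at this; omega

/-- Kraft–Chaitin for a family of streams indexed by halting programs. -/
theorem FKCb {batch : Str → Str → List Req} (hb : Computable fun x : Str × Str => batch x.1 x.2)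
    (d : ℕ) : ∃ (c : ℕ) (h : ℕ → ℕ), Computable h ∧ Monotone h ∧ ∀ B n q l y,
      (S.H0 n q).isSome → (l, y) ∈ batch q (pre B n) →
      ∑ s ∈ Finset.range (n + 1), WR (batch q (pre B s)) ≤ 2 ^ d →
      ∃ x : Str, x.length = q.length + l + c ∧ S.H (pre B (h (l + n))) x = some y := by
  have hsp : Primrec fun x : Str × Str => S.split x.1.length x.2 := by
    unfold split
    fun_prop
  obtain ⟨c, h, hh, hm, hs⟩ := S.univ
    (fun α x => (S.split α.length x).bind fun i => kc (stream d (batch (x.take i)) α) (x.drop i))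
    (by
      refine Computable.option_bind hsp.to_comp ?_
      have h1 : Computable fun z : (Str × Str) × ℕ => stream d (batch (z.1.2.take z.2)) z.1.1 :=
        comp_stream d hb (Primrec.to_comp (by fun_prop)) (Primrec.to_comp (by fun_prop))
      have h2 : Computable fun z : (Str × Str) × ℕ =>
          kc (stream d (batch (z.1.2.take z.2)) z.1.1) (z.1.2.drop z.2) :=
        comp_kc h1 (Primrec.to_comp (by fun_prop))
      exact h2)
    (by
      intro α α' p y hα h
      rw [Option.bind_eq_some_iff] at h ⊢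
      obtain ⟨i, h1, h2⟩ := h
      refine ⟨i, ?_, kc_mono (stream_mono d _ hα) h2⟩
      rw [split_eq] at h1 ⊢
      obtain ⟨z, hz⟩ := Option.isSome_iff_exists.1 h1.2
      exact ⟨h1.1, by rw [H0_mono hα.length_le hz]; rfl⟩)
    (by
      intro α p q y z hp hq hpq
      rw [Option.bind_eq_some_iff] at hp hq
      obtain ⟨i, h1, h2⟩ := hp
      obtain ⟨j, h3, h4⟩ := hq
      obtain ⟨t, rfl⟩ := hpq
      have h5 := (S.split_eq.1 h1)
      have h6 : S.split α.length (p ++ t) = some i := by
        rw [split_eq, List.take_append_of_le_length h5.1]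
        exact ⟨by simp; omega, h5.2⟩
      rw [h6] at h3
      obtain rfl := Option.some.inj h3
      rw [List.take_append_of_le_length h5.1, List.drop_append_of_le_length h5.1] at h4
      have := kc_free h2 h4 (List.prefix_append _ _)
      have h7 : t = [] := by simpa using this
      simp [h7])
  refine ⟨d + 1 + c, fun m => h (2 * m + d + 1), hh.comp (Primrec.to_comp (by fun_prop)),
    fun a b hab => hm (by omega), fun B n q l y h0 h1 h2 => ?_⟩
  have h3 : WR (stream d (batch q) (pre B n)) ≤ 1 := by
    rw [WR_stream, ← wt_mul_pow d, mul_comm]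
    exact mul_le_mul_of_nonneg_left h2 (wt_pos d).le
  obtain ⟨p, hp, h4⟩ := kc_exists (mem_stream d (batch q) B h1) h3
  obtain ⟨z, hz⟩ := Option.isSome_iff_exists.1 h0
  have h6 := H0_len hz
  obtain ⟨x, hx, h5⟩ := hs B n (q ++ p) y (by
    have : S.split (pre B n).length (q ++ p) = some q.length := by
      rw [split_eq]; simpa using h0
    rw [this]
    simpa using h4)
  simp only [List.length_append] at hx h5
  exact ⟨x, by omega, mono_pre (hm (by omega)) h5⟩

/-- Prefix-free complexity. -/
noncomputable def KH (B : ℕ → Bool) (y : Str) : ℕ :=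
  sInf {l | ∃ (p : Str) (n : ℕ), p.length = l ∧ S.H (pre B n) p = some y}

variable {S} in
theorem KH_le {B : ℕ → Bool} {n : ℕ} {p y : Str} (h : S.H (pre B n) p = some y) :
    S.KH B y ≤ p.length := Nat.sInf_le ⟨p, n, rfl, h⟩

variable {S} in
theorem KH0_le {n : ℕ} {p y : Str} (h : S.H0 n p = some y) : S.KH emptyOracle y ≤ p.length :=
  KH_le (by rwa [← H0_eq])

theorem exists_short : ∃ c, ∀ (B : ℕ → Bool) (y : Str), ∃ (q : Str) (n : ℕ),
    q.length = 2 * y.length + c ∧ S.H (pre B n) q = some y := by
  obtain ⟨c, h, -, -, hs⟩ := S.KCb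
    (batch := fun α => (strs α.length).map fun y => (2 * α.length + 1, y))
    (Primrec.to_comp (by fun_prop)) 0
  refine ⟨1 + c, fun B y => ?_⟩
  obtain ⟨q, hq, h⟩ := hs B y.length (2 * y.length + 1) y (by simp) (by
    have : ∀ s, WR ((strs (pre B s).length).map fun y => (2 * (pre B s).length + 1, y)) =
        wt (s + 1) := by
      intro s
      have e : 2 * s + 1 = s + 1 + s := by ring
      simp only [WR, List.map_map, length_pre, Function.comp_def, List.map_const', length_strs,
        W_replicate]
      rw [e, wt_add (s + 1) s]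
      push_cast
      rw [mul_comm, mul_assoc, wt_mul_pow, mul_one]
    simp only [this]
    have := sum_wt_succ_le (y.length + 1)
    have := wt_pos (y.length + 1)
    linarith)
  exact ⟨q, _, by omega, h⟩

theorem KH_spec (B : ℕ → Bool) (y : Str) :
    ∃ (p : Str) (n : ℕ), p.length = S.KH B y ∧ S.H (pre B n) p = some y := by
  obtain ⟨c, hc⟩ := S.exists_short
  obtain ⟨q, n, -, h⟩ := hc B y
  exact Nat.sInf_mem (s := {l | ∃ (p : Str) (n : ℕ), p.length = l ∧ S.H (pre B n) p = some y})
    ⟨_, q, n, rfl, h⟩

theorem KH0_spec (y : Str) :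
    ∃ (p : Str) (n : ℕ), p.length = S.KH emptyOracle y ∧ S.H0 n p = some y := by
  simpa only [H0_eq] using S.KH_spec emptyOracle y

theorem KH_le_two_mul : ∃ c, ∀ (B : ℕ → Bool) (y : Str), S.KH B y ≤ 2 * y.length + c := by
  obtain ⟨c, hc⟩ := S.exists_short
  refine ⟨c, fun B y => ?_⟩
  obtain ⟨q, n, hq, h⟩ := hc B y
  exact hq ▸ KH_le h

/-- Kraft–Chaitin without oracle. -/
theorem KC0 {batch : ℕ → List Req} (hb : Computable batch) (d : ℕ)
    (hW : ∀ n, ∑ s ∈ Finset.range n, WR (batch s) ≤ 2 ^ d) :
    ∃ c, ∀ n l y, (l, y) ∈ batch n → S.KH emptyOracle y ≤ l + c := by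
  obtain ⟨c, h, -, -, hs⟩ := S.KCb (batch := fun α => batch α.length)
    (hb.comp Computable.list_length) d
  refine ⟨c, fun n l y hy => ?_⟩
  obtain ⟨q, hq, h⟩ := hs emptyOracle n l y (by simpa using hy) (by simpa using hW (n + 1))
  exact hq ▸ KH_le h

/-- Kraft–Chaitin for an enumerated set of requests. -/
theorem KCset {A : ℕ → ℕ → Bool} (hA : Primrec fun x : ℕ × ℕ => A x.1 x.2)
    (hm : ∀ s m, A s m = true → A (s + 1) m = true) (hlt : ∀ s m, A s m = true → m < s)
    {r : ℕ → Req} (hr : Primrec r) (d : ℕ)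
    (hW : ∀ s, ∑ m ∈ (Finset.range s).filter (fun m => A s m = true), wt (r m).1 ≤ 2 ^ d) :
    ∃ c, ∀ s m, A s m = true → S.KH emptyOracle (r m).2 ≤ (r m).1 + c := by
  obtain ⟨c, hc⟩ := S.KC0
    (batch := fun s => ((List.range (s + 1)).filter fun m => A (s + 1) m && !A s m).map r)
    (Primrec.to_comp (by fun_prop)) d (by
      intro n
      refine le_trans (le_of_eq ?_) (hW n)
      induction n with
      | zero => simp
      | succ n ih =>
        rw [Finset.sum_range_succ, ih]
        have e1 : WR (((List.range (n + 1)).filter fun m => A (n + 1) m && !A n m).map r) =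
            ∑ m ∈ (Finset.range (n + 1)).filter (fun m => (A (n + 1) m && !A n m) = true),
              wt (r m).1 := by
          rw [WR, W, List.map_map, List.map_map,
            ← List.sum_toFinset _ (List.nodup_range.filter _), List.toFinset_filter,
            List.toFinset_range]
          rfl
        rw [e1, ← Finset.sum_union]
        · congr 1
          ext m
          simp only [Finset.mem_union, Finset.mem_filter, Finset.mem_range, Bool.and_eq_true,
            Bool.not_eq_true']
          constructor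
          · rintro (⟨h1, h2⟩ | ⟨h1, h2, _⟩)
            · exact ⟨by omega, hm _ _ h2⟩
            · exact ⟨h1, h2⟩
          · rintro ⟨h1, h2⟩
            cases h : A n m
            · exact Or.inr ⟨h1, h2, rfl⟩
            · exact Or.inl ⟨hlt _ _ h, rfl⟩
        · rw [Finset.disjoint_left]
          intro m h1 h2
          simp only [Finset.mem_filter, Bool.and_eq_true, Bool.not_eq_true'] at h1 h2
          rw [h1.2] at h2
          exact absurd h2.2.2 (by simp))
  refine ⟨c, fun s m h => ?_⟩
  induction s with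
  | zero => exact absurd (hlt _ _ h) (by simp)
  | succ s ih =>
    cases h' : A s m
    · refine hc s _ _ (List.mem_map.2 ⟨m, ?_, rfl⟩)
      simp [h, h', hlt _ _ h]
    · exact ih h'

/-! ### Masses -/

/-- The programs that halt by stage `s` with an output satisfying `f`. -/
def progs (s : ℕ) (f : Str → Bool) : List Str :=
  (upto s).filter fun p => (S.H0 s p).elim false f

/-- Their lengths. -/
def ms (s : ℕ) (f : Str → Bool) : List ℕ := (S.progs s f).map fun p => p.length

@[fun_prop] theorem pr_progs {α : Type*} [Primcodable α] {s : α → ℕ} {f : α → Str → Bool}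
    (hs : Primrec s) (hf : Primrec fun x : α × Str => f x.1 x.2) :
    Primrec (fun x => S.progs (s x) (f x)) := by
  unfold progs
  fun_prop

@[fun_prop] theorem pr_ms {α : Type*} [Primcodable α] {s : α → ℕ} {f : α → Str → Bool}
    (hs : Primrec s) (hf : Primrec fun x : α × Str => f x.1 x.2) :
    Primrec (fun x => S.ms (s x) (f x)) := by
  unfold ms
  fun_prop

variable {S}

theorem mem_progs {s : ℕ} {f : Str → Bool} {p : Str} :
    p ∈ S.progs s f ↔ ∃ y, S.H0 s p = some y ∧ f y = true := by
  unfold progs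
  rw [List.mem_filter, mem_upto]
  constructor
  · rintro ⟨-, h⟩
    cases hy : S.H0 s p with
    | none => simp [hy] at h
    | some y => exact ⟨y, rfl, by simpa [hy] using h⟩
  · rintro ⟨y, hy, h⟩
    exact ⟨H0_len hy, by simp [hy, h]⟩

theorem nodup_progs (s : ℕ) (f : Str → Bool) : (S.progs s f).Nodup := (nodup_upto s).filter _

theorem W_ms (s : ℕ) (f : Str → Bool) :
    W (S.ms s f) = ∑ p ∈ (S.progs s f).toFinset, wt p.length := W_lengths_eq (nodup_progs s f)

theorem W_ms_mono {s s' : ℕ} {f g : Str → Bool} (h : s ≤ s') (hfg : ∀ y, f y = true → g y = true) :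
    W (S.ms s f) ≤ W (S.ms s' g) := by
  rw [W_ms, W_ms]
  refine Finset.sum_le_sum_of_subset_of_nonneg (fun p hp => ?_) fun _ _ _ => (wt_pos _).le
  rw [List.mem_toFinset, mem_progs] at hp ⊢
  obtain ⟨y, h1, h2⟩ := hp
  exact ⟨y, H0_mono h h1, hfg y h2⟩

theorem wt_le_W_ms {s : ℕ} {f : Str → Bool} {p y : Str} (h : S.H0 s p = some y) (hf : f y = true) :
    wt p.length ≤ W (S.ms s f) :=
  wt_le_W (List.mem_map.2 ⟨p, mem_progs.2 ⟨y, h, hf⟩, rfl⟩)

theorem sum_W_ms_le {ι : Type*} (I : Finset ι) (s : ι → ℕ) (f : ι → Str → Bool)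
    {N : ℕ} {g : Str → Bool} (hN : ∀ i ∈ I, s i ≤ N) (hg : ∀ i ∈ I, ∀ y, f i y = true → g y = true)
    (hd : ∀ i ∈ I, ∀ j ∈ I, ∀ y, f i y = true → f j y = true → i = j) :
    ∑ i ∈ I, W (S.ms (s i) (f i)) ≤ W (S.ms N g) := by
  classical
  simp only [W_ms]
  rw [← Finset.sum_biUnion]
  · refine Finset.sum_le_sum_of_subset_of_nonneg (fun p hp => ?_) fun _ _ _ => (wt_pos _).le
    simp only [Finset.mem_biUnion, List.mem_toFinset, mem_progs] at hp ⊢
    obtain ⟨i, hi, y, h1, h2⟩ := hp
    exact ⟨y, H0_mono (hN i hi) h1, hg i hi y h2⟩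
  · intro i hi j hj hij
    simp only [Function.onFun]
    rw [Finset.disjoint_left]
    intro p h1 h2
    rw [List.mem_toFinset, mem_progs] at h1 h2
    obtain ⟨y, h1, h3⟩ := h1
    obtain ⟨z, h2, h4⟩ := h2
    obtain rfl := H0_unique h1 h2
    exact hij (hd i hi j hj y h3 h4)

theorem W_ms_le_one (s : ℕ) (f : Str → Bool) : W (S.ms s f) ≤ 1 := by
  refine kraft_list (nodup_progs s f) fun p hp q hq h => ?_
  obtain ⟨y, h1, -⟩ := mem_progs.1 hp
  obtain ⟨z, h2, -⟩ := mem_progs.1 hq
  exact H0_free h1 h2 h

theorem sum_W_ms_le_one {ι : Type*} (I : Finset ι) (s : ι → ℕ) (f : ι → Str → Bool)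
    (hd : ∀ i ∈ I, ∀ j ∈ I, ∀ y, f i y = true → f j y = true → i = j) :
    ∑ i ∈ I, W (S.ms (s i) (f i)) ≤ 1 :=
  (sum_W_ms_le I s f (N := I.sup s) (g := fun _ => true) (fun _ hi => Finset.le_sup hi)
    (fun _ _ _ _ => rfl) hd).trans (W_ms_le_one _ _)

/-- A finite set of strings satisfying `f` has weight at most the mass of `f` at a late stage. -/
theorem sum_KH_le (Y : Finset Str) (f : Str → Bool) (hf : ∀ y ∈ Y, f y = true) :
    ∃ N, ∑ y ∈ Y, wt (S.KH emptyOracle y) ≤ W (S.ms N f) := by
  choose p n hp hn using S.KH0_spec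
  refine ⟨Y.sup n, le_trans ?_ (sum_W_ms_le Y n (fun y z => eqb z y)
    (fun _ hi => Finset.le_sup hi) (fun y hy z h => by rw [eqb_true.1 h]; exact hf y hy)
    (fun y _ z _ x h1 h2 => by rw [← eqb_true.1 h1, ← eqb_true.1 h2]))⟩
  refine Finset.sum_le_sum fun y _ => ?_
  rw [← hp y]
  exact wt_le_W_ms (hn y) (by simp)

theorem sum_KH_le_one (Y : Finset Str) : ∑ y ∈ Y, wt (S.KH emptyOracle y) ≤ 1 := by
  obtain ⟨N, h⟩ := sum_KH_le (S := S) Y (fun _ => true) fun _ _ => rfl
  exact h.trans (W_ms_le_one _ _)

end Setting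

theorem sum_wt_le_of_lt {I : Finset ℕ} {Q : ℝ} (hQ : 0 ≤ Q) (h : ∀ i ∈ I, wt i < Q) :
    ∑ i ∈ I, wt i ≤ 2 * Q := by
  rcases I.eq_empty_or_nonempty with rfl | hI
  · simpa using hQ
  · have h1 : ∑ i ∈ I, wt i = wt (I.min' hI) * ∑ i ∈ I.image (fun i => i - I.min' hI), wt i := by
      rw [Finset.sum_image, Finset.mul_sum]
      · refine Finset.sum_congr rfl fun i hi => ?_
        rw [← wt_add]
        congr 1
        have := I.min'_le i hi
        omega
      · intro a ha b hb hab
        have := I.min'_le a ha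
        have := I.min'_le b hb
        simp only at hab
        omega
    have h2 := sum_wt_le_two (I.image fun i => i - I.min' hI)
    have h3 := h _ (I.min'_mem hI)
    have h4 := wt_pos (I.min' hI)
    rw [h1]
    nlinarith

namespace Setting

/-- The coding lemma. -/
theorem coding (S : Setting) {cls : Str → ℕ} (hc : Primrec cls) : ∃ c : ℕ, ∀ n s,
    W (S.ms s fun y => eqb (cls y) n) ≤ 2 ^ c * wt (S.KH emptyOracle (List.replicate n false)) := by
  let A : ℕ → ℕ → Bool := fun s m =>
    ltb m s && !wle (S.ms s fun y => eqb (cls y) m.unpair.1) [m.unpair.2]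
  have hA : ∀ s m, A s m = true ↔
      m < s ∧ wt m.unpair.2 < W (S.ms s fun y => eqb (cls y) m.unpair.1) := by
    intro s m
    simp [A]
  obtain ⟨c, hc⟩ := S.KCset (A := A) (by simp only [A]; fun_prop)
    (fun s m h => by
      rw [hA] at h ⊢
      exact ⟨by omega, h.2.trans_le (W_ms_mono (by omega) fun _ h => h)⟩)
    (fun s m h => ((hA s m).1 h).1)
    (r := fun m => (m.unpair.2, List.replicate m.unpair.1 false)) (by fun_prop) 1 (by
      intro s
      rw [← Finset.sum_fiberwise_of_maps_to (t := Finset.range s) (g := fun m => m.unpair.1)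
        (fun m hm => by
          have := Finset.mem_range.1 (Finset.mem_filter.1 hm).1
          exact Finset.mem_range.2 ((Nat.unpair_left_le m).trans_lt this))]
      have h1 := sum_W_ms_le_one (S := S) (Finset.range s) (fun _ => s)
        (fun n y => eqb (cls y) n) (fun i _ j _ y h1 h2 => by
          rw [← eqb_true.1 h1, ← eqb_true.1 h2])
      have h2 : ∀ n ∈ Finset.range s,
          ∑ m ∈ ((Finset.range s).filter (fun m => A s m = true)).filter
            (fun m => m.unpair.1 = n), wt m.unpair.2 ≤ 2 * W (S.ms s fun y => eqb (cls y) n) := by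
        intro n _
        rw [← Finset.sum_image (g := fun m : ℕ => m.unpair.2) (f := wt)]
        · refine sum_wt_le_of_lt (W_nonneg _) fun i hi => ?_
          obtain ⟨m, hm, rfl⟩ := Finset.mem_image.1 hi
          obtain ⟨hm', rfl⟩ := Finset.mem_filter.1 hm
          exact ((hA _ _).1 (Finset.mem_filter.1 hm').2).2
        · intro a ha b hb hab
          have ha := (Finset.mem_filter.1 (Finset.mem_coe.1 ha)).2
          have hb := (Finset.mem_filter.1 (Finset.mem_coe.1 hb)).2
          simp only at hab
          rw [← Nat.pair_unpair a, ← Nat.pair_unpair b, ha, hb, hab]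
      have h3 := Finset.sum_le_sum h2
      rw [← Finset.mul_sum] at h3
      simp only
      linarith)
  refine ⟨c + 1, fun n s => ?_⟩
  rcases (W_nonneg (S.ms s fun y => eqb (cls y) n)).eq_or_lt with h0 | h0
  · rw [← h0]; have := wt_pos (S.KH emptyOracle (List.replicate n false)); positivity
  have hex : ∃ i, wt i < W (S.ms s fun y => eqb (cls y) n) :=
    exists_pow_lt_of_lt_one h0 (by norm_num)
  classical
  have h1 := Nat.find_spec hex
  have h2 : W (S.ms s fun y => eqb (cls y) n) ≤ 2 * wt (Nat.find hex) := by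
    rcases Nat.eq_zero_or_pos (Nat.find hex) with h | h
    · rw [h, wt_zero]; linarith [W_ms_le_one (S := S) s fun y => eqb (cls y) n]
    · have := Nat.find_min hex (m := Nat.find hex - 1) (by omega)
      have e : wt (Nat.find hex) = wt (Nat.find hex - 1) / 2 := by
        rw [← wt_succ]; congr 1; omega
      linarith
  have h3 := hc (max s (Nat.pair n (Nat.find hex) + 1)) (Nat.pair n (Nat.find hex)) (by
    rw [hA, Nat.unpair_pair]
    exact ⟨by omega, h1.trans_le (W_ms_mono (le_max_left _ _) fun _ h => h)⟩)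
  simp only [Nat.unpair_pair] at h3
  have h4 := wt_le_wt.2 h3
  rw [wt_add] at h4
  have h5 : wt (Nat.find hex) = wt (Nat.find hex) * wt c * 2 ^ c := by
    rw [mul_assoc, wt_mul_pow, mul_one]
  have h6 : (0 : ℝ) < 2 ^ c := by positivity
  rw [pow_succ]
  nlinarith

end Setting

end Pool.Agent.P.MP_8f2c45_lc
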