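import Mathlib

/-!
Timed prefix-free oracle machines, Kolmogorov complexity, K-triviality and depth.
-/

namespace Pool.Agent.P.MP_8f2c45_lc

/-- The string of the first `n` bits of `X`. -/
def pre (X : ℕ → Bool) (n : ℕ) : List Bool := (List.range n).map X

/-- A timed prefix-free oracle machine. `run A p s` is the output of the machine with oracle `A`
on the program `p` if it halts within `s` steps, and `none` otherwise. -/
structure Machine where
  run : (ℕ → Bool) → List Bool → ℕ → Option (List Bool)
  /-- what halts within `s` steps halts within any larger number of steps -/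
  mono : ∀ A p s s' y, s ≤ s' → run A p s = some y → run A p s' = some y
  /-- for each oracle the domain is prefix-free -/
  free : ∀ A p q s s' y z, run A p s = some y → run A q s' = some z → p <+: q → p = q
  /-- `s` steps are computed from `p`, `s` and the first `u s` bits of the oracle -/
  eff : ∃ (u : ℕ → ℕ) (f : List Bool × List Bool × ℕ → Option (List Bool)),
    Computable u ∧ Computable f ∧ ∀ A p s, run A p s = f (pre A (u s), p, s)

/-- `U` simulates every machine, uniformly in the oracle, with a computable time overhead. -/
def Universal (U : Machine) : Prop :=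
  ∀ M : Machine, ∃ (ρ : List Bool) (h : ℕ → ℕ), Computable h ∧
    ∀ A p s y, M.run A p s = some y → U.run A (ρ ++ p) (h (p.length + s)) = some y

/-- Prefix-free complexity `K^A(σ)`. -/
noncomputable def K (U : Machine) (A : ℕ → Bool) (σ : List Bool) : ℕ∞ :=
  ⨅ (p : List Bool) (_ : ∃ s, U.run A p s = some σ), (p.length : ℕ∞)

/-- Time-bounded prefix-free complexity `K^{A,t}(σ)` (infinite if no program halts in time). -/
noncomputable def Kt (U : Machine) (A : ℕ → Bool) (t : ℕ → ℕ) (σ : List Bool) : ℕ∞ :=
  ⨅ (p : List Bool) (_ : U.run A p (t σ.length) = some σ), (p.length : ℕ∞)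

/-- The empty oracle. -/
def emptyOracle : ℕ → Bool := fun _ => false

/-- `X` is K-trivial: `K(X|n) ≤ K(n) + c`, with `n` written in unary. -/
def KTrivial (U : Machine) (X : ℕ → Bool) : Prop :=
  ∃ c : ℕ, ∀ n, K U emptyOracle (pre X n) ≤ K U emptyOracle (List.replicate n false) + c

/-- `X` is `A`-deep: for every computable time bound `t`, `K^{A,t}(X|n) - K^A(X|n) → ∞`. -/
def Deep (U : Machine) (A X : ℕ → Bool) : Prop :=
  ∀ t : ℕ → ℕ, Computable t → Monotone t →
    ∀ c : ℕ, ∀ᶠ n in Filter.atTop, K U A (pre X n) + c ≤ Kt U A t (pre X n)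

end Pool.Agent.P.MP_8f2c45_lc
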