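import Pool.Agent.P.MP_8f2c45_lc.Normal

/-!
Existence of a universal timed prefix-free oracle machine.
-/

namespace Pool.Agent.P.MP_8f2c45_lc

open Pool.Agent.Lib.Comp Encodable Nat.Partrec

/-- Every machine is simulated by a pair of codes. -/
theorem exists_sim (U : Machine) : ∃ cu cf : Code,
    (∀ α α' p y, α <+: α' → simH cu cf α p = some y → simH cu cf α' p = some y) ∧
    (∀ α p q y z, simH cu cf α p = some y → simH cu cf α q = some z → p <+: q → p = q) ∧
    (∀ α p y, simH cu cf α p = some y → p.length ≤ α.length) ∧
    ∃ g : ℕ → ℕ, Computable g ∧ Monotone g ∧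
      ∀ B p s y, U.run B p s = some y → simH cu cf (pre B (g (p.length + s))) p = some y := by
  obtain ⟨u, f, hu, hf, hrun⟩ := U.eff
  obtain ⟨cu, su, tu⟩ := exists_ev hu
  obtain ⟨cf, sf, tf⟩ := exists_ev hf
  have tsound : ∀ α p s y, trial cu cf α p s = some y →
      ∀ B, α = pre B α.length → U.run B p s = some y := by
    intro α p s y h B hB
    unfold trial at h
    rw [Option.bind_eq_some_iff] at h
    obtain ⟨us, h1, h2⟩ := h
    obtain rfl := su _ _ _ h1
    cases hle : leb (u s) α.length
    · simp [hle] at h2
    · rw [hle, cond_true, Option.bind_eq_some_iff] at h2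
      obtain ⟨o, h3, rfl⟩ := h2
      have := sf _ _ _ h3
      rw [hrun, ← take_pre B (leb_true.1 hle), ← hB, ← this]
  have sound : ∀ α p y, simH cu cf α p = some y → p.length ≤ α.length ∧
      ∃ s ≤ α.length, trial cu cf α p s = some y := by
    intro α p y h
    unfold simH at h
    cases hle : leb p.length α.length
    · simp [hle] at h
    · rw [hle, cond_true] at h
      obtain ⟨s, hs, h⟩ := List.exists_of_findSome?_eq_some h
      exact ⟨leb_true.1 hle, s, by simpa [Nat.lt_succ_iff] using hs, h⟩
  have compl : ∀ α p s y, p.length ≤ α.length → s ≤ α.length → trial cu cf α p s = some y →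
      simH cu cf α p = some y := by
    intro α p s y h1 h2 h3
    have : (simH cu cf α p).isSome := by
      unfold simH
      rw [leb_true.2 h1, cond_true, List.findSome?_isSome_iff]
      exact ⟨s, by simp; omega, by simp [h3]⟩
    obtain ⟨y', hy'⟩ := Option.isSome_iff_exists.1 this
    obtain ⟨_, s', _, h4⟩ := sound _ _ _ hy'
    have e1 := U.mono _ _ _ _ _ (le_max_left s s') (tsound _ _ _ _ h3 (ext α) (pre_ext α).symm)
    have e2 := U.mono _ _ _ _ _ (le_max_right s s') (tsound _ _ _ _ h4 (ext α) (pre_ext α).symm)
    rw [hy', ← e1, e2]
  have tmono : ∀ α α' p s y, α <+: α' → trial cu cf α p s = some y →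
      trial cu cf α' p s = some y := by
    intro α α' p s y hα h
    unfold trial at h ⊢
    rw [Option.bind_eq_some_iff] at h ⊢
    obtain ⟨us, h1, h2⟩ := h
    refine ⟨us, ev_mono hα.length_le h1, ?_⟩
    cases hle : leb us α.length
    · simp [hle] at h2
    · rw [hle, cond_true, Option.bind_eq_some_iff] at h2
      obtain ⟨o, h3, h4⟩ := h2
      have hle' := leb_true.1 hle
      rw [leb_true.2 (hle'.trans hα.length_le), cond_true, Option.bind_eq_some_iff]
      refine ⟨o, ?_, h4⟩
      have : α'.take us = α.take us := by
        obtain ⟨t, rfl⟩ := hα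
        rw [List.take_append_of_le_length hle']
      rw [this]
      exact ev_mono hα.length_le h3
  have L1 : ∀ B n p y, simH cu cf (pre B n) p = some y → U.run B p n = some y := by
    intro B n p y h
    obtain ⟨_, s, hs, h⟩ := sound _ _ _ h
    exact U.mono _ _ _ _ _ (by simpa using hs) (tsound _ _ _ _ h B (by simp))
  -- the modulus
  have L2 : ∃ g : ℕ → ℕ, Computable g ∧ Monotone g ∧
      ∀ B p s y, U.run B p s = some y → simH cu cf (pre B (g (p.length + s))) p = some y := by
    let P : ℕ → ℕ → Bool := fun m N => leb m N && (List.range (m + 1)).all fun s =>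
      (ev ℕ cu N s).elim false fun us => leb us N && (strs us).all fun α =>
        (upto m).all fun p => (ev (Option Str) cf N (α, p, s)).isSome
    have hP : Primrec fun x : ℕ × ℕ => P x.1 x.2 := by
      simp only [P]
      fun_prop
    have hev : ∀ m, ∀ᶠ N in Filter.atTop, P m N = true := by
      intro m
      simp only [P, Bool.and_eq_true, List.all_eq_true, leb_true]
      refine (Filter.eventually_ge_atTop m).and ?_
      refine (Filter.eventually_all_finite (I := {s | s ∈ List.range (m + 1)})
        (List.finite_toSet _)).2 fun s _ => ?_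
      obtain ⟨N0, h0⟩ := tu s
      have h1 : ∀ᶠ N in Filter.atTop, ∀ α ∈ strs (u s), ∀ p ∈ upto m,
          (ev (Option Str) cf N (α, p, s)).isSome = true := by
        refine (Filter.eventually_all_finite (I := {α | α ∈ strs (u s)})
          (List.finite_toSet _)).2 fun α _ => ?_
        refine (Filter.eventually_all_finite (I := {p | p ∈ upto m})
          (List.finite_toSet _)).2 fun p _ => ?_
        obtain ⟨N1, h1⟩ := tf (α, p, s)
        filter_upwards [Filter.eventually_ge_atTop N1] with N hN
        rw [ev_mono hN h1]; rfl
      filter_upwards [h1, Filter.eventually_ge_atTop N0, Filter.eventually_ge_atTop (u s)]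
        with N h1 h2 h3
      rw [ev_mono h2 h0]
      simpa only [Option.elim, Bool.and_eq_true, leb_true, List.all_eq_true] using ⟨h3, h1⟩
    obtain ⟨g0, hg0, hP0⟩ := exists_modulus hP.to_comp fun m => (hev m).exists
    obtain ⟨g, hg, hm, hle⟩ := exists_mono_dom hg0
    refine ⟨g, hg, hm, fun B p s y h => ?_⟩
    have h1 := hP0 (p.length + s)
    have hle' := hle (p.length + s)
    simp only [P, Bool.and_eq_true, List.all_eq_true, leb_true] at h1
    obtain ⟨h1, h2⟩ := h1
    have h3 := h2 s (by simp)
    cases hus : ev ℕ cu (g0 (p.length + s)) s with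
    | none => simp [hus] at h3
    | some us =>
      obtain rfl := su _ _ _ hus
      simp only [hus, Option.elim, Bool.and_eq_true, leb_true, List.all_eq_true] at h3
      obtain ⟨h3, h4⟩ := h3
      have h5 := h4 (pre B (u s)) (by simp) p (by simp)
      obtain ⟨o, ho⟩ := Option.isSome_iff_exists.1 h5
      have ho' := sf _ _ _ ho
      rw [← hrun, h] at ho'
      refine compl _ _ s _ (by simp; omega) (by simp; omega) ?_
      unfold trial
      rw [length_pre, ev_mono hle' hus, Option.bind_some, leb_true.2 (h3.trans hle'), cond_true,
        take_pre B (h3.trans hle'), ev_mono hle' ho, ho']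
      rfl
  refine ⟨cu, cf, ?_, ?_, ?_, L2⟩
  · intro α α' p y hα h
    obtain ⟨h1, s, hs, h2⟩ := sound _ _ _ h
    exact compl _ _ s _ (h1.trans hα.length_le) (hs.trans hα.length_le) (tmono _ _ _ _ _ hα h2)
  · intro α p q y z h h' hpq
    rw [← pre_ext α] at h h'
    exact U.free _ _ _ _ _ _ _ (L1 _ _ _ _ h) (L1 _ _ _ _ h') hpq
  · intro α p y h
    exact (sound _ _ _ h).1

/-- No other comparable program halts by stage `n`. -/
def unblocked (G : Str → Str → Option Str) (α p : Str) (n : ℕ) : Bool :=
  leb p.length n && (List.range (n + 1)).all fun m => (upto n).all fun q =>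
    eqb q p || !(isPre q p || isPre p q) || !(G (α.take m) q).isSome

theorem unblocked_true {G : Str → Str → Option Str} {α p : Str} {n : ℕ} :
    unblocked G α p n = true ↔ p.length ≤ n ∧ ∀ m ≤ n, ∀ q : Str, q.length ≤ n →
      (q <+: p ∨ p <+: q) → ∀ z, G (α.take m) q = some z → q = p := by
  unfold unblocked
  rw [Bool.and_eq_true, leb_true, List.all_eq_true]
  refine and_congr_right fun _ => ⟨fun h m hm q hq hc z hz => ?_, fun h m hm => ?_⟩
  · have h1 := h m (List.mem_range.2 (by omega))
    rw [List.all_eq_true] at h1
    have h2 := h1 q (mem_upto.2 hq)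
    have h3 : (isPre q p || isPre p q) = true := by
      rw [Bool.or_eq_true, isPre_true, isPre_true]; exact hc
    rw [h3, hz] at h2
    simpa using h2
  · rw [List.all_eq_true]
    intro q hq
    have hm' : m ≤ n := by have := List.mem_range.1 hm; omega
    cases h3 : (isPre q p || isPre p q)
    · simp
    · cases hz : G (α.take m) q with
      | none => simp
      | some z =>
        rw [Bool.or_eq_true, isPre_true, isPre_true] at h3
        have := h m hm' q (mem_upto.1 hq) h3 z hz
        simp [this]

/-- One stage of the forced machine. -/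
def fstep (G : Str → Str → Option Str) (α p : Str) (n : ℕ) : Option Str :=
  cond (unblocked G α p n) (G (α.take n) p) none

theorem fstep_some {G : Str → Str → Option Str} {α p y : Str} {n : ℕ} :
    fstep G α p n = some y ↔ unblocked G α p n = true ∧ G (α.take n) p = some y := by
  unfold fstep
  cases unblocked G α p n <;> simp

/-- A clocked function made monotone and prefix-free by force. -/
def force (G : Str → Str → Option Str) (α p : Str) : Option Str :=
  (List.range (α.length + 1)).findSome? (fstep G α p)

theorem take_of_isPrefix {α α' : Str} (h : α <+: α') {m : ℕ} (hm : m ≤ α.length) :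
    α'.take m = α.take m := by
  obtain ⟨t, rfl⟩ := h
  rw [List.take_append_of_le_length hm]

theorem fstep_congr (G : Str → Str → Option Str) {α α' : Str} (h : α <+: α') (p : Str) {n : ℕ}
    (hn : n ≤ α.length) : fstep G α' p n = fstep G α p n := by
  have : unblocked G α' p n = unblocked G α p n := by
    rw [Bool.eq_iff_iff, unblocked_true, unblocked_true]
    refine and_congr_right fun _ => forall_congr' fun m => forall_congr' fun hm => ?_
    rw [take_of_isPrefix h (hm.trans hn)]
  unfold fstep
  rw [this, take_of_isPrefix h hn]

theorem findSome?_congr' {β γ : Type*} {f g : β → Option γ} {L : List β}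
    (h : ∀ b ∈ L, f b = g b) : L.findSome? f = L.findSome? g := by
  induction L with
  | nil => rfl
  | cons b L ih =>
    rw [List.findSome?_cons, List.findSome?_cons, h b (by simp),
      ih fun c hc => h c (by simp [hc])]

theorem force_mono (G : Str → Str → Option Str) {α α' p y : Str} (h : α <+: α')
    (hy : force G α p = some y) : force G α' p = some y := by
  unfold force at hy ⊢
  obtain ⟨k, hk⟩ := Nat.exists_eq_add_of_le h.length_le
  have e : α'.length + 1 = (α.length + 1) + k := by omega
  rw [e, List.range_add, List.findSome?_append,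
    findSome?_congr' (g := fstep G α p) fun n hn =>
      fstep_congr G h p (by have := List.mem_range.1 hn; omega), hy]
  rfl

theorem force_some {G : Str → Str → Option Str} {α p y : Str} (hy : force G α p = some y) :
    ∃ n ≤ α.length, unblocked G α p n = true ∧ G (α.take n) p = some y := by
  obtain ⟨n, hn, h⟩ := List.exists_of_findSome?_eq_some hy
  exact ⟨n, by have := List.mem_range.1 hn; omega, fstep_some.1 h⟩

theorem force_free (G : Str → Str → Option Str) {α p q y z : Str} (hy : force G α p = some y)
    (hz : force G α q = some z) (h : p <+: q) : p = q := by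
  obtain ⟨n, -, h1, h2⟩ := force_some hy
  obtain ⟨n', -, h3, h4⟩ := force_some hz
  rw [unblocked_true] at h1 h3
  rcases le_total n n' with c | c
  · exact h3.2 n c p (h1.1.trans c) (Or.inl h) y h2
  · exact (h1.2 n' c q (h3.1.trans c) (Or.inr h) z h4).symm

theorem force_compl {G : Str → Str → Option Str}
    (hm : ∀ α α' p y, α <+: α' → G α p = some y → G α' p = some y)
    (hf : ∀ α p q y z, G α p = some y → G α q = some z → p <+: q → p = q)
    {α p y : Str} (hl : p.length ≤ α.length) (hy : G α p = some y) : force G α p = some y := by
  have h1 : fstep G α p α.length = some y := by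
    rw [fstep_some, unblocked_true, List.take_length]
    refine ⟨⟨hl, fun m _ q _ hc z hz => ?_⟩, hy⟩
    have hz' := hm _ _ _ _ (List.take_prefix m α) hz
    rcases hc with c | c
    · exact hf _ _ _ _ _ hz' hy c
    · exact (hf _ _ _ _ _ hy hz' c).symm
  have h2 : (force G α p).isSome := by
    unfold force
    rw [List.findSome?_isSome_iff]
    exact ⟨α.length, by simp, by simp [h1]⟩
  obtain ⟨y', hy'⟩ := Option.isSome_iff_exists.1 h2
  obtain ⟨n, -, -, h3⟩ := force_some hy'
  have h4 := hm _ _ _ _ (List.take_prefix n α) h3
  rw [hy', ← h4, hy]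

/-- The position of the first `true`. -/
def headPos (x : Str) : Option ℕ := (List.range x.length).find? fun i => x.getD i false

theorem headPos_lt {x : Str} {e : ℕ} (h : headPos x = some e) : e < x.length :=
  List.mem_range.1 (List.mem_of_find?_eq_some h)

theorem find?_congr' {β : Type*} {f g : β → Bool} {L : List β}
    (h : ∀ b ∈ L, f b = g b) : L.find? f = L.find? g := by
  induction L with
  | nil => rfl
  | cons b L ih =>
    rw [List.find?_cons, List.find?_cons, h b (by simp), ih fun c hc => h c (by simp [hc])]

theorem headPos_append {x : Str} {e : ℕ} (h : headPos x = some e) (t : Str) :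
    headPos (x ++ t) = some e := by
  unfold headPos at h ⊢
  rw [List.length_append, List.range_add, List.find?_append,
    find?_congr' (g := fun i => x.getD i false) fun i hi => by
      rw [List.getD_append _ _ _ _ (List.mem_range.1 hi)], h]
  rfl

theorem headPos_code (e : ℕ) : headPos (List.replicate e false ++ [true]) = some e := by
  unfold headPos
  rw [List.length_append, List.length_replicate, List.length_singleton, List.range_succ,
    List.find?_append]
  have h1 : (List.range e).find? (fun i => (List.replicate e false ++ [true]).getD i false) =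
      Option.none := by
    rw [List.find?_eq_none]
    intro i hi
    have hi' := List.mem_range.1 hi
    rw [List.getD_append _ _ _ _ (by simpa using hi')]
    simp [List.getD_eq_getElem?_getD, hi']
  rw [h1]
  simp [List.getD_eq_getElem?_getD]

/-- The universal clocked machine. -/
def univH (α x : Str) : Option Str :=
  (headPos x).bind fun e =>
    force (simH (Denumerable.ofNat Code e.unpair.1) (Denumerable.ofNat Code e.unpair.2)) α
      (x.drop (e + 1))

theorem primrec_univH : Primrec fun z : Str × Str => univH z.1 z.2 := by
  unfold univH headPos force fstep unblocked simH trial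
  fun_prop

theorem exists_universal : ∃ U : Machine, Universal U := by
  refine ⟨mkMachine univH primrec_univH.to_comp ?_ ?_, ?_⟩
  · intro α α' p y hα h
    unfold univH at h ⊢
    rw [Option.bind_eq_some_iff] at h ⊢
    obtain ⟨e, h1, h2⟩ := h
    exact ⟨e, h1, force_mono _ hα h2⟩
  · intro α p q y z hp hq hpq
    obtain ⟨t, rfl⟩ := hpq
    unfold univH at hp hq
    rw [Option.bind_eq_some_iff] at hp
    obtain ⟨e, h1, h2⟩ := hp
    rw [headPos_append h1, Option.bind_some,
      List.drop_append_of_le_length (headPos_lt h1)] at hq
    have := force_free _ h2 hq (List.prefix_append _ _)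
    have h7 : t = [] := by simpa using this
    simp [h7]
  · intro M
    obtain ⟨cu, cf, hm, hf, hl, g, hg, -, hs⟩ := exists_sim M
    refine ⟨List.replicate (Nat.pair (encode cu) (encode cf)) false ++ [true], g, hg,
      fun A p s y h => ?_⟩
    have h1 := hs A p s y h
    show univH _ _ = some y
    unfold univH
    rw [headPos_append (headPos_code _), Option.bind_some, Nat.unpair_pair,
      Denumerable.ofNat_encode, Denumerable.ofNat_encode, List.drop_left' (by simp)]
    exact force_compl hm hf (hl _ _ _ h1) h1

end Pool.Agent.P.MP_8f2c45_lc
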