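import Pool.Agent.P.MP_8f2c45_lc.GameCore
import Pool.Agent.P.MP_8f2c45_lc.Coding
import Pool.Agent.P.MP_8f2c45_lc.Tree

/-!
The betting game: the oracle machine that places the bets, and the main lemma.
-/

namespace Pool.Agent.P.MP_8f2c45_lc

open Pool.Agent.Lib.Comp Nat.Partrec

/-- The code of the cone function of level `R`. -/
def cW (R : ℕ) : Code := Denumerable.ofNat Code R.unpair.1

/-- The code of the delay function of level `R`. -/
def cF (R : ℕ) : Code := Denumerable.ofNat Code R.unpair.2.unpair.1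

/-- The gain of level `R`. -/
def kk (R : ℕ) : ℕ := R.unpair.2.unpair.2

/-- The cone function at stage `s`. -/
def wS (R s : ℕ) (β : Str) : Str := (ev Str (cW R) s β).getD []

/-- Everything needed for the next tick has converged. -/
def ready (R : ℕ) (tl : List ℕ) (s : ℕ) : Bool :=
  ((upto tl.length).all fun β => (ev Str (cW R) s β).elim false fun v => leb v.length s) &&
    (tl[tl.length - 1]?).elim true fun s0 =>
      (ev ℕ (cF R) s (Nat.pair R s0)).elim false fun x => leb x s

/-- Padding with zeros. -/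
def pad (v : Str) (n : ℕ) : Str := v ++ List.replicate (n - v.length) false

theorem length_pad {v : Str} {n : ℕ} (h : v.length ≤ n) : (pad v n).length = n := by
  simp [pad]; omega

section prim
variable {α : Type*} [Primcodable α]

@[fun_prop] theorem pr_kk {R : α → ℕ} (hR : Primrec R) : Primrec fun a => kk (R a) := by
  unfold kk
  fun_prop

@[fun_prop] theorem pr_wS {R s : α → ℕ} {β : α → Str} (hR : Primrec R) (hs : Primrec s)
    (hβ : Primrec β) : Primrec fun a => wS (R a) (s a) (β a) := by
  unfold wS cW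
  fun_prop

@[fun_prop] theorem pr_ready {R s : α → ℕ} {tl : α → List ℕ} (hR : Primrec R) (htl : Primrec tl)
    (hs : Primrec s) : Primrec fun a => ready (R a) (tl a) (s a) := by
  unfold ready cW cF
  fun_prop

@[fun_prop] theorem pr_pad {v : α → Str} {n : α → ℕ} (hv : Primrec v) (hn : Primrec n) :
    Primrec fun a => pad (v a) (n a) := by
  unfold pad
  fun_prop

end prim

namespace Setting

variable (S : Setting)

/-- The level described by the program `q`. -/
def lev (q : Str) (s : ℕ) : Option ℕ := (S.H0 s q).map fun y => y.length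

/-- The times of the ticks before stage `s`. -/
def tk (q : Str) (s : ℕ) : List ℕ :=
  Nat.rec (motive := fun _ => List ℕ) []
    (fun s tl => cond ((S.lev q s).elim false fun R => ready R tl s) (tl ++ [s]) tl) s

/-- Stage `s` is a tick. -/
def tick (q : Str) (s : ℕ) : Bool := (S.lev q s).elim false fun R => ready R (S.tk q s) s

/-- The covering predicate for a cone function and a sequence of times. -/
def cov (w : Str → Str) (tm : ℕ → ℕ) (κ : ℕ) : Cov := fun z =>
  !wle (S.ms (tm z.1) fun y => isPre (w z.2.1) y) [κ + z.2.2]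

/-- The covering predicate as computed at stage `s`. -/
def covS (q : Str) (R s : ℕ) : Cov :=
  S.cov (wS R s) (fun ρ => (S.tk q s ++ [s]).getD ρ 0) (kk R + q.length)

/-- The requests of a node that acts. -/
def bet (R κ r s : ℕ) (v : Str) : List Req :=
  (r, pad v (Nat.pair R s)) ::
    (S.progs s fun y => isPre v y).map fun p => (p.length - κ, (S.H0 s p).getD [])

/-- The requests issued at a tick. -/
def act (R κ : ℕ) (cv : Cov) (ρ j : ℕ) (α : Str) : List Req :=
  cond (leb (ρ - (un κ cv j).1) (rem (un κ cv j) (α.take j)) && !cv (ρ, α.take j, (un κ cv j).2.1))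
    (S.bet R κ (un κ cv j).2.1 α.length (wS R α.length (α.take j))) []

/-- The requests issued by the process of the program `q`. -/
def gameBatch (q α : Str) : List Req :=
  (S.lev q α.length).elim [] fun R => cond (S.tick q α.length)
    (S.act R (kk R + q.length) (S.covS q R α.length) (S.tk q α.length).length
      (loc (kk R + q.length) (S.covS q R α.length) (S.tk q α.length).length) α) []

section prim
variable {α : Type*} [Primcodable α]

@[fun_prop] theorem pr_lev {q : α → Str} {s : α → ℕ} (hq : Primrec q) (hs : Primrec s) :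
    Primrec fun a => S.lev (q a) (s a) := by
  unfold lev
  fun_prop

@[fun_prop] theorem pr_tk {q : α → Str} {s : α → ℕ} (hq : Primrec q) (hs : Primrec s) :
    Primrec fun a => S.tk (q a) (s a) := by
  unfold tk
  fun_prop

@[fun_prop] theorem pr_tick {q : α → Str} {s : α → ℕ} (hq : Primrec q) (hs : Primrec s) :
    Primrec fun a => S.tick (q a) (s a) := by
  unfold tick
  fun_prop

@[fun_prop] theorem pr_covS {q : α → Str} {R s : α → ℕ} {z : α → ℕ × Str × ℕ} (hq : Primrec q)
    (hR : Primrec R) (hs : Primrec s) (hz : Primrec z) :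
    Primrec fun a => S.covS (q a) (R a) (s a) (z a) := by
  unfold covS cov
  fun_prop

@[fun_prop] theorem pr_bet {R κ r s : α → ℕ} {v : α → Str} (hR : Primrec R) (hκ : Primrec κ)
    (hr : Primrec r) (hs : Primrec s) (hv : Primrec v) :
    Primrec fun a => S.bet (R a) (κ a) (r a) (s a) (v a) := by
  unfold bet
  fun_prop

@[fun_prop] theorem pr_act {R κ ρ j : α → ℕ} {cv : α → Cov} {β : α → Str} (hR : Primrec R)
    (hκ : Primrec κ) (hcv : Primrec fun z : α × (ℕ × Str × ℕ) => cv z.1 z.2) (hρ : Primrec ρ)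
    (hj : Primrec j) (hβ : Primrec β) :
    Primrec fun a => S.act (R a) (κ a) (cv a) (ρ a) (j a) (β a) := by
  unfold act
  fun_prop

theorem pr_gameBatch : Primrec fun x : Str × Str => S.gameBatch x.1 x.2 := by
  unfold gameBatch
  fun_prop

end prim

variable {S}

theorem tk_succ (q : Str) (s : ℕ) :
    S.tk q (s + 1) = cond (S.tick q s) (S.tk q s ++ [s]) (S.tk q s) := rfl

theorem tk_eq (q : Str) (s : ℕ) : S.tk q s =
    (List.range (Nat.count (fun s => S.tick q s = true) s)).map
      (Nat.nth fun s => S.tick q s = true) := by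
  induction s with
  | zero => rfl
  | succ s ih =>
    rw [tk_succ, Nat.count_succ]
    cases h : S.tick q s
    · simpa using ih
    · rw [cond_true, if_pos rfl, List.range_succ, List.map_append, ← ih, List.map_singleton,
        Nat.nth_count (p := fun s => S.tick q s = true) h]

theorem cov_true {w : Str → Str} {tm : ℕ → ℕ} {κ ρ r : ℕ} {β : Str} :
    S.cov w tm κ (ρ, β, r) = true ↔ wt (κ + r) < W (S.ms (tm ρ) fun y => isPre (w β) y) := by
  simp [cov]

theorem cov_false {w : Str → Str} {tm : ℕ → ℕ} {κ ρ r : ℕ} {β : Str} :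
    S.cov w tm κ (ρ, β, r) = false ↔ W (S.ms (tm ρ) fun y => isPre (w β) y) ≤ wt (κ + r) := by
  rw [← not_lt, ← cov_true, Bool.not_eq_true]

theorem WR_bet {R κ r s : ℕ} {v : Str} (h : W (S.ms s fun y => isPre v y) ≤ wt (κ + r)) :
    WR (S.bet R κ r s v) ≤ 2 * wt r := by
  have h1 : WR ((S.progs s fun y => isPre v y).map fun p => (p.length - κ, (S.H0 s p).getD [])) =
      W (S.ms s fun y => isPre v y) * 2 ^ κ := by
    have h2 : ∀ p ∈ S.progs s fun y => isPre v y, κ ≤ p.length := by
      intro p hp
      have := (wt_le_W (L := S.ms s fun y => isPre v y) (List.mem_map.2 ⟨p, hp, rfl⟩)).trans h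
      rw [wt_le_wt] at this
      omega
    unfold ms
    generalize S.progs s (fun y => isPre v y) = L at h2
    induction L with
    | nil => simp
    | cons p L ih =>
      simp only [List.map_cons, WR_cons, W_cons, add_mul]
      rw [ih (fun p hp => h2 p (by simp [hp])), wt_sub (h2 p (by simp))]
  rw [bet, WR_cons, h1]
  have h3 : wt (κ + r) * 2 ^ κ = wt r := by
    rw [wt_add, mul_comm (wt κ), mul_assoc, wt_mul_pow, mul_one]
  have : (0 : ℝ) < 2 ^ κ := by positivity
  simp only
  nlinarith

/-- The main lemma on the game. -/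
theorem game (S : Setting) {A : ℕ → Bool} (hA : ¬ Computable A) {cl : ℕ}
    (hlow : ∀ y, S.KH emptyOracle y ≤ S.KH A y + cl) :
    ∃ (C : ℕ) (t0 : ℕ → ℕ), Computable t0 ∧ Monotone t0 ∧
      ∀ (w : Str → Str) (F : ℕ → ℕ) (k : ℕ), Computable w → Computable F →
        (∀ β β' y, w β <+: y → w β' <+: y → β = β') →
        ∃ (β Y : Str) (s : ℕ), w β <+: Y ∧ F Y.length ≤ s ∧
          (∃ x, S.H (pre A (t0 Y.length)) x = some Y ∧ x.length ≤ S.KH A Y + C) ∧
          ∀ p y, S.H0 s p = some y → w β <+: y → S.KH emptyOracle y + k ≤ p.length + C := by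
  classical
  obtain ⟨c1, h, hh, hhm, hKC⟩ := S.FKCb S.pr_gameBatch.to_comp 3
  obtain ⟨cc, hcc⟩ := S.coding (cls := fun y => y.length.unpair.1) (by fun_prop)
  refine ⟨c1 + cc + cl, fun n => h (2 * n), hh.comp (Primrec.to_comp (by fun_prop)),
    fun a b hab => hhm (by omega), fun w F k hw hF hinc => ?_⟩
  obtain ⟨cw, sw, tw⟩ := exists_ev hw
  obtain ⟨cf, sf, tf⟩ := exists_ev hF
  obtain ⟨R, hR⟩ : ∃ R, R = Nat.pair (Encodable.encode cw) (Nat.pair (Encodable.encode cf) k) :=
    ⟨_, rfl⟩
  have hcW : cW R = cw := by simp [cW, hR]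
  have hcF : cF R = cf := by simp [cF, hR]
  have hkk : kk R = k := by simp [kk, hR]
  obtain ⟨q, n0, hq, hq0⟩ := S.KH0_spec (List.replicate R false)
  have hlev : ∀ s R', S.lev q s = some R' → R' = R ∧ (S.H0 s q).isSome := by
    intro s R' h
    unfold lev at h
    obtain ⟨y, h1, rfl⟩ := Option.map_eq_some_iff.1 h
    exact ⟨by rw [H0_unique h1 hq0]; simp, by simp [h1]⟩
  have htick : ∀ s, S.tick q s = true → S.lev q s = some R ∧ ready R (S.tk q s) s = true := by
    intro s h
    unfold tick at h
    cases h1 : S.lev q s with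
    | none => simp [h1] at h
    | some R' =>
      obtain rfl := (hlev _ _ h1).1
      exact ⟨rfl, by simpa [h1] using h⟩
  have hinf : {s | S.tick q s = true}.Infinite := by
    refine Set.infinite_of_forall_exists_gt fun a => ?_
    by_contra hc
    push Not at hc
    have h1 : ∀ i, S.tk q (a + 1 + i) = S.tk q (a + 1) := by
      intro i
      induction i with
      | zero => rfl
      | succ i ih =>
        rw [← add_assoc, tk_succ, ih]
        cases h : S.tick q (a + 1 + i)
        · rfl
        · have := hc _ h; omega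
    have h2 : ∀ᶠ s in Filter.atTop, ready R (S.tk q (a + 1)) s = true := by
      simp only [ready, Bool.and_eq_true, List.all_eq_true, hcW, hcF]
      refine Filter.Eventually.and ?_ ?_
      · refine (Filter.eventually_all_finite (I := {β | β ∈ upto (S.tk q (a + 1)).length})
          (List.finite_toSet _)).2 fun β _ => ?_
        obtain ⟨N, hN⟩ := tw β
        filter_upwards [Filter.eventually_ge_atTop N, Filter.eventually_ge_atTop (w β).length]
          with s h1 h2
        rw [ev_mono h1 hN]
        simpa using h2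
      · cases (S.tk q (a + 1))[(S.tk q (a + 1)).length - 1]? with
        | none => simp
        | some s0 =>
          obtain ⟨N, hN⟩ := tf (Nat.pair R s0)
          filter_upwards [Filter.eventually_ge_atTop N,
            Filter.eventually_ge_atTop (F (Nat.pair R s0))] with s h1 h2
          rw [Option.elim_some, ev_mono h1 hN]
          simpa using h2
    obtain ⟨s, h3, h4, h5⟩ := (h2.and ((Filter.eventually_ge_atTop (a + 1)).and
      (Filter.eventually_ge_atTop n0))).exists
    have h6 : S.tick q s = true := by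
      obtain ⟨i, rfl⟩ := Nat.exists_eq_add_of_le h4
      unfold tick lev
      rw [H0_mono h5 hq0, h1]
      simpa using h3
    have := hc _ h6
    omega
  obtain ⟨tm, htm⟩ : ∃ tm, tm = Nat.nth fun s => S.tick q s = true := ⟨_, rfl⟩
  have tm_mono : StrictMono tm := htm ▸ Nat.nth_strictMono hinf
  have tm_tick : ∀ ρ, S.tick q (tm ρ) = true := fun ρ => htm ▸ Nat.nth_mem_of_infinite hinf ρ
  have tk_tm : ∀ ρ, S.tk q (tm ρ) = (List.range ρ).map tm := by
    intro ρ
    rw [tk_eq, htm, Nat.count_nth_of_infinite hinf]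
  have tick_ex : ∀ s, S.tick q s = true → ∃ ρ, tm ρ = s := fun s hs =>
    ⟨_, htm ▸ Nat.nth_count (p := fun s => S.tick q s = true) hs⟩
  have hwS : ∀ ρ β, β.length ≤ ρ → wS R (tm ρ) β = w β ∧ (w β).length ≤ tm ρ := by
    intro ρ β hβ
    have h1 := (htick _ (tm_tick ρ)).2
    simp only [ready, Bool.and_eq_true, List.all_eq_true, hcW, tk_tm] at h1
    have h2 := h1.1 β (by simpa using hβ)
    unfold wS
    rw [hcW]
    cases h3 : ev Str cw (tm ρ) β with
    | none => simp [h3] at h2
    | some v =>
      obtain rfl := sw _ _ _ h3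
      exact ⟨rfl, by simpa [h3] using h2⟩
  have hFt : ∀ ρ, F (Nat.pair R (tm ρ)) ≤ tm (ρ + 1) := by
    intro ρ
    have h1 := (htick _ (tm_tick (ρ + 1))).2
    simp only [ready, Bool.and_eq_true, hcF, tk_tm] at h1
    have h2 := h1.2
    simp only [List.length_map, List.length_range, add_tsub_cancel_right, List.getElem?_map,
      List.getElem?_range (Nat.lt_succ_self ρ), Option.map_some, Option.elim_some] at h2
    cases h3 : ev ℕ cf (tm (ρ + 1)) (Nat.pair R (tm ρ)) with
    | none => simp [h3] at h2
    | some v =>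
      obtain rfl := sf _ _ _ h3
      simpa [h3] using h2
  obtain ⟨κ, hκ⟩ : ∃ κ, κ = k + q.length := ⟨_, rfl⟩
  obtain ⟨cv, hcv⟩ : ∃ cv, cv = S.cov w tm κ := ⟨_, rfl⟩
  have agree : ∀ P ρ β r, ρ ≤ P → β.length ≤ P → cv (ρ, β, r) = S.covS q R (tm P) (ρ, β, r) := by
    intro P ρ β r h1 h2
    have e : (S.tk q (tm P) ++ [tm P]).getD ρ 0 = tm ρ := by
      rw [tk_tm, ← List.map_singleton, ← List.map_append, ← List.range_succ,
        List.getD_eq_getElem?_getD, List.getElem?_map, List.getElem?_range (by omega)]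
      rfl
    simp only [hcv, covS, cov, e, (hwS P β h2).1, hkk, hκ]
  have hm : ∀ ρ ρ' β r, ρ ≤ ρ' → cv (ρ, β, r) = true → cv (ρ', β, r) = true := by
    intro ρ ρ' β r h1 h2
    rw [hcv, cov_true] at h2 ⊢
    exact h2.trans_le (W_ms_mono (tm_mono.monotone h1) fun _ h => h)
  have hs : ∀ (I : Finset Str) (ρ r : Str → ℕ), (∀ β ∈ I, cv (ρ β, β, r β) = true) →
      ∑ β ∈ I, wt (κ + r β) ≤ 1 := by
    intro I ρ r h1
    refine le_trans (Finset.sum_le_sum fun β hβ => ?_) (sum_W_ms_le_one (S := S) I
      (fun β => tm (ρ β)) (fun β y => isPre (w β) y) fun a _ b _ y h1 h2 =>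
        hinc a b y (isPre_true.1 h1) (isPre_true.1 h2))
    have := h1 β hβ
    rw [hcv, cov_true] at this
    exact this.le
  have hbatch : ∀ j i, i ≤ 2 ^ (un κ cv j).2.1 →
      S.gameBatch q (pre A (tm ((un κ cv j).1 + i))) = cond (acts κ cv A j i)
        (S.bet R κ (un κ cv j).2.1 (tm ((un κ cv j).1 + i)) (w (pre A j))) [] := by
    intro j i hi
    have h1 := le_un_fst (κ := κ) (cv := cv) j
    have h2 : (un κ cv j).1 + i ≤ tm ((un κ cv j).1 + i) := tm_mono.le_apply
    unfold gameBatch
    rw [length_pre, (htick _ (tm_tick _)).1, Option.elim_some, tm_tick, cond_true, tk_tm,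
      List.length_map, List.length_range, hkk, ← hκ, loc_eq hi (agree _)]
    unfold act acts
    rw [← un_congr (agree _) (by omega), take_pre A (by omega), ← agree _ _ _ _ le_rfl
      (by simp; omega), length_pre, (hwS _ _ (by simp; omega)).1, Nat.add_sub_cancel_left]
  have hcost : ∀ n, ∑ s ∈ Finset.range (n + 1), WR (S.gameBatch q (pre A s)) ≤ 2 ^ 3 := by
    intro n
    have h1 := sum_cost_le hm hs A (fun ρ => WR (S.gameBatch q (pre A (tm ρ))))
      (fun _ => WR_nonneg _) (by
        intro j i hi
        rw [hbatch j i hi]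
        cases ha : acts κ cv A j i
        · simp
        · simp only [acts, Bool.and_eq_true, Bool.not_eq_true'] at ha
          have := ha.2
          rw [hcv, cov_false, ← hcv] at this
          exact WR_bet this) (n + 1)
    rw [← Finset.sum_image (f := fun s => WR (S.gameBatch q (pre A s)))
      (fun a _ b _ hab => tm_mono.injective hab)] at h1
    rw [← Finset.sum_filter_add_sum_filter_not _ (fun s => S.tick q s = true)]
    have h2 : ∑ s ∈ (Finset.range (n + 1)).filter (fun s => ¬ S.tick q s = true),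
        WR (S.gameBatch q (pre A s)) = 0 := by
      refine Finset.sum_eq_zero fun s hs => ?_
      have h3 : S.tick q s = false := by simpa using (Finset.mem_filter.1 hs).2
      unfold gameBatch
      rw [length_pre, h3]
      cases S.lev q s <;> rfl
    have h3 : ∑ s ∈ (Finset.range (n + 1)).filter (fun s => S.tick q s = true),
        WR (S.gameBatch q (pre A s)) ≤
        ∑ s ∈ (Finset.range (n + 1)).image tm, WR (S.gameBatch q (pre A s)) := by
      refine Finset.sum_le_sum_of_subset_of_nonneg (fun s hs => ?_) fun _ _ _ => WR_nonneg _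
      obtain ⟨h4, h5⟩ := Finset.mem_filter.1 hs
      obtain ⟨ρ, rfl⟩ := tick_ex s h5
      refine Finset.mem_image_of_mem _ (Finset.mem_range.2 ?_)
      have : ρ ≤ tm ρ := tm_mono.le_apply
      have := Finset.mem_range.1 h4
      omega
    linarith
  have hdies : ∃ J, rem (un κ cv J) (pre A J) = 0 := by
    by_contra hc
    push Not at hc
    apply hA
    obtain ⟨g, hg, hP⟩ := exists_modulus (P := fun j s => S.tick q s &&
      leb (un κ (S.covS q R s) (j + 1)).1 (S.tk q s).length) (Primrec.to_comp (by fun_prop))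
      (fun j => ⟨tm (un κ cv (j + 1)).1, by
        rw [tm_tick, ← un_congr (agree _) (Nat.le_succ _), tk_tm]
        simp⟩)
    have hG : Primrec fun x : ℕ × ℕ =>
        alive (S.covS q R x.2) x.1 (un κ (S.covS q R x.2) x.1) := by fun_prop
    have hL : Computable fun j => alive cv j (un κ cv j) := by
      refine (Computable₂.comp (f := fun j s => alive (S.covS q R s) j (un κ (S.covS q R s) j))
        hG.to_comp Computable.id hg).of_eq fun j => ?_
      have h1 := hP j
      simp only [Bool.and_eq_true, leb_true] at h1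
      obtain ⟨P, hP'⟩ := tick_ex _ h1.1
      have h2 := h1.2
      rw [← hP', tk_tm, List.length_map, List.length_range, un_succ_fst] at h2
      have ag : ∀ ρ β r, ρ ≤ P → β.length ≤ P →
          S.covS q R (tm P) (ρ, β, r) = cv (ρ, β, r) := fun ρ β r a b => (agree P ρ β r a b).symm
      have h3 := le_un_fst (κ := κ) (cv := S.covS q R (tm P)) j
      have h0 : 0 < 2 ^ (un κ (S.covS q R (tm P)) j).2.1 := by positivity
      simp only [id, ← hP']
      rw [alive_congr ag (by omega) (by omega), un_congr ag (by omega)]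
    refine computable_of_narrow _ hL (fun j σ hσ => (mem_alive.1 hσ).1) (fun j σ hσ => ?_) (2 ^ κ)
      (often_cheap hm hs) A fun j => ?_
    · obtain ⟨h1, h2⟩ := mem_alive.1 hσ
      rw [rem_succ h1] at h2
      refine mem_alive.2 ⟨by simp; omega, ?_⟩
      by_contra h3
      rw [Nat.sub_eq_zero_of_le (not_lt.1 h3)] at h2
      simp at h2
    · have h2 := hc (j + 1)
      rw [rem_succ (by simp), take_pre A (Nat.le_succ j)] at h2
      refine mem_alive.2 ⟨by simp, ?_⟩
      by_contra h3
      rw [Nat.sub_eq_zero_of_le (not_lt.1 h3)] at h2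
      simp at h2
  obtain ⟨J, hJ⟩ := hdies
  have hsum := sum_wins (κ := κ) (cv := cv) A J
  rw [hJ, Nat.cast_zero, zero_mul, sub_zero] at hsum
  -- the winning bets
  let I : Finset (Σ _ : ℕ, ℕ) := (Finset.range J).sigma fun j => Finset.range (wins κ cv A j)
  let Y : (Σ _ : ℕ, ℕ) → Str := fun a =>
    pad (w (pre A a.1)) (Nat.pair R (tm ((un κ cv a.1).1 + a.2)))
  have hI : ∀ a ∈ I, a.2 < rem (un κ cv a.1) (pre A a.1) ∧ a.2 < nc cv (un κ cv a.1) (pre A a.1) ∧
      a.2 < 2 ^ (un κ cv a.1).2.1 := by
    intro a ha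
    have h1 := Finset.mem_range.1 (Finset.mem_sigma.1 ha).2
    have h2 := rem_le (κ := κ) (cv := cv) (length_pre A a.1)
    unfold wins at h1
    omega
  have hYlen : ∀ a, (Y a).length = Nat.pair R (tm ((un κ cv a.1).1 + a.2)) := by
    intro a
    have h1 := le_un_fst (κ := κ) (cv := cv) a.1
    exact length_pad (((hwS ((un κ cv a.1).1 + a.2) _ (by simp; omega)).2).trans
      (Nat.right_le_pair _ _))
  have hYinj : Set.InjOn Y I := by
    intro a ha b hb hab
    have h1 := congrArg List.length hab
    rw [hYlen, hYlen, Nat.pair_eq_pair] at h1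
    have h2 := tm_mono.injective h1.2
    have h3 := loc_eq (κ := κ) (cv := cv) (cv' := cv) (hI a ha).2.2.le fun _ _ _ _ _ => rfl
    have h4 := loc_eq (κ := κ) (cv := cv) (cv' := cv) (hI b hb).2.2.le fun _ _ _ _ _ => rfl
    rw [h2, h4] at h3
    obtain ⟨a1, a2⟩ := a
    obtain ⟨b1, b2⟩ := b
    simp only at h2 h3
    subst h3
    obtain rfl : a2 = b2 := by omega
    rfl
  obtain ⟨N, hN⟩ := sum_KH_le (S := S) (I.image Y) (fun y => eqb y.length.unpair.1 R) (by
    intro y hy
    obtain ⟨a, -, rfl⟩ := Finset.mem_image.1 hy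
    rw [hYlen]; simp)
  rw [Finset.sum_image hYinj] at hN
  have hsumI : ∑ a ∈ I, wt (un κ cv a.1).2.1 = 1 := by
    rw [← hsum, Finset.sum_sigma]
    simp
  have hne : I.Nonempty := by
    by_contra h
    rw [Finset.not_nonempty_iff_eq_empty.1 h] at hsumI
    simp at hsumI
  obtain ⟨a, ha, hle⟩ := Finset.exists_le_of_sum_le (f := fun a => wt (S.KH emptyOracle (Y a)))
    (g := fun a => 2 ^ cc * wt q.length * wt (un κ cv a.1).2.1) hne (by
      rw [← Finset.mul_sum, hsumI, mul_one, hq]
      exact hN.trans (hcc R N))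
  have hK : q.length + (un κ cv a.1).2.1 ≤ S.KH emptyOracle (Y a) + cc := by
    rw [← wt_le_wt, wt_add, wt_add]
    have h1 := wt_mul_pow cc
    have h2 := wt_pos cc
    calc wt (S.KH emptyOracle (Y a)) * wt cc
        ≤ 2 ^ cc * wt q.length * wt (un κ cv a.1).2.1 * wt cc :=
          mul_le_mul_of_nonneg_right hle h2.le
      _ = (wt cc * 2 ^ cc) * (wt q.length * wt (un κ cv a.1).2.1) := by ring
      _ = _ := by rw [h1, one_mul]
  obtain ⟨h1, h2, h3⟩ := hI a ha
  have hnc := not_cv_of_lt_nc hm h2
  have hact1 : acts κ cv A a.1 (a.2 + 1) = true := by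
    simp only [acts, Bool.and_eq_true, leb_true, Bool.not_eq_true']
    exact ⟨h1, hnc⟩
  have hact0 : acts κ cv A a.1 a.2 = true := by
    simp only [acts, Bool.and_eq_true, leb_true, Bool.not_eq_true']
    refine ⟨h1.le, ?_⟩
    by_contra hc
    rw [hm _ _ _ _ (Nat.le_succ _) (by simpa using hc)] at hnc
    exact absurd hnc (by simp)
  refine ⟨pre A a.1, Y a, tm ((un κ cv a.1).1 + a.2 + 1), List.prefix_append _ _,
    by rw [hYlen]; exact hFt _, ?_, fun p y hp hy => ?_⟩
  · obtain ⟨x, hx, hx'⟩ := hKC A (tm ((un κ cv a.1).1 + a.2)) q (un κ cv a.1).2.1 (Y a)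
      (hlev _ _ (htick _ (tm_tick _)).1).2
      (by rw [hbatch _ _ h3.le, hact0]; exact List.mem_cons_self) (hcost _)
    refine ⟨x, mono_pre (hhm ?_) hx', by have := hlow (Y a); omega⟩
    have e1 := un_r_le (κ := κ) (cv := cv) a.1
    have e2 := le_un_fst (κ := κ) (cv := cv) a.1
    have e3 : (un κ cv a.1).1 + a.2 ≤ tm ((un κ cv a.1).1 + a.2) := tm_mono.le_apply
    have e4 := Nat.right_le_pair R (tm ((un κ cv a.1).1 + a.2))
    rw [hYlen]
    omega
  · obtain ⟨x, hx, hx'⟩ := hKC A (tm ((un κ cv a.1).1 + (a.2 + 1))) q (p.length - κ) y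
      (hlev _ _ (htick _ (tm_tick _)).1).2
      (by
        rw [hbatch _ (a.2 + 1) h3, hact1]
        refine List.mem_cons_of_mem _ (List.mem_map.2 ⟨p, mem_progs.2 ⟨y, hp, by simpa⟩, ?_⟩)
        rw [← add_assoc, hp]; rfl) (hcost _)
    have e1 := KH_le hx'
    have e2 := hlow y
    have e3 := hnc
    rw [hcv, cov_false, ← hcv] at e3
    have e4 := wt_le_wt.1 ((wt_le_W_ms hp (f := fun y => isPre (w (pre A a.1)) y)
      (by simpa)).trans e3)
    omega

end Setting

end Pool.Agent.P.MP_8f2c45_lc
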