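import Pool.Agent.P.MP_8f2c45_lc.Basic

/-!
Association lists.
-/

namespace Pool.Agent.P.MP_8f2c45_lc

open Pool.Agent.Lib.Comp

/-- Looking up a key in an association list. -/
def lk {β γ : Type*} [DecidableEq β] (L : List (β × γ)) (b : β) : Option γ :=
  (L.find? fun e => eqb e.1 b).map fun e => e.2

@[fun_prop] theorem pr_lk {α β γ : Type*} [Primcodable α] [Primcodable β] [Primcodable γ]
    [DecidableEq β] {L : α → List (β × γ)} {b : α → β} (hL : Primrec L) (hb : Primrec b) :
    Primrec fun a => lk (L a) (b a) := by
  unfold lk
  fun_prop

theorem lk_map_self {β γ : Type*} [DecidableEq β] (f : β → γ) {L : List β} {b : β}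
    (h : b ∈ L) : lk (L.map fun x => (x, f x)) b = some (f b) := by
  unfold lk
  induction L with
  | nil => simp at h
  | cons a L ih =>
    rw [List.map_cons, List.find?_cons]
    by_cases hab : a = b
    · simp [hab, eqb]
    · have : eqb a b = false := by simpa using hab
      simp only [this]
      exact ih (by simpa [Ne.symm hab] using h)

end Pool.Agent.P.MP_8f2c45_lc
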