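import Pool.Agent.P.MP_8f2c45_lc.KC
import Pool.Agent.P.MP_8f2c45_lc.Look

/-!
The betting game: combinatorial part.
-/

namespace Pool.Agent.P.MP_8f2c45_lc

open Pool.Agent.Lib.Comp

/-- `cv (ρ, β, r)`: at tick `ρ` the cone of the node `β` is covered for the stake `2^{-r}`. -/
abbrev Cov := ℕ × Str × ℕ → Bool

/-- State at the beginning of a unit: first tick, exponent of the stake, remaining bets. -/
abbrev GS := ℕ × ℕ × List (Str × ℕ)

/-- Number of uncovered rounds in the unit. -/
def nc (cv : Cov) (x : GS) (β : Str) : ℕ :=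
  ((List.range (2 ^ x.2.1)).filter fun i => !cv (x.1 + i + 1, β, x.2.1)).length

/-- Remaining number of bets to win. -/
def rem (x : GS) (β : Str) : ℕ := (lk x.2.2 β).getD 0

/-- The nodes that are alive at the end of the unit. -/
def alive (cv : Cov) (j : ℕ) (x : GS) : List Str :=
  (strs j).filter fun β => ltb 0 (rem x β - nc cv x β)

/-- Few nodes survive. -/
def cheap (κ : ℕ) (cv : Cov) (j : ℕ) (x : GS) : Bool := ltb (alive cv j x).length (2 ^ κ)

/-- Passing to the next unit. -/
def gstep (κ : ℕ) (cv : Cov) (j : ℕ) (x : GS) : GS :=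
  (x.1 + 2 ^ x.2.1 + 1, x.2.1 + cond (cheap κ cv j x) 1 0,
    (strs (j + 1)).map fun β =>
      (β, cond (cheap κ cv j x) 2 1 * (rem x (β.take j) - nc cv x (β.take j))))

/-- The state at the beginning of unit `j`. -/
def un (κ : ℕ) (cv : Cov) (j : ℕ) : GS :=
  Nat.rec (motive := fun _ => GS) (0, 0, [([], 1)]) (fun j x => gstep κ cv j x) j

/-- The unit containing the tick `ρ`. -/
def loc (κ : ℕ) (cv : Cov) (ρ : ℕ) : ℕ :=
  ((List.range (ρ + 1)).find? fun j => leb ρ ((un κ cv j).1 + 2 ^ (un κ cv j).2.1)).getD 0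

section prim
variable {α : Type*} [Primcodable α]

@[fun_prop] theorem pr_nc {cv : α → Cov} {x : α → GS} {β : α → Str}
    (hcv : Primrec fun z : α × (ℕ × Str × ℕ) => cv z.1 z.2) (hx : Primrec x) (hβ : Primrec β) :
    Primrec fun a => nc (cv a) (x a) (β a) := by
  unfold nc
  fun_prop

@[fun_prop] theorem pr_rem {x : α → GS} {β : α → Str} (hx : Primrec x) (hβ : Primrec β) :
    Primrec fun a => rem (x a) (β a) := by
  unfold rem
  fun_prop

@[fun_prop] theorem pr_alive {cv : α → Cov} {j : α → ℕ} {x : α → GS}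
    (hcv : Primrec fun z : α × (ℕ × Str × ℕ) => cv z.1 z.2) (hj : Primrec j) (hx : Primrec x) :
    Primrec fun a => alive (cv a) (j a) (x a) := by
  unfold alive
  fun_prop

@[fun_prop] theorem pr_cheap {κ : α → ℕ} {cv : α → Cov} {j : α → ℕ} {x : α → GS} (hκ : Primrec κ)
    (hcv : Primrec fun z : α × (ℕ × Str × ℕ) => cv z.1 z.2) (hj : Primrec j) (hx : Primrec x) :
    Primrec fun a => cheap (κ a) (cv a) (j a) (x a) := by
  unfold cheap
  fun_prop

@[fun_prop] theorem pr_gstep {κ : α → ℕ} {cv : α → Cov} {j : α → ℕ} {x : α → GS} (hκ : Primrec κ)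
    (hcv : Primrec fun z : α × (ℕ × Str × ℕ) => cv z.1 z.2) (hj : Primrec j) (hx : Primrec x) :
    Primrec fun a => gstep (κ a) (cv a) (j a) (x a) := by
  unfold gstep
  fun_prop

@[fun_prop] theorem pr_un {κ : α → ℕ} {cv : α → Cov} {j : α → ℕ} (hκ : Primrec κ)
    (hcv : Primrec fun z : α × (ℕ × Str × ℕ) => cv z.1 z.2) (hj : Primrec j) :
    Primrec fun a => un (κ a) (cv a) (j a) := by
  unfold un
  fun_prop

@[fun_prop] theorem pr_loc {κ : α → ℕ} {cv : α → Cov} {ρ : α → ℕ} (hκ : Primrec κ)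
    (hcv : Primrec fun z : α × (ℕ × Str × ℕ) => cv z.1 z.2) (hρ : Primrec ρ) :
    Primrec fun a => loc (κ a) (cv a) (ρ a) := by
  unfold loc
  fun_prop

end prim

variable {κ : ℕ} {cv : Cov}

theorem un_succ (j : ℕ) : un κ cv (j + 1) = gstep κ cv j (un κ cv j) := rfl

theorem un_succ_fst (j : ℕ) : (un κ cv (j + 1)).1 = (un κ cv j).1 + 2 ^ (un κ cv j).2.1 + 1 := rfl

theorem un_succ_r (j : ℕ) :
    (un κ cv (j + 1)).2.1 = (un κ cv j).2.1 + cond (cheap κ cv j (un κ cv j)) 1 0 := rfl

theorem rem_succ {j : ℕ} {β : Str} (h : β.length = j + 1) : rem (un κ cv (j + 1)) β =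
    cond (cheap κ cv j (un κ cv j)) 2 1 *
      (rem (un κ cv j) (β.take j) - nc cv (un κ cv j) (β.take j)) := by
  rw [un_succ, rem, gstep]
  simp only
  rw [lk_map_self _ (mem_strs.2 h)]
  rfl

theorem un_fst_strictMono : StrictMono fun j => (un κ cv j).1 :=
  strictMono_nat_of_lt_succ fun j => by
    rw [un_succ_fst]; exact Nat.lt_succ_of_le (Nat.le_add_right _ _)

theorem le_un_fst (j : ℕ) : j ≤ (un κ cv j).1 := un_fst_strictMono.le_apply

theorem un_r_le (j : ℕ) : (un κ cv j).2.1 ≤ j := by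
  induction j with
  | zero => exact le_rfl
  | succ j ih => rw [un_succ_r]; cases cheap κ cv j (un κ cv j) <;> simp <;> omega

theorem rem_le {j : ℕ} {β : Str} (h : β.length = j) : rem (un κ cv j) β ≤ 2 ^ (un κ cv j).2.1 := by
  induction j generalizing β with
  | zero =>
    obtain rfl : β = [] := by simpa using h
    exact le_rfl
  | succ j ih =>
    rw [rem_succ h, un_succ_r]
    have := ih (β := β.take j) (by simp; omega)
    cases cheap κ cv j (un κ cv j) <;> simp [pow_succ] <;> omega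

theorem mem_alive {j : ℕ} {x : GS} {β : Str} :
    β ∈ alive cv j x ↔ β.length = j ∧ nc cv x β < rem x β := by
  simp [alive]

theorem nc_congr {cv' : Cov} {P : ℕ} (h : ∀ ρ β r, ρ ≤ P → β.length ≤ P → cv (ρ, β, r) = cv' (ρ, β, r))
    {x : GS} {β : Str} (hx : x.1 + 2 ^ x.2.1 ≤ P) (hβ : β.length ≤ P) : nc cv x β = nc cv' x β := by
  unfold nc
  congr 1
  apply List.filter_congr
  intro i hi
  rw [h _ _ _ (by have := List.mem_range.1 hi; omega) hβ]

theorem alive_congr {cv' : Cov} {P : ℕ}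
    (h : ∀ ρ β r, ρ ≤ P → β.length ≤ P → cv (ρ, β, r) = cv' (ρ, β, r))
    {x : GS} {j : ℕ} (hx : x.1 + 2 ^ x.2.1 ≤ P) (hj : j ≤ P) : alive cv j x = alive cv' j x := by
  unfold alive
  apply List.filter_congr
  intro β hβ
  rw [nc_congr h hx (by rw [mem_strs.1 hβ]; exact hj)]

theorem un_congr {cv' : Cov} {P : ℕ}
    (h : ∀ ρ β r, ρ ≤ P → β.length ≤ P → cv (ρ, β, r) = cv' (ρ, β, r))
    {j : ℕ} (hj : (un κ cv j).1 ≤ P + 1) : un κ cv j = un κ cv' j := by
  induction j with
  | zero => rfl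
  | succ j ih =>
    rw [un_succ_fst] at hj
    have h1 := le_un_fst (κ := κ) (cv := cv) j
    have h0 : 0 < 2 ^ (un κ cv j).2.1 := by positivity
    rw [un_succ, un_succ, ← ih (by omega)]
    have h2 : cheap κ cv j (un κ cv j) = cheap κ cv' j (un κ cv j) := by
      unfold cheap
      rw [alive_congr h (by omega) (by omega)]
    unfold gstep
    rw [← h2]
    congr 2
    apply List.map_congr_left
    intro β _
    rw [nc_congr h (by omega) (by simp; omega)]

theorem loc_eq {cv' : Cov} {j i : ℕ} (hi : i ≤ 2 ^ (un κ cv j).2.1)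
    (h : ∀ ρ β r, ρ ≤ (un κ cv j).1 + i → β.length ≤ (un κ cv j).1 + i →
      cv (ρ, β, r) = cv' (ρ, β, r)) : loc κ cv' ((un κ cv j).1 + i) = j := by
  unfold loc
  have : ((List.range ((un κ cv j).1 + i + 1)).find? fun j' =>
      leb ((un κ cv j).1 + i) ((un κ cv' j').1 + 2 ^ (un κ cv' j').2.1)) = some j := by
    rw [List.find?_range_eq_some]
    have h1 := le_un_fst (κ := κ) (cv := cv) j
    refine ⟨?_, by simp; omega, fun j' hj' => ?_⟩
    · rw [← un_congr h (by omega), leb_true]; omega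
    · have h2 := (un_fst_strictMono (κ := κ) (cv := cv)).monotone (Nat.succ_le_of_lt hj')
      simp only [Nat.succ_eq_add_one, un_succ_fst] at h2
      have h0 : 0 < 2 ^ (un κ cv j').2.1 := by positivity
      rw [← un_congr h (by omega)]
      simp only [Bool.not_eq_true', leb_false]
      omega
  rw [this]
  rfl

theorem exists_unit (ρ : ℕ) : ∃ j i, i ≤ 2 ^ (un κ cv j).2.1 ∧ ρ = (un κ cv j).1 + i := by
  induction ρ with
  | zero => exact ⟨0, 0, by simp, rfl⟩
  | succ ρ ih =>
    obtain ⟨j, i, hi, rfl⟩ := ih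
    rcases hi.eq_or_lt with rfl | hi
    · exact ⟨j + 1, 0, by simp, by rw [un_succ_fst]⟩
    · exact ⟨j, i + 1, hi, by omega⟩

section mono
variable (hm : ∀ ρ ρ' β r, ρ ≤ ρ' → cv (ρ, β, r) = true → cv (ρ', β, r) = true)
include hm

theorem not_cv_of_lt_nc {x : GS} {β : Str} {i : ℕ} (h : i < nc cv x β) :
    cv (x.1 + i + 1, β, x.2.1) = false := by
  by_contra hc
  rw [Bool.not_eq_false] at hc
  have : (List.range (2 ^ x.2.1)).filter (fun i => !cv (x.1 + i + 1, β, x.2.1)) ⊆ List.range i := by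
    intro a ha
    rw [List.mem_filter] at ha
    rw [List.mem_range]
    by_contra hlt
    rw [hm _ (x.1 + a + 1) _ _ (by omega) hc] at ha
    simp at ha
  have h2 := (List.Nodup.subperm (List.nodup_range.filter _) this).length_le
  rw [List.length_range] at h2
  unfold nc at h
  omega

theorem lt_nc_of_not_cv {x : GS} {β : Str} {i : ℕ} (hi : i < 2 ^ x.2.1)
    (h : cv (x.1 + i + 1, β, x.2.1) = false) : i < nc cv x β := by
  have : List.range (i + 1) ⊆
      (List.range (2 ^ x.2.1)).filter (fun i => !cv (x.1 + i + 1, β, x.2.1)) := by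
    intro a ha
    rw [List.mem_range] at ha
    rw [List.mem_filter, List.mem_range]
    refine ⟨by omega, ?_⟩
    cases hc : cv (x.1 + a + 1, β, x.2.1)
    · rfl
    · rw [hm _ (x.1 + i + 1) _ _ (by omega) hc] at h
      exact absurd h (by simp)
  have h2 := (List.Nodup.subperm List.nodup_range this).length_le
  rw [List.length_range] at h2
  exact h2

theorem cv_of_alive {j : ℕ} {β : Str} (h : β ∈ alive cv j (un κ cv j)) :
    cv ((un κ cv j).1 + 2 ^ (un κ cv j).2.1, β, (un κ cv j).2.1) = true := by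
  obtain ⟨h1, h2⟩ := mem_alive.1 h
  have h3 := rem_le (κ := κ) (cv := cv) h1
  have h0 : 0 < 2 ^ (un κ cv j).2.1 := by positivity
  by_contra hc
  rw [Bool.not_eq_true] at hc
  have := lt_nc_of_not_cv hm (x := un κ cv j) (β := β) (i := 2 ^ (un κ cv j).2.1 - 1) (by omega)
    (by rw [← hc]; congr 2; omega)
  omega

theorem sum_stakes_le
    (hs : ∀ (I : Finset Str) (ρ r : Str → ℕ), (∀ β ∈ I, cv (ρ β, β, r β) = true) →
      ∑ β ∈ I, wt (κ + r β) ≤ 1) (J : ℕ) :
    ∑ j ∈ Finset.range J, wt (un κ cv j).2.1 ≤ 3 := by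
  classical
  have h1 : ∀ J, ∑ j ∈ Finset.range J, wt (un κ cv j).2.1 ≤ 2 - 2 * wt (un κ cv J).2.1 +
      ∑ j ∈ Finset.range J, ∑ β ∈ (alive cv j (un κ cv j)).toFinset,
        wt (κ + (un κ cv β.length).2.1) := by
    intro J
    induction J with
    | zero => simp [un]
    | succ J ih =>
      rw [Finset.sum_range_succ, Finset.sum_range_succ, un_succ_r]
      have e : ∑ β ∈ (alive cv J (un κ cv J)).toFinset, wt (κ + (un κ cv β.length).2.1) =
          (alive cv J (un κ cv J)).length * wt (κ + (un κ cv J).2.1) := by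
        rw [Finset.sum_congr rfl (g := fun _ => wt (κ + (un κ cv J).2.1)) fun β hβ => by
          rw [(mem_alive.1 (List.mem_toFinset.1 hβ)).1]]
        rw [Finset.sum_const, List.toFinset_card_of_nodup (l := alive cv J (un κ cv J))
          ((nodup_strs J).filter _), nsmul_eq_mul]
      rw [e]
      have hp := wt_pos (κ + (un κ cv J).2.1)
      cases hc : cheap κ cv J (un κ cv J)
      · have h2 : ((2 ^ κ : ℕ) : ℝ) ≤ (alive cv J (un κ cv J)).length := by
          exact_mod_cast ltb_false.1 hc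
        have h3 : (2 : ℝ) ^ κ * wt (κ + (un κ cv J).2.1) = wt (un κ cv J).2.1 := by
          rw [wt_add, ← mul_assoc, mul_comm _ (wt κ), wt_mul_pow, one_mul]
        push_cast at h2
        simp only [cond_false, add_zero]
        nlinarith
      · simp only [cond_true, wt_succ]
        have : (0 : ℝ) ≤ (alive cv J (un κ cv J)).length * wt (κ + (un κ cv J).2.1) := by positivity
        linarith
  have h2 := hs ((Finset.range J).biUnion fun j => (alive cv j (un κ cv j)).toFinset)
    (fun β => (un κ cv β.length).1 + 2 ^ (un κ cv β.length).2.1) (fun β => (un κ cv β.length).2.1)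
    (by
      intro β hβ
      obtain ⟨j, -, hj⟩ := Finset.mem_biUnion.1 hβ
      rw [List.mem_toFinset] at hj
      obtain rfl := (mem_alive.1 hj).1
      exact cv_of_alive hm hj)
  rw [Finset.sum_biUnion] at h2
  · have := h1 J
    have := wt_pos (un κ cv J).2.1
    linarith
  · intro a _ b _ hab
    simp only [Function.onFun]
    rw [Finset.disjoint_left]
    intro β h3 h4
    rw [List.mem_toFinset, mem_alive] at h3 h4
    exact hab (h3.1.symm.trans h4.1)

theorem often_cheap
    (hs : ∀ (I : Finset Str) (ρ r : Str → ℕ), (∀ β ∈ I, cv (ρ β, β, r β) = true) →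
      ∑ β ∈ I, wt (κ + r β) ≤ 1) (N : ℕ) :
    ∃ j, N ≤ j ∧ (alive cv j (un κ cv j)).length ≤ 2 ^ κ := by
  by_contra hc
  push Not at hc
  have h1 : ∀ i, (un κ cv (N + i)).2.1 = (un κ cv N).2.1 := by
    intro i
    induction i with
    | zero => rfl
    | succ i ih =>
      have : cheap κ cv (N + i) (un κ cv (N + i)) = false :=
        ltb_false.2 (hc _ (Nat.le_add_right _ _)).le
      rw [← add_assoc, un_succ_r, this, ih]; rfl
  have h2 := sum_stakes_le hm hs (N + 4 * 2 ^ (un κ cv N).2.1)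
  rw [Finset.sum_range_add] at h2
  simp only [h1, Finset.sum_const, Finset.card_range, nsmul_eq_mul] at h2
  have h3 : 0 ≤ ∑ j ∈ Finset.range N, wt (un κ cv j).2.1 :=
    Finset.sum_nonneg fun _ _ => (wt_pos _).le
  have h4 := wt_mul_pow (un κ cv N).2.1
  push_cast at h2
  nlinarith

end mono

/-- The number of bets won along `B` in unit `j`. -/
def wins (κ : ℕ) (cv : Cov) (B : ℕ → Bool) (j : ℕ) : ℕ :=
  min (rem (un κ cv j) (pre B j)) (nc cv (un κ cv j) (pre B j))

theorem sum_wins (B : ℕ → Bool) (J : ℕ) :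
    ∑ j ∈ Finset.range J, (wins κ cv B j : ℝ) * wt (un κ cv j).2.1 =
      1 - rem (un κ cv J) (pre B J) * wt (un κ cv J).2.1 := by
  induction J with
  | zero => simp [un, rem, pre, lk, eqb]
  | succ J ih =>
    rw [Finset.sum_range_succ, ih, rem_succ (by simp), un_succ_r, take_pre B (Nat.le_succ J)]
    have e : ((rem (un κ cv J) (pre B J) - nc cv (un κ cv J) (pre B J) : ℕ) : ℝ) =
        rem (un κ cv J) (pre B J) - wins κ cv B J := by
      have : rem (un κ cv J) (pre B J) =
          (rem (un κ cv J) (pre B J) - nc cv (un κ cv J) (pre B J)) + wins κ cv B J := by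
        unfold wins; omega
      rw [eq_sub_iff_add_eq]
      exact_mod_cast this.symm
    push_cast
    rw [e]
    cases cheap κ cv J (un κ cv J) <;> simp [wt_succ] <;> ring

/-- The node on `B` acts at the `i`-th tick of unit `j`. -/
def acts (κ : ℕ) (cv : Cov) (B : ℕ → Bool) (j i : ℕ) : Bool :=
  leb i (rem (un κ cv j) (pre B j)) && !cv ((un κ cv j).1 + i, pre B j, (un κ cv j).2.1)

theorem sum_cost_le
    (hm : ∀ ρ ρ' β r, ρ ≤ ρ' → cv (ρ, β, r) = true → cv (ρ', β, r) = true)
    (hs : ∀ (I : Finset Str) (ρ r : Str → ℕ), (∀ β ∈ I, cv (ρ β, β, r β) = true) →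
      ∑ β ∈ I, wt (κ + r β) ≤ 1) (B : ℕ → Bool) (cost : ℕ → ℝ) (h0 : ∀ ρ, 0 ≤ cost ρ)
    (hc : ∀ j i, i ≤ 2 ^ (un κ cv j).2.1 →
      cost ((un κ cv j).1 + i) ≤ cond (acts κ cv B j i) (2 * wt (un κ cv j).2.1) 0) (P : ℕ) :
    ∑ ρ ∈ Finset.range P, cost ρ ≤ 8 := by
  have h1 : ∀ j, ∑ i ∈ Finset.range (2 ^ (un κ cv j).2.1 + 1), cost ((un κ cv j).1 + i) ≤
      (wins κ cv B j + 1) * (2 * wt (un κ cv j).2.1) := by
    intro j
    have hp := wt_pos (un κ cv j).2.1
    calc ∑ i ∈ Finset.range (2 ^ (un κ cv j).2.1 + 1), cost ((un κ cv j).1 + i)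
        ≤ ∑ i ∈ Finset.range (2 ^ (un κ cv j).2.1 + 1),
          if i ∈ Finset.range (wins κ cv B j + 1) then 2 * wt (un κ cv j).2.1 else 0 := by
          refine Finset.sum_le_sum fun i hi => ?_
          have hi' : i ≤ 2 ^ (un κ cv j).2.1 := by have := Finset.mem_range.1 hi; omega
          refine (hc j i hi').trans ?_
          cases ha : acts κ cv B j i
          · simp only [cond_false]; split_ifs <;> linarith
          · simp only [acts, Bool.and_eq_true, leb_true, Bool.not_eq_true'] at ha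
            rw [cond_true, if_pos]
            rw [Finset.mem_range, wins]
            rcases Nat.eq_zero_or_pos i with rfl | hi0
            · omega
            · have := lt_nc_of_not_cv hm (x := un κ cv j) (β := pre B j) (i := i - 1) (by omega)
                (by rw [← ha.2]; congr 2; omega)
              omega
      _ ≤ ∑ i ∈ Finset.range (wins κ cv B j + 1), 2 * wt (un κ cv j).2.1 := by
          rw [← Finset.sum_filter]
          refine Finset.sum_le_sum_of_subset_of_nonneg (fun i hi => (Finset.mem_filter.1 hi).2) ?_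
          intro _ _ _; linarith
      _ = _ := by simp
  have h2 : ∀ J, ∑ ρ ∈ Finset.range (un κ cv J).1, cost ρ ≤
      ∑ j ∈ Finset.range J, (wins κ cv B j + 1) * (2 * wt (un κ cv j).2.1) := by
    intro J
    induction J with
    | zero => simp [un]
    | succ J ih =>
      rw [un_succ_fst, add_assoc, Finset.sum_range_add, Finset.sum_range_succ (n := J)]
      linarith [h1 J]
  have h3 : ∑ ρ ∈ Finset.range P, cost ρ ≤ ∑ ρ ∈ Finset.range (un κ cv P).1, cost ρ :=
    Finset.sum_le_sum_of_subset_of_nonneg (Finset.range_mono (le_un_fst P)) fun _ _ _ => h0 _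
  have h4 := sum_wins (κ := κ) (cv := cv) B P
  have h5 := sum_stakes_le hm hs P
  have h6 : (0 : ℝ) ≤ rem (un κ cv P) (pre B P) * wt (un κ cv P).2.1 := by
    have := wt_pos (un κ cv P).2.1; positivity
  have h7 : ∑ j ∈ Finset.range P, ((wins κ cv B j : ℝ) + 1) * (2 * wt (un κ cv j).2.1) =
      2 * ∑ j ∈ Finset.range P, (wins κ cv B j : ℝ) * wt (un κ cv j).2.1 +
        2 * ∑ j ∈ Finset.range P, wt (un κ cv j).2.1 := by
    rw [Finset.mul_sum, Finset.mul_sum, ← Finset.sum_add_distrib]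
    exact Finset.sum_congr rfl fun _ _ => by ring
  linarith [h2 P]

end Pool.Agent.P.MP_8f2c45_lc
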