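import Pool.Agent.P.MP_8f2c45_lc.GoldenCost

/-!
The golden run construction: every K-trivial set is low for `K` (Nies, Hirschfeldt).
-/

namespace Pool.Agent.P.MP_8f2c45_lc

open Pool.Agent.Lib.Comp

/-- The name of the `k`-th ancestor. -/
def anc : ℕ → ℕ → ℕ
  | 0, n => n
  | k + 1, n => (anc k n).unpair.1

namespace Setting

variable {S : Setting} {a : ℕ → Str} {b : ℕ}

/-- The length `x.1` has `k + 1` strings with short descriptions. -/
def Paid (S : Setting) (a : ℕ → Str) (b c k : ℕ) (θ : Par) (t : ℕ) (x : ℕ × ℕ) : Prop :=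
  anc (k + 1) x.1 = θ.2.2.2 ∧ θ.2.1 ≤ x.1 ∧ x.1 ≤ (a t).length ∧
    (∃ p, S.H0 t p = some (List.replicate x.1 false) ∧ p.length ≤ x.2 + 2 * c) ∧
    ∃ X : Finset Str, X.card = k + 1 ∧ ∀ y ∈ X, y.length = x.1 ∧ (a θ.1).take θ.2.1 <+: y ∧
      S.KH emptyOracle y ≤ x.2 + 2 * c + b

theorem collect (hmono : Monotone fun t => (a t).length)
    (hK : ∀ t, a (t + 1) ≠ a t → ∀ n ≤ (a (t + 1)).length, ∀ p,
      S.H0 (t + 1) p = some (List.replicate n false) →
        S.KH emptyOracle ((a (t + 1)).take n) ≤ p.length + b)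
    (c k : ℕ) (θ : Par) (t : ℕ) (hu : θ.2.1 ≤ (a θ.1).length) (h : (S.G a c k (θ, t)).1 = true) :
    ∃ Fs : Finset (ℕ × ℕ), Set.InjOn Prod.fst (Fs : Set (ℕ × ℕ)) ∧
      wt θ.2.2.1 ≤ ∑ x ∈ Fs, wt x.2 ∧ ∀ x ∈ Fs, S.Paid a b c k θ t x := by
  classical
  induction k generalizing θ t with
  | zero =>
    obtain ⟨t', h1, h2, h3, h4, h5, p, h6, h7⟩ := (ret0_true (θ := θ) (t := t)).1 h
    refine ⟨{(Nat.pair θ.2.2.2 θ.2.1, θ.2.2.1)}, by simp, by simp, fun x hx => ?_⟩
    obtain rfl := Finset.mem_singleton.1 hx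
    obtain ⟨s, rfl⟩ : ∃ s, t' = s + 1 := ⟨t' - 1, by omega⟩
    refine ⟨by simp [anc], Nat.right_le_pair _ _, h5.trans (hmono h1), ⟨p, H0_mono h1 h6, h7⟩,
      {(a (s + 1)).take (Nat.pair θ.2.2.2 θ.2.1)}, by simp, fun y hy => ?_⟩
    obtain rfl := Finset.mem_singleton.1 hy
    refine ⟨by simp [h5], ?_, ?_⟩
    · rw [← valid_true.1 h3 (s + 1) h2.le le_rfl]
      exact List.take_prefix_take_left (Nat.right_le_pair _ _)
    · have := hK s h4 _ h5 p h6
      simp only
      omega
  | succ k ih =>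
    obtain ⟨t', h1, h2, h3, h4⟩ := (retS_true (θ := θ) (t := t)).1 h
    have hF := sane_G (S := S) (a := a) c k
    let Q : Finset (Σ _ : ℕ, ℕ) :=
      ((S.insts a θ t').toFinset.filter (fun τ => ¬ valid a (iu θ τ) (is τ) t' = true)).sigma
        fun τ => (Finset.range (2 ^ (τ + 1))).filter
          fun j => (pst (S.G a c k) c θ τ t' (j + 1)).isSome = true
    have key : ∀ q : (Σ _ : ℕ, ℕ), ∃ Fs : Finset (ℕ × ℕ), q ∈ Q →
        Set.InjOn Prod.fst (Fs : Set (ℕ × ℕ)) ∧ wt (ig c θ q.1) ≤ ∑ x ∈ Fs, wt x.2 ∧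
        ∀ x ∈ Fs, anc (k + 1) x.1 = Nat.pair θ.2.2.2 (Nat.pair q.1 q.2) ∧
          S.Paid a b c (k + 1) θ t x := by
      rintro ⟨τ, j⟩
      by_cases hq : (⟨τ, j⟩ : Σ _ : ℕ, ℕ) ∈ Q
      swap
      · exact ⟨∅, fun h => absurd h hq⟩
      obtain ⟨h5, h6⟩ := Finset.mem_sigma.1 hq
      obtain ⟨h5, h7⟩ := Finset.mem_filter.1 h5
      rw [List.mem_toFinset, mem_insts] at h5
      obtain ⟨y, hy⟩ := Option.isSome_iff_exists.1 (Finset.mem_filter.1 h6).2
      obtain ⟨x0, h8, h9, h10, -⟩ := pst_succ.1 hy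
      obtain ⟨h11, h12⟩ := pst_valid hF hy
      obtain ⟨h13, h14⟩ := pst_valid hF h8
      obtain ⟨-, a2, -, a4, -⟩ := start_true.1 h5.2
      simp only at h5 h7 hy h8 h10 h11 h12 h13 h14 a2 a4
      have hu' : iu θ τ ≤ (a (is τ)).length := max_le (hu.trans (hmono a2)) a4
      obtain ⟨Fs, f1, f2, f3⟩ := ih (sub c θ τ j x0) y (hu'.trans (hmono h13)) h10
      -- the first time at which the instance is invalid
      have hex : ∃ s, is τ ≤ s ∧ s ≤ t' ∧ (a s).take (iu θ τ) ≠ (a (is τ)).take (iu θ τ) := by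
        by_contra hc
        push Not at hc
        exact h7 (valid_true.2 hc)
      obtain ⟨e1, e2, e3⟩ := Nat.find_spec hex
      have e4 := fun m => Nat.find_min hex (m := m)
      obtain ⟨s, hs⟩ : ∃ s, Nat.find hex = s + 1 := by
        refine ⟨Nat.find hex - 1, ?_⟩
        have : Nat.find hex ≠ is τ := fun h => e3 (by rw [h])
        omega
      rw [hs] at e1 e2 e3 e4
      have e5 : is τ ≤ s := by
        by_contra hc
        exact e3 (by rw [show s + 1 = is τ by omega])
      have e6 : (a s).take (iu θ τ) = (a (is τ)).take (iu θ τ) := by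
        by_contra hc
        exact e4 s (by omega) ⟨e5, by omega, hc⟩
      have e7 : y ≤ s := by
        by_contra hc
        exact e3 (valid_true.1 h12 _ e1 (by omega))
      refine ⟨Fs, fun _ => ⟨f1, f2, fun x hx => ?_⟩⟩
      obtain ⟨g1, g2, g3, ⟨p, g4, g5⟩, X, g6, g7⟩ := f3 x hx
      simp only [sub] at g1 g2 g7
      have g8 : x.1 ≤ (a (s + 1)).length := g3.trans (hmono (show y ≤ s + 1 by omega))
      have g9 : θ.2.1 ≤ iu θ τ := le_max_left _ _
      have g10 : (a x0).take (iu θ τ) = (a (is τ)).take (iu θ τ) :=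
        valid_true.1 h14 _ h13 le_rfl
      refine ⟨g1, by rw [anc, g1]; simp, g9.trans g2, g3.trans (hmono (show y ≤ t by omega)),
        ⟨p, H0_mono (by omega) g4, g5⟩, insert ((a (s + 1)).take x.1) X, ?_, fun z hz => ?_⟩
      · rw [Finset.card_insert_of_notMem, g6]
        intro hz
        apply e3
        have g11 := (g7 _ hz).2.1
        rw [g10] at g11
        have g12 := List.prefix_iff_eq_take.1 g11
        rw [List.length_take, min_eq_left hu', List.take_take, min_eq_left g2] at g12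
        exact g12.symm
      · rcases Finset.mem_insert.1 hz with rfl | hz
        · refine ⟨by simp [g8], ?_, ?_⟩
          · rw [← valid_true.1 h3 (s + 1) (by omega) e2]
            exact List.take_prefix_take_left (g9.trans g2)
          · have := hK s (fun h => e3 (by rw [h, e6])) _ g8 p (H0_mono (by omega) g4)
            omega
        · refine ⟨(g7 _ hz).1, List.IsPrefix.trans ?_ (g7 _ hz).2.1, (g7 _ hz).2.2⟩
          rw [g10, ← valid_true.1 h3 (is τ) a2 h5.1]
          exact List.take_prefix_take_left g9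
    choose Fs hFs using key
    have hsame : ∀ q ∈ Q, ∀ q' ∈ Q, ∀ x ∈ Fs q, ∀ x' ∈ Fs q', x.1 = x'.1 → q = q' := by
      rintro ⟨τ, j⟩ hq ⟨τ', j'⟩ hq' x hx x' hx' hxx
      have e1 := ((hFs _ hq).2.2 x hx).1
      have e2 := ((hFs _ hq').2.2 x' hx').1
      rw [hxx, e2] at e1
      simp only [Nat.pair_eq_pair, true_and] at e1
      obtain ⟨rfl, rfl⟩ := e1
      rfl
    refine ⟨Q.biUnion Fs, ?_, ?_, fun x hx => ?_⟩
    · intro x hx x' hx' hxx
      obtain ⟨q, hq, hx⟩ := Finset.mem_biUnion.1 hx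
      obtain ⟨q', hq', hx'⟩ := Finset.mem_biUnion.1 hx'
      obtain rfl := hsame q hq q' hq' x hx x' hx' hxx
      exact (hFs q hq).1 hx hx' hxx
    · rw [Finset.sum_biUnion]
      · refine le_trans ?_ (Finset.sum_le_sum fun q hq => (hFs q hq).2.1)
        rw [Finset.sum_sigma]
        refine h4.trans (le_of_eq ?_)
        rw [W_prom]
        refine Finset.sum_congr rfl fun τ _ => ?_
        simp only [Finset.sum_const, nsmul_eq_mul, cnt_eq]
      · intro q hq q' hq' hne
        simp only [Function.onFun]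
        rw [Finset.disjoint_left]
        intro x hx hx'
        exact hne (hsame q hq q' hq' x hx x hx' rfl)
    · obtain ⟨q, hq, hx⟩ := Finset.mem_biUnion.1 hx
      exact ((hFs q hq).2.2 x hx).2

theorem returns {A : ℕ → Bool} (ha : Primrec a) (hmono : Monotone fun t => (a t).length)
    (hlim : ∀ n, ∀ᶠ t in Filter.atTop, pre A n <+: a t)
    (hnl : ¬ ∃ c, ∀ y, S.KH emptyOracle y ≤ S.KH A y + c) (c k : ℕ) (θ : Par)
    (hv : ∀ t, θ.1 ≤ t → valid a θ.2.1 θ.1 t = true)
    (hon : ∀ t, ∀ r ∈ (S.G a c k (θ, t)).2, S.KH emptyOracle r.2 ≤ r.1 + 2 * c) :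
    ∃ t, (S.G a c k (θ, t)).1 = true := by
  classical
  induction k generalizing θ with
  | zero =>
    have h1 := hon θ.1 (θ.2.2.1, List.replicate (Nat.pair θ.2.2.2 θ.2.1) false)
      (by simp [G, base, eqb])
    obtain ⟨p, n, hp, hn⟩ := S.KH0_spec (List.replicate (Nat.pair θ.2.2.2 θ.2.1) false)
    obtain ⟨t1, ht1⟩ := (Filter.eventually_atTop.1 (hlim (Nat.pair θ.2.2.2 θ.2.1)))
    obtain ⟨t2, h2⟩ : ∃ t2, t2 = max (max t1 n) θ.1 := ⟨_, rfl⟩
    have h3 : ∃ t, t2 ≤ t ∧ a (t + 1) ≠ a t := by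
      by_contra hc
      push Not at hc
      have h4 : ∀ i, a (t2 + i) = a t2 := by
        intro i
        induction i with
        | zero => rfl
        | succ i ih => rw [← add_assoc, hc _ (by omega), ih]
      obtain ⟨t, h5, h6⟩ := ((hlim ((a t2).length + 1)).and (Filter.eventually_ge_atTop t2)).exists
      obtain ⟨i, rfl⟩ := Nat.exists_eq_add_of_le h6
      have := h5.length_le
      rw [h4] at this
      simp at this
    obtain ⟨t, h4, h5⟩ := h3
    refine ⟨t + 1, (ret0_true (θ := θ) (t := t + 1)).2 ⟨t + 1, le_rfl, by omega, hv _ (by omega), h5, ?_, p,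
      H0_mono (by omega) hn, by simp only at h1; omega⟩⟩
    simpa using (ht1 (t + 1) (by omega)).length_le
  | succ k ih =>
    by_contra hc
    push Not at hc
    have hal : ∀ t, θ.1 ≤ t → S.Alive a (S.G a c k) c θ t := fun t ht =>
      ⟨ht, hv t ht, by simpa [G, next] using hc t⟩
    have hF := sane_G (S := S) (a := a) c k
    have hG : Primrec fun z : (ℕ × ℕ) × (Par × ℕ) => S.G a c k z.2 :=
      S.pr_G ha (Primrec.const c) (Primrec.const k) Primrec.snd
    let B : ℕ → ℕ → Bool := fun s τ => ltb τ s && leb (is τ) s && S.start a θ τ &&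
      (pst (S.G a c k) c θ τ s (2 ^ (τ + 1))).isSome
    have hB : ∀ s τ, B s τ = true ↔ τ < s ∧ is τ ≤ s ∧ S.start a θ τ = true ∧
        (pst (S.G a c k) c θ τ s (2 ^ (τ + 1))).isSome = true := by
      intro s τ
      simp [B, and_assoc]
    have hBp : Primrec fun x : ℕ × ℕ => B x.1 x.2 := by
      have := pr_pst (F := fun _ : ℕ × ℕ => S.G a c k) hG (Primrec.const c) (Primrec.const θ)
        Primrec.snd Primrec.fst (j := fun x => 2 ^ (x.2 + 1)) (by fun_prop)
      simp only [B]
      refine pr_and ?_ (pr_isSome this)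
      fun_prop
    obtain ⟨d, hd⟩ := S.KCset (A := B) hBp
      (fun s τ h => by
        rw [hB] at h ⊢
        obtain ⟨y, hy⟩ := Option.isSome_iff_exists.1 h.2.2.2
        exact ⟨by omega, by omega, h.2.2.1, by rw [pst_up (Nat.le_succ s) hy]; rfl⟩)
      (fun s τ h => ((hB s τ).1 h).1)
      (r := fun τ => ((ip τ).length, (S.H ((a (is τ)).take (im τ)) (ip τ)).getD []))
      (by fun_prop) (3 * c + 5 + 1) (by
        intro s
        simp only
        rw [← Finset.sum_filter_add_sum_filter_not _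
          (fun τ => valid a (iu θ τ) (is τ) s = true)]
        have e1 := kraft_valid (S := S) hmono (θ := θ) (t := s)
          (((Finset.range s).filter fun τ => B s τ = true).filter
            (fun τ => valid a (iu θ τ) (is τ) s = true)) (by
            intro τ hτ
            obtain ⟨h5, h6⟩ := Finset.mem_filter.1 hτ
            obtain ⟨-, h7, h8, -⟩ := (hB _ _).1 (Finset.mem_filter.1 h5).2
            exact ⟨h7, h8, h6⟩)
        have e2 : ∑ τ ∈ ((Finset.range s).filter fun τ => B s τ = true).filter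
            (fun τ => ¬ valid a (iu θ τ) (is τ) s = true), wt (ip τ).length ≤ 2 ^ (3 * c + 5) := by
          rcases (((Finset.range s).filter fun τ => B s τ = true).filter
            (fun τ => ¬ valid a (iu θ τ) (is τ) s = true)).eq_empty_or_nonempty with h | ⟨τ0, h⟩
          · rw [h]; simp
          have e3 : θ.1 ≤ s := by
            obtain ⟨-, h7, h8, -⟩ := (hB _ _).1 (Finset.mem_filter.1 (Finset.mem_filter.1 h).1).2
            exact (start_true.1 h8).2.1.trans h7
          have e4 := (hal s e3).prom_lt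
          rw [W_prom] at e4
          have e5 : ∑ τ ∈ ((Finset.range s).filter fun τ => B s τ = true).filter
              (fun τ => ¬ valid a (iu θ τ) (is τ) s = true),
                wt (θ.2.2.1 + (3 * c + 5)) * wt (ip τ).length ≤
              ∑ τ ∈ (S.insts a θ s).toFinset.filter (fun τ => ¬ valid a (iu θ τ) (is τ) s = true),
                (cnt (S.G a c k) c θ τ s : ℝ) * wt (ig c θ τ) := by
            refine le_trans (le_of_eq (Finset.sum_congr rfl fun τ hτ => ?_))
              (Finset.sum_le_sum_of_subset_of_nonneg (fun τ hτ => ?_) fun τ _ _ => ?_)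
            · obtain ⟨-, -, -, h9⟩ :=
                (hB _ _).1 (Finset.mem_filter.1 (Finset.mem_filter.1 hτ).1).2
              rw [← wt_ig, cnt_eq, Finset.filter_true_of_mem fun j hj =>
                pst_isSome_of_le (Finset.mem_range.1 hj) h9]
              simp
            · obtain ⟨h5, h6⟩ := Finset.mem_filter.1 hτ
              obtain ⟨-, h7, h8, -⟩ := (hB _ _).1 (Finset.mem_filter.1 h5).2
              exact Finset.mem_filter.2 ⟨List.mem_toFinset.2 (mem_insts.2 ⟨h7, h8⟩), h6⟩
            · have := wt_pos (ig c θ τ); positivity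
          rw [← Finset.mul_sum, wt_add, mul_assoc] at e5
          have e6 := le_of_mul_le_mul_left (e5.trans (e4.le.trans (mul_one _).ge)) (wt_pos _)
          have e7 := wt_mul_pow (3 * c + 5)
          exact le_of_mul_le_mul_left (e6.trans e7.ge) (wt_pos _)
        have e3 : (1 : ℝ) ≤ 2 ^ (3 * c + 5) := one_le_pow₀ (by norm_num)
        rw [pow_succ]
        linarith)
    refine hnl ⟨d, fun y => ?_⟩
    obtain ⟨p, n, hp, hn⟩ := S.KH_spec A y
    have hex : ∃ m, S.H (pre A m) p = some y := ⟨n, hn⟩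
    obtain ⟨m, hm⟩ : ∃ m, m = Nat.find hex := ⟨_, rfl⟩
    have hm1 : S.H (pre A m) p = some y := hm ▸ Nat.find_spec hex
    have hm2 : m = 0 ∨ (S.H (pre A (m - 1)) p).isSome = false := by
      rcases Nat.eq_zero_or_pos m with h | h
      · exact Or.inl h
      · right
        cases hz : S.H (pre A (m - 1)) p with
        | none => rfl
        | some z =>
          have := mono_pre (Nat.sub_le m 1) hz
          rw [hm1] at this
          exact absurd (this ▸ hz) (Nat.find_min hex (by omega))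
    have hex2 : ∃ s, θ.1 ≤ s ∧ ∀ t, s ≤ t → Nat.pair (Encodable.encode p) m ≤ t ∧
        m ≤ (a t).length ∧ (a t).take (max θ.2.1 m) = pre A (max θ.2.1 m) := by
      obtain ⟨t1, ht1⟩ := Filter.eventually_atTop.1 (hlim (max θ.2.1 m))
      refine ⟨max (max θ.1 t1) (Nat.pair (Encodable.encode p) m), by omega, fun t ht => ?_⟩
      have h1 := ht1 t (by omega)
      have h2 := h1.length_le
      have h3 := List.prefix_iff_eq_take.1 h1
      rw [length_pre] at h2 h3
      exact ⟨by omega, by omega, h3.symm⟩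
    obtain ⟨s, hs⟩ : ∃ s, s = Nat.find hex2 := ⟨_, rfl⟩
    obtain ⟨hs1, hs2⟩ : θ.1 ≤ s ∧ ∀ t, s ≤ t → Nat.pair (Encodable.encode p) m ≤ t ∧
        m ≤ (a t).length ∧ (a t).take (max θ.2.1 m) = pre A (max θ.2.1 m) :=
      hs ▸ Nat.find_spec hex2
    obtain ⟨τ, hτ⟩ : ∃ τ, τ = Nat.pair (Nat.pair (Encodable.encode p) m) s := ⟨_, rfl⟩
    have t1 : ip τ = p := by simp [ip, hτ]
    have t2 : im τ = m := by simp [im, hτ]
    have t3 : is τ = s := by simp [is, hτ]
    have t4 : iu θ τ = max θ.2.1 m := by rw [iu, t2]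
    have t5 : τ.unpair.1 = Nat.pair (Encodable.encode p) m := by simp [hτ]
    have t6 : ∀ m' ≤ m, (a s).take m' = pre A m' := by
      intro m' hm'
      have := congrArg (List.take m') (hs2 s le_rfl).2.2
      rwa [List.take_take, min_eq_left (by omega), take_pre A (by omega)] at this
    have hst : S.start a θ τ = true := by
      rw [start_true, t1, t2, t3, t4, t5, t6 m le_rfl, t6 (m - 1) (Nat.sub_le _ _), hm1]
      refine ⟨by simp, hs1, (hs2 s le_rfl).1, (hs2 s le_rfl).2.1, rfl, hm2, ?_⟩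
      by_cases e : s = θ.1
      · exact Or.inl e
      · refine Or.inr fun h => Nat.find_min hex2 (m := s - 1) (by omega) ⟨by omega, fun t ht => ?_⟩
        rcases Nat.eq_or_lt_of_le ht with rfl | ht
        · exact ⟨h.1, h.2.1, h.2.2.trans (hs2 s le_rfl).2.2⟩
        · exact hs2 t (by omega)
    have hall : ∀ j ≤ 2 ^ (τ + 1), ∃ t x, pst (S.G a c k) c θ τ t j = some x := by
      intro j hj
      induction j with
      | zero => exact ⟨0, _, rfl⟩
      | succ j ihj =>
        obtain ⟨t, x, hx⟩ := ihj (by omega)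
        have hsx : s ≤ x := t3 ▸ (pst_valid hF hx).1
        obtain ⟨t', ht'⟩ := ih (sub c θ τ j x) (fun t2 h2 => valid_true.2 fun t3 h3 _ => by
          simp only [sub] at h3 ⊢
          rw [t4, (hs2 t3 (by omega)).2.2, (hs2 x hsx).2.2]) (by
          intro t2 r hr
          have h2 : x ≤ t2 := by
            by_contra hlt
            rw [hF.2 _ _ (not_le.1 hlt)] at hr
            simp at hr
          refine hon t2 r ?_
          show r ∈ S.newS a (S.G a c k) c θ t2
          rw [newS_alive (hal t2 (by omega))]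
          simp only [List.mem_flatMap, List.mem_range]
          refine ⟨τ, mem_insts.2 ⟨by omega, hst⟩, j, hj, ?_⟩
          rw [pst_down hF hx h2]
          exact hr)
        have hex3 : ∃ t', (S.G a c k (sub c θ τ j x, t')).1 = true := ⟨t', ht'⟩
        refine ⟨max t (Nat.find hex3), Nat.find hex3, pst_succ.2 ⟨x, pst_up (le_max_left _ _) hx,
          le_max_right _ _, Nat.find_spec hex3, fun y' hy' => ?_⟩⟩
        simpa using Nat.find_min hex3 hy'
    obtain ⟨t, x, hx⟩ := hall _ le_rfl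
    have := hd (max (max t s) (τ + 1)) τ ((hB _ _).2 ⟨by omega, by omega, hst, by
      rw [pst_up (by omega) hx]; rfl⟩)
    simp only [t1, t2, t3, t6 m le_rfl, hm1, Option.getD_some] at this
    omega

theorem low_of_approx (S : Setting) (A : ℕ → Bool) (b : ℕ) (a : ℕ → Str) (ha : Primrec a)
    (hlen : ∀ t, (a t).length ≤ (a (t + 1)).length)
    (hlim : ∀ n, ∀ᶠ t in Filter.atTop, pre A n <+: a t)
    (hK : ∀ t, a (t + 1) ≠ a t → ∀ n ≤ (a (t + 1)).length, ∀ p,
      S.H0 (t + 1) p = some (List.replicate n false) →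
        S.KH emptyOracle ((a (t + 1)).take n) ≤ p.length + b) :
    ∃ c, ∀ y, S.KH emptyOracle y ≤ S.KH A y + c := by
  classical
  by_contra hnl
  have hmono : Monotone fun t => (a t).length := monotone_nat_of_le_succ hlen
  let Rq : ℕ → ℕ → List Req := fun c t => (S.G a c (2 ^ (3 * c + 3)) ((c, 0, 2, 0), t)).2
  have hRq : Primrec fun x : ℕ × ℕ => Rq x.2 x.1 :=
    pr_snd (S.pr_G ha (c := fun x : ℕ × ℕ => x.2) (k := fun x => 2 ^ (3 * x.2 + 3))
      (z := fun x => ((x.2, 0, 2, 0), x.1)) (by fun_prop) (by fun_prop) (by fun_prop))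
  have hcost : ∀ c T, ∑ t ∈ Finset.range T, WR (Rq c t) ≤ 1 := by
    intro c T
    refine (cost_G (S := S) hmono c _ le_rfl (c, 0, 2, 0) T).trans ?_
    have h2 : 4 * (2 : ℝ) ^ (3 * c + 3) * wt (3 * c + 5) = 1 := by
      rw [← wt_mul_pow (3 * c + 5)]; ring
    push_cast
    rw [h2]
    norm_num [wt]
  have hb : Primrec fun t => (List.range (t + 1)).flatMap fun c =>
      (Rq c t).map fun r => ((r.1 + (c + 1), r.2) : Req) :=
    pr_flatMap (by fun_prop) (pr_map hRq (by fun_prop))
  obtain ⟨d, hd⟩ := S.KC0 hb.to_comp 0 (by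
    intro n
    have h1 : ∀ t ∈ Finset.range n, WR ((List.range (t + 1)).flatMap fun c =>
        (Rq c t).map fun r => ((r.1 + (c + 1), r.2) : Req)) ≤
        ∑ c ∈ Finset.range n, WR (Rq c t) * wt (c + 1) := by
      intro t ht
      rw [WR_flatMap, sum_map_range (g := fun c => WR (Rq c t) * wt (c + 1))]
      · exact Finset.sum_le_sum_of_subset_of_nonneg (Finset.range_mono (Finset.mem_range.1 ht))
          fun _ _ _ => mul_nonneg (WR_nonneg _) (wt_pos _).le
      · intro c _
        rw [WR, WR, ← W_map_add, List.map_map, List.map_map]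
        rfl
    refine (Finset.sum_le_sum h1).trans ?_
    rw [Finset.sum_comm]
    refine (Finset.sum_le_sum (g := fun c => wt (c + 1)) fun c _ => ?_).trans ?_
    · rw [← Finset.sum_mul]
      exact mul_le_of_le_one_left (wt_pos _).le (hcost c n)
    · have := sum_wt_succ_le n
      have := wt_pos n
      linarith)
  obtain ⟨c, hc⟩ : ∃ c, c = d + 1 + b := ⟨_, rfl⟩
  obtain ⟨t, ht⟩ := returns (S := S) ha hmono hlim hnl c (2 ^ (3 * c + 3)) (c, 0, 2, 0)
    (fun t _ => valid_true.2 fun _ _ _ => by simp) (by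
      intro t r hr
      have h2 : c ≤ t := by
        by_contra hlt
        rw [(sane_G c _).2 _ _ (not_le.1 hlt)] at hr
        simp at hr
      have := hd t (r.1 + (c + 1)) r.2 (List.mem_flatMap.2 ⟨c, List.mem_range.2 (by omega),
        List.mem_map.2 ⟨r, hr, rfl⟩⟩)
      omega)
  obtain ⟨Fs, f1, f2, f3⟩ := collect hmono hK c _ _ t (Nat.zero_le _) ht
  choose! X hX using fun x hx => (f3 x hx).2.2.2.2
  have h1 := sum_KH_le_one (S := S) (Fs.biUnion X)
  rw [Finset.sum_biUnion] at h1
  · have h2 : ∀ x ∈ Fs, 8 * wt x.2 ≤ ∑ y ∈ X x, wt (S.KH emptyOracle y) := by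
      intro x hx
      have h3 := Finset.card_nsmul_le_sum (X x) (fun y => wt (S.KH emptyOracle y))
        (wt (x.2 + 3 * c)) fun y hy => wt_le_wt.2 (by have := ((hX x hx).2 y hy).2.2; omega)
      rw [(hX x hx).1, nsmul_eq_mul, wt_add] at h3
      refine le_trans ?_ h3
      have h4 := wt_mul_pow (3 * c)
      have h5 := wt_pos x.2
      have h6 := wt_pos (3 * c)
      push_cast
      rw [pow_add]
      nlinarith [mul_pos h5 h6]
    have h3 := Finset.sum_le_sum h2
    rw [← Finset.mul_sum] at h3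
    norm_num [wt] at f2
    simp only [wt] at h1 h3
    norm_num at h1 h3
    linarith
  · intro x hx x' hx' hne
    simp only [Function.onFun]
    rw [Finset.disjoint_left]
    intro y hy hy'
    exact hne (f1 hx hx' (((hX x hx).2 y hy).1.symm.trans ((hX x' hx').2 y hy').1))

end Setting

end Pool.Agent.P.MP_8f2c45_lc
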