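import Pool.Agent.P.MP_8f2c45_lc.GoldenDefs

/-!
The golden run construction: basic properties and the bound on the cost.
-/

namespace Pool.Agent.P.MP_8f2c45_lc

open Pool.Agent.Lib.Comp

theorem valid_true {a : ℕ → Str} {u s t : ℕ} :
    valid a u s t = true ↔ ∀ t', s ≤ t' → t' ≤ t → (a t').take u = (a s).take u := by
  simp only [valid, List.all_eq_true, List.mem_range, Bool.or_eq_true, ltb_true, eqb_true]
  constructor
  · intro h t' h1 h2
    exact (h t' (by omega)).resolve_left (by omega)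
  · intro h t' h1
    by_cases c : t' < s
    · exact Or.inl c
    · exact Or.inr (h t' (by omega) (by omega))

/-- A level returns only at a time at which its parameters are valid. -/
def Sane (a : ℕ → Str) (F : Lev) : Prop :=
  (∀ θ t, (F (θ, t)).1 = true →
    ∃ t' ≤ t, θ.1 ≤ t' ∧ valid a θ.2.1 θ.1 t' = true ∧ (F (θ, t')).1 = true) ∧
  ∀ θ t, t < θ.1 → (F (θ, t)).2 = []

section pst
variable {a : ℕ → Str} {F : Lev} {c : ℕ} {θ : Par} {τ : ℕ}

theorem pst_up {t t' j y : ℕ} (ht : t ≤ t') (h : pst F c θ τ t j = some y) :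
    pst F c θ τ t' j = some y := by
  induction j generalizing y with
  | zero => exact h
  | succ j ih =>
    obtain ⟨x, h1, h2, h3⟩ := pst_succ.1 h
    exact pst_succ.2 ⟨x, ih h1, h2.trans ht, h3⟩

theorem pst_step (hF : Sane a F) {j x y : ℕ} (h3 : (F (sub c θ τ j x, y)).1 = true)
    (h4 : ∀ y' < y, (F (sub c θ τ j x, y')).1 = false) :
    x ≤ y ∧ valid a (iu θ τ) x y = true := by
  obtain ⟨t', h5, h6, h7, h8⟩ := hF.1 _ _ h3
  obtain rfl : t' = y := by
    by_contra hne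
    rw [h4 t' (by omega)] at h8
    exact absurd h8 (by simp)
  exact ⟨h6, h7⟩

theorem pst_valid (hF : Sane a F) {t j y : ℕ} (h : pst F c θ τ t j = some y) :
    is τ ≤ y ∧ valid a (iu θ τ) (is τ) y = true := by
  induction j generalizing y with
  | zero =>
    obtain rfl := Option.some.inj h
    refine ⟨le_rfl, valid_true.2 fun t' h1 h2 => ?_⟩
    rw [le_antisymm h2 h1]
  | succ j ih =>
    obtain ⟨x, h1, h2, h3, h4⟩ := pst_succ.1 h
    obtain ⟨h5, h6⟩ := ih h1
    obtain ⟨h7, h8⟩ := pst_step hF h3 h4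
    refine ⟨h5.trans h7, valid_true.2 fun t' h9 h10 => ?_⟩
    rw [valid_true] at h6 h8
    by_cases c : t' ≤ x
    · exact h6 t' h9 c
    · rw [h8 t' (by omega) h10, h6 x h5 le_rfl]

theorem pst_down (hF : Sane a F) {t t' j y : ℕ} (h : pst F c θ τ t' j = some y) (hy : y ≤ t) :
    pst F c θ τ t j = some y := by
  induction j generalizing y with
  | zero => exact h
  | succ j ih =>
    obtain ⟨x, h1, h2, h3, h4⟩ := pst_succ.1 h
    exact pst_succ.2 ⟨x, ih h1 ((pst_step hF h3 h4).1.trans hy), hy, h3, h4⟩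

theorem pst_isSome_of_le {t i j : ℕ} (hij : i ≤ j) (h : (pst F c θ τ t j).isSome = true) :
    (pst F c θ τ t i).isSome = true := by
  induction hij with
  | refl => exact h
  | step _ ih =>
    apply ih
    obtain ⟨y, hy⟩ := Option.isSome_iff_exists.1 h
    obtain ⟨x, h1, -⟩ := pst_succ.1 hy
    simp [h1]

theorem cnt_eq (t : ℕ) : cnt F c θ τ t =
    ((Finset.range (2 ^ (τ + 1))).filter fun j => (pst F c θ τ t (j + 1)).isSome = true).card := by
  unfold cnt
  rw [← List.toFinset_card_of_nodup (List.nodup_range.filter _), List.toFinset_filter,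
    List.toFinset_range]

theorem cnt_le (t : ℕ) : cnt F c θ τ t ≤ 2 ^ (τ + 1) := by
  rw [cnt_eq]
  exact (Finset.card_filter_le _ _).trans (by simp)

theorem started_le (t : ℕ) :
    ((Finset.range (2 ^ (τ + 1))).filter fun j => (pst F c θ τ t j).isSome = true).card ≤
      cnt F c θ τ t + 1 := by
  rw [cnt_eq]
  refine le_trans (Finset.card_le_card (t := insert 0 (((Finset.range (2 ^ (τ + 1))).filter
    fun j => (pst F c θ τ t (j + 1)).isSome = true).image Nat.succ)) ?_) ?_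
  · intro j hj
    obtain ⟨h1, h2⟩ := Finset.mem_filter.1 hj
    cases j with
    | zero => simp
    | succ j =>
      refine Finset.mem_insert_of_mem (Finset.mem_image.2 ⟨j, Finset.mem_filter.2 ⟨?_, h2⟩, rfl⟩)
      have := Finset.mem_range.1 h1
      exact Finset.mem_range.2 (by omega)
  · exact (Finset.card_insert_le _ _).trans (Nat.succ_le_succ Finset.card_image_le)

theorem wt_ig : (2 : ℝ) ^ (τ + 1) * wt (ig c θ τ) =
    wt (θ.2.2.1 + (3 * c + 5)) * wt (ip τ).length := by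
  rw [ig, wt_add _ (τ + 1), wt_add _ (ip τ).length, mul_comm, mul_assoc, wt_mul_pow, mul_one]

end pst

namespace Setting

variable {S : Setting} {a : ℕ → Str}

theorem start_true {θ : Par} {τ : ℕ} : S.start a θ τ = true ↔
    Encodable.encode (ip τ) = τ.unpair.1.unpair.1 ∧ θ.1 ≤ is τ ∧ τ.unpair.1 ≤ is τ ∧
    im τ ≤ (a (is τ)).length ∧ (S.H ((a (is τ)).take (im τ)) (ip τ)).isSome = true ∧
    (im τ = 0 ∨ (S.H ((a (is τ)).take (im τ - 1)) (ip τ)).isSome = false) ∧
    (is τ = θ.1 ∨ ¬ (τ.unpair.1 ≤ is τ - 1 ∧ im τ ≤ (a (is τ - 1)).length ∧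
      (a (is τ - 1)).take (iu θ τ) = (a (is τ)).take (iu θ τ))) := by
  simp only [start, Bool.and_eq_true, Bool.or_eq_true, eqb_true, leb_true, Bool.not_eq_true',
    and_assoc, ← Bool.not_eq_true (_ && _)]

theorem nodup_insts (θ : Par) (t : ℕ) : (S.insts a θ t).Nodup := List.nodup_range.filter _

theorem take_im {θ : Par} {τ t : ℕ} (h1 : is τ ≤ t) (hv : valid a (iu θ τ) (is τ) t = true)
    {m : ℕ} (hm : m ≤ im τ) : (a (is τ)).take m = (a t).take m := by
  have := congrArg (List.take m) (valid_true.1 hv t h1 le_rfl)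
  rw [List.take_take, List.take_take, min_eq_left (show m ≤ iu θ τ from hm.trans (le_max_right _ _))] at this
  exact this.symm

theorem kraft_valid (hmono : Monotone fun t => (a t).length) {θ : Par} {t : ℕ} (I : Finset ℕ)
    (hI : ∀ τ ∈ I, is τ ≤ t ∧ S.start a θ τ = true ∧ valid a (iu θ τ) (is τ) t = true) :
    ∑ τ ∈ I, wt (ip τ).length ≤ 1 := by
  have hH : ∀ τ ∈ I, (S.H ((a t).take (im τ)) (ip τ)).isSome = true ∧
      (im τ = 0 ∨ (S.H ((a t).take (im τ - 1)) (ip τ)).isSome = false) := by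
    intro τ hτ
    obtain ⟨h1, h2, h3⟩ := hI τ hτ
    rw [← take_im h1 h3 le_rfl, ← take_im h1 h3 (Nat.sub_le _ _)]
    exact ⟨(start_true.1 h2).2.2.2.2.1, (start_true.1 h2).2.2.2.2.2.1⟩
  have hm : ∀ τ ∈ I, ∀ τ' ∈ I, ip τ = ip τ' → ¬ im τ < im τ' := by
    intro τ hτ τ' hτ' hp hlt
    obtain ⟨y, hy⟩ := Option.isSome_iff_exists.1 (hH τ hτ).1
    have h1 := (hH τ' hτ').2.resolve_left (by omega)
    rw [← hp, S.mono (List.take_prefix_take_left (show im τ ≤ im τ' - 1 by omega)) hy] at h1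
    exact absurd h1 (by simp)
  have hs : ∀ τ ∈ I, ∀ τ' ∈ I, τ.unpair.1 = τ'.unpair.1 → ¬ is τ < is τ' := by
    intro τ hτ τ' hτ' hp hlt
    obtain ⟨h1, h2, h3⟩ := hI τ hτ
    obtain ⟨h4, h5, h6⟩ := hI τ' hτ'
    obtain ⟨-, a2, a3, a4, -⟩ := start_true.1 h2
    have e1 : im τ' = im τ := by simp only [im, hp]
    have e2 : iu θ τ' = iu θ τ := by simp only [iu, e1]
    refine (start_true.1 h5).2.2.2.2.2.2.elim (by omega) fun h => h ⟨by omega, ?_, ?_⟩
    · exact e1 ▸ a4.trans (hmono (show is τ ≤ is τ' - 1 by omega))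
    · rw [e2, valid_true.1 h3 _ (by omega) (by omega), valid_true.1 h3 _ hlt.le h4]
  have hinj : Set.InjOn ip I := by
    intro τ hτ τ' hτ' hp
    have e1 : im τ = im τ' := le_antisymm (not_lt.1 (hm _ hτ' _ hτ hp.symm)) (not_lt.1 (hm _ hτ _ hτ' hp))
    have e2 : τ.unpair.1 = τ'.unpair.1 := by
      rw [← Nat.pair_unpair τ.unpair.1, ← Nat.pair_unpair τ'.unpair.1,
        ← (start_true.1 (hI τ hτ).2.1).1, ← (start_true.1 (hI τ' hτ').2.1).1, hp]
      exact congrArg _ e1
    have e3 : is τ = is τ' := le_antisymm (not_lt.1 (hs _ hτ' _ hτ e2.symm)) (not_lt.1 (hs _ hτ _ hτ' e2))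
    rw [← Nat.pair_unpair τ, ← Nat.pair_unpair τ', e2]
    exact congrArg _ e3
  rw [← Finset.sum_image (f := fun p : Str => wt p.length) hinj]
  refine kraft _ fun p hp q hq hpq => ?_
  obtain ⟨τ, hτ, rfl⟩ := Finset.mem_image.1 hp
  obtain ⟨τ', hτ', rfl⟩ := Finset.mem_image.1 hq
  obtain ⟨y, hy⟩ := Option.isSome_iff_exists.1 (hH τ hτ).1
  obtain ⟨z, hz⟩ := Option.isSome_iff_exists.1 (hH τ' hτ').1
  exact S.free (S.mono (List.take_prefix _ _) hy) (S.mono (List.take_prefix _ _) hz) hpq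

theorem W_prom (F : Lev) (c : ℕ) (θ : Par) (t : ℕ) : W (S.prom a F c θ t) =
    ∑ τ ∈ (S.insts a θ t).toFinset.filter (fun τ => ¬ valid a (iu θ τ) (is τ) t = true),
      (cnt F c θ τ t : ℝ) * wt (ig c θ τ) := by
  unfold prom
  rw [W_flatMap, ← List.sum_toFinset _ ((nodup_insts θ t).filter _), List.toFinset_filter]
  simp only [W_replicate, Bool.not_eq_true', Bool.not_eq_true]

theorem retS_true {F : Lev} {c : ℕ} {θ : Par} {t : ℕ} : S.retS a F c θ t = true ↔
    ∃ t' ≤ t, θ.1 ≤ t' ∧ valid a θ.2.1 θ.1 t' = true ∧ wt θ.2.2.1 ≤ W (S.prom a F c θ t') := by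
  simp [retS, and_assoc]

theorem ret0_true {c : ℕ} {θ : Par} {t : ℕ} : S.ret0 a c θ t = true ↔
    ∃ t' ≤ t, θ.1 < t' ∧ valid a θ.2.1 θ.1 t' = true ∧ a t' ≠ a (t' - 1) ∧
      Nat.pair θ.2.2.2 θ.2.1 ≤ (a t').length ∧
      ∃ p, S.H0 t' p = some (List.replicate (Nat.pair θ.2.2.2 θ.2.1) false) ∧
        p.length ≤ θ.2.2.1 + 2 * c := by
  simp only [ret0, List.any_eq_true, List.mem_range, Bool.and_eq_true, ltb_true, Bool.not_eq_true',
    eqb_false, leb_true, eqb_true, mem_upto, Nat.lt_succ_iff, and_assoc]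
  refine exists_congr fun t' => and_congr_right fun _ => and_congr_right fun _ =>
    and_congr_right fun _ => and_congr_right fun _ => and_congr_right fun _ =>
    exists_congr fun p => ⟨fun h => h.2, fun h => ⟨H0_len h.1, h⟩⟩

theorem sane_G (c k : ℕ) : Sane a (S.G a c k) := by
  cases k with
  | zero =>
    refine ⟨fun θ t h => ?_, fun θ t h => ?_⟩
    · obtain ⟨t', h1, h2, h3, h4⟩ := ret0_true.1 h
      exact ⟨t', h1, h2.le, h3, ret0_true.2 ⟨t', le_rfl, h2, h3, h4⟩⟩
    · have : eqb t θ.1 = false := by simp; omega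
      simp [G, base, this]
  | succ k =>
    refine ⟨fun θ t h => ?_, fun θ t h => ?_⟩
    · obtain ⟨t', h1, h2, h3, h4⟩ := retS_true.1 h
      exact ⟨t', h1, h2, h3, retS_true.2 ⟨t', le_rfl, h2, h3, h4⟩⟩
    · have : leb θ.1 t = false := by simp; omega
      simp [G, next, newS, this]

/-- The process is still working. -/
def Alive (S : Setting) (a : ℕ → Str) (F : Lev) (c : ℕ) (θ : Par) (t : ℕ) : Prop :=
  θ.1 ≤ t ∧ valid a θ.2.1 θ.1 t = true ∧ S.retS a F c θ t = false

theorem newS_alive {F : Lev} {c : ℕ} {θ : Par} {t : ℕ} (h : S.Alive a F c θ t) :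
    S.newS a F c θ t = (S.insts a θ t).flatMap fun τ => (List.range (2 ^ (τ + 1))).flatMap fun j =>
      (pst F c θ τ t j).elim [] fun x => (F (sub c θ τ j x, t)).2 := by
  unfold newS
  rw [leb_true.2 h.1, h.2.1, h.2.2]
  rfl

theorem newS_dead {F : Lev} {c : ℕ} {θ : Par} {t : ℕ} (h : ¬ S.Alive a F c θ t) :
    S.newS a F c θ t = [] := by
  unfold newS
  rw [Bool.cond_eq_ite, if_neg]
  simpa [Alive, and_assoc] using h

theorem Alive.prom_lt {F : Lev} {c : ℕ} {θ : Par} {t : ℕ} (h : S.Alive a F c θ t) :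
    W (S.prom a F c θ t) < wt θ.2.2.1 := by
  by_contra hc
  have := retS_true.2 ⟨t, le_rfl, h.1, h.2.1, not_lt.1 hc⟩
  rw [h.2.2] at this
  exact absurd this (by simp)

theorem cost_next (hmono : Monotone fun t => (a t).length) {F : Lev} {c : ℕ} {γ : ℝ} (hγ : 0 ≤ γ)
    (hF : ∀ θ T, ∑ t ∈ Finset.range T, WR (F (θ, t)).2 ≤ γ * wt θ.2.2.1) (θ : Par) (T : ℕ) :
    ∑ t ∈ Finset.range T, WR (S.newS a F c θ t) ≤ γ * (1 + 2 * wt (3 * c + 5)) * wt θ.2.2.1 := by
  classical
  have hp := wt_pos θ.2.2.1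
  have hq := wt_pos (3 * c + 5)
  by_cases hne : ((Finset.range T).filter (S.Alive a F c θ)).Nonempty
  swap
  · rw [Finset.sum_eq_zero]
    · positivity
    · intro t ht
      rw [newS_dead fun h => hne ⟨t, Finset.mem_filter.2 ⟨ht, h⟩⟩, WR_nil]
  obtain ⟨T', hT', hmax⟩ := Finset.exists_max_image _ id hne
  have hal : S.Alive a F c θ T' := (Finset.mem_filter.1 hT').2
  let I := (S.insts a θ T').toFinset
  let h : ℕ → ℕ → ℕ → ℝ := fun τ j t =>
    WR ((pst F c θ τ T' j).elim [] fun x => (F (sub c θ τ j x, t)).2)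
  have h1 : ∀ t ∈ Finset.range T, WR (S.newS a F c θ t) ≤
      ∑ τ ∈ I, ∑ j ∈ Finset.range (2 ^ (τ + 1)), h τ j t := by
    intro t ht
    by_cases hat : S.Alive a F c θ t
    · have hle : t ≤ T' := hmax t (Finset.mem_filter.2 ⟨ht, hat⟩)
      rw [newS_alive hat, WR_flatMap, ← List.sum_toFinset _ (nodup_insts θ t)]
      refine le_trans (Finset.sum_le_sum fun τ _ => ?_) (Finset.sum_le_sum_of_subset_of_nonneg
        (f := fun τ => ∑ j ∈ Finset.range (2 ^ (τ + 1)), h τ j t) (fun τ hτ => ?_)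
        fun _ _ _ => Finset.sum_nonneg fun _ _ => WR_nonneg _)
      · rw [WR_flatMap, sum_map_range (fun _ _ => rfl)]
        refine Finset.sum_le_sum fun j _ => ?_
        cases hx : pst F c θ τ t j with
        | none => exact WR_nonneg _
        | some x => simp only [h, pst_up hle hx]; exact le_rfl
      · rw [List.mem_toFinset, mem_insts] at hτ ⊢
        exact ⟨hτ.1.trans hle, hτ.2⟩
    · rw [newS_dead hat, WR_nil]
      exact Finset.sum_nonneg fun _ _ => Finset.sum_nonneg fun _ _ => WR_nonneg _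
  have h2 : ∀ τ ∈ I, ∑ t ∈ Finset.range T, ∑ j ∈ Finset.range (2 ^ (τ + 1)), h τ j t ≤
      γ * ((cnt F c θ τ T' : ℝ) * wt (ig c θ τ)) + γ * wt (ig c θ τ) := by
    intro τ _
    rw [Finset.sum_comm]
    have h3 : ∀ j ∈ Finset.range (2 ^ (τ + 1)), ∑ t ∈ Finset.range T, h τ j t ≤
        if (pst F c θ τ T' j).isSome = true then γ * wt (ig c θ τ) else 0 := by
      intro j _
      cases hx : pst F c θ τ T' j with
      | none => simp [h, hx]
      | some x =>
        simp only [h, hx, Option.elim_some, Option.isSome_some, if_true]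
        exact hF (sub c θ τ j x) T
    refine (Finset.sum_le_sum h3).trans ?_
    rw [← Finset.sum_filter, Finset.sum_const, nsmul_eq_mul]
    have h4 : (((Finset.range (2 ^ (τ + 1))).filter
        fun j => (pst F c θ τ T' j).isSome = true).card : ℝ) ≤ cnt F c θ τ T' + 1 := by
      exact_mod_cast started_le T'
    have h5 : 0 ≤ γ * wt (ig c θ τ) := mul_nonneg hγ (wt_pos _).le
    nlinarith
  have h3 : ∑ τ ∈ I, wt (ig c θ τ) ≤ wt θ.2.2.1 * wt (3 * c + 5) := by
    have e1 : ∀ τ ∈ I, wt (ig c θ τ) ≤ wt θ.2.2.1 * wt (3 * c + 5) / 2 * wt τ := by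
      intro τ _
      rw [← wt_add, ← wt_succ, ← wt_add, wt_le_wt, ig]
      omega
    refine (Finset.sum_le_sum e1).trans ?_
    rw [← Finset.mul_sum]
    have := sum_wt_le_two I
    have : 0 < wt θ.2.2.1 * wt (3 * c + 5) := by positivity
    nlinarith
  have h4 : ∑ τ ∈ I, (cnt F c θ τ T' : ℝ) * wt (ig c θ τ) ≤
      wt θ.2.2.1 * wt (3 * c + 5) + wt θ.2.2.1 := by
    rw [← Finset.sum_filter_add_sum_filter_not I (fun τ => valid a (iu θ τ) (is τ) T' = true),
      ← W_prom]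
    have e1 := hal.prom_lt
    have e2 := kraft_valid (S := S) hmono (θ := θ) (t := T')
      (I.filter (fun τ => valid a (iu θ τ) (is τ) T' = true)) (by
        intro τ hτ
        obtain ⟨h5, h6⟩ := Finset.mem_filter.1 hτ
        rw [List.mem_toFinset, mem_insts] at h5
        exact ⟨h5.1, h5.2, h6⟩)
    have e3 : ∑ τ ∈ I.filter (fun τ => valid a (iu θ τ) (is τ) T' = true),
        (cnt F c θ τ T' : ℝ) * wt (ig c θ τ) ≤
        ∑ τ ∈ I.filter (fun τ => valid a (iu θ τ) (is τ) T' = true),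
          wt θ.2.2.1 * wt (3 * c + 5) * wt (ip τ).length := by
      refine Finset.sum_le_sum fun τ _ => ?_
      rw [← wt_add, ← wt_ig]
      refine mul_le_mul_of_nonneg_right ?_ (wt_pos _).le
      exact_mod_cast cnt_le T'
    rw [← Finset.mul_sum] at e3
    have : 0 < wt θ.2.2.1 * wt (3 * c + 5) := by positivity
    nlinarith
  refine (Finset.sum_le_sum h1).trans ?_
  rw [Finset.sum_comm]
  refine (Finset.sum_le_sum h2).trans ?_
  rw [Finset.sum_add_distrib, ← Finset.mul_sum, ← Finset.mul_sum]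
  nlinarith [mul_le_mul_of_nonneg_left h3 hγ, mul_le_mul_of_nonneg_left h4 hγ]

theorem cost_G (hmono : Monotone fun t => (a t).length) (c k : ℕ) (hk : k ≤ 2 ^ (3 * c + 3))
    (θ : Par) (T : ℕ) : ∑ t ∈ Finset.range T, WR (S.G a c k (θ, t)).2 ≤
      (1 + 4 * k * wt (3 * c + 5)) * wt θ.2.2.1 := by
  induction k generalizing θ T with
  | zero =>
    have : ∀ t ∈ Finset.range T, WR (S.G a c 0 (θ, t)).2 = if t = θ.1 then wt θ.2.2.1 else 0 := by
      intro t _
      by_cases h : t = θ.1 <;> simp [G, base, eqb, h]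
    rw [Finset.sum_congr rfl this, Finset.sum_ite_eq']
    have := wt_pos θ.2.2.1
    split_ifs <;> simp [this.le]
  | succ k ih =>
    have hq := wt_pos (3 * c + 5)
    have hp := wt_pos θ.2.2.1
    refine (cost_next hmono (by positivity) (ih (by omega)) θ T).trans ?_
    refine mul_le_mul_of_nonneg_right ?_ hp.le
    have h1 : (k : ℝ) ≤ 2 ^ (3 * c + 3) := by exact_mod_cast (by omega : k ≤ 2 ^ (3 * c + 3))
    have h2 : 4 * (2 : ℝ) ^ (3 * c + 3) * wt (3 * c + 5) = 1 := by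
      rw [← wt_mul_pow (3 * c + 5)]; ring
    have h3 : 4 * (k : ℝ) * wt (3 * c + 5) ≤ 1 := by nlinarith
    push_cast
    nlinarith

end Setting

end Pool.Agent.P.MP_8f2c45_lc
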