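import Pool.Agent.P.MP_8f2c45_lc.Coding

/-!
The golden run construction in functional form: definitions and primitive recursiveness.
-/

namespace Pool.Agent.P.MP_8f2c45_lc

open Pool.Agent.Lib.Comp

/-- Parameters of a process: starting time, use, exponent of the goal, name. -/
abbrev Par := ℕ × ℕ × ℕ × ℕ

/-- Behaviour of the processes of one level: has it returned, and the new requests. -/
abbrev Lev := Par × ℕ → Bool × List Req

/-- The first `u` bits of the approximation do not change from `s` to `t`. -/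
def valid (a : ℕ → Str) (u s t : ℕ) : Bool :=
  (List.range (t + 1)).all fun t' => ltb t' s || eqb ((a t').take u) ((a s).take u)

/-- The program of an instance. -/
def ip (τ : ℕ) : Str := (Encodable.decode τ.unpair.1.unpair.1 : Option Str).getD []

/-- The use of an instance. -/
def im (τ : ℕ) : ℕ := τ.unpair.1.unpair.2

/-- The starting time of an instance. -/
def is (τ : ℕ) : ℕ := τ.unpair.2

/-- The use to be preserved for an instance. -/
def iu (θ : Par) (τ : ℕ) : ℕ := max θ.2.1 (im τ)

/-- The exponent of the portions of an instance. -/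
def ig (c : ℕ) (θ : Par) (τ : ℕ) : ℕ := θ.2.2.1 + (3 * c + 5) + (ip τ).length + (τ + 1)

/-- The parameters of the `j`-th portion, started at time `x`. -/
def sub (c : ℕ) (θ : Par) (τ j x : ℕ) : Par :=
  (x, iu θ τ, ig c θ τ, Nat.pair θ.2.2.2 (Nat.pair τ j))

/-- The starting time of the `j`-th portion, as seen at time `t`. -/
def pst (F : Lev) (c : ℕ) (θ : Par) (τ t j : ℕ) : Option ℕ :=
  Nat.rec (motive := fun _ => Option ℕ) (some (is τ))
    (fun j o => o.bind fun x => (List.range (t + 1)).find? fun t' => (F (sub c θ τ j x, t')).1) j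

/-- The number of completed portions. -/
def cnt (F : Lev) (c : ℕ) (θ : Par) (τ t : ℕ) : ℕ :=
  ((List.range (2 ^ (τ + 1))).filter fun j => (pst F c θ τ t (j + 1)).isSome).length

section prim
variable {α : Type*} [Primcodable α]

@[fun_prop] theorem pr_valid {a : ℕ → Str} (ha : Primrec a) {u s t : α → ℕ} (hu : Primrec u)
    (hs : Primrec s) (ht : Primrec t) : Primrec fun x => valid a (u x) (s x) (t x) := by
  unfold valid
  fun_prop

@[fun_prop] theorem pr_ip {τ : α → ℕ} (h : Primrec τ) : Primrec fun x => ip (τ x) := by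
  unfold ip
  fun_prop

@[fun_prop] theorem pr_im {τ : α → ℕ} (h : Primrec τ) : Primrec fun x => im (τ x) := by
  unfold im
  fun_prop

@[fun_prop] theorem pr_is {τ : α → ℕ} (h : Primrec τ) : Primrec fun x => is (τ x) := by
  unfold is
  fun_prop

@[fun_prop] theorem pr_iu {θ : α → Par} {τ : α → ℕ} (hθ : Primrec θ) (h : Primrec τ) :
    Primrec fun x => iu (θ x) (τ x) := by
  unfold iu
  fun_prop

@[fun_prop] theorem pr_ig {c : α → ℕ} {θ : α → Par} {τ : α → ℕ} (hc : Primrec c) (hθ : Primrec θ)
    (h : Primrec τ) : Primrec fun x => ig (c x) (θ x) (τ x) := by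
  unfold ig
  fun_prop

@[fun_prop] theorem pr_sub' {c τ j y : α → ℕ} {θ : α → Par} (hc : Primrec c) (hθ : Primrec θ)
    (h : Primrec τ) (hj : Primrec j) (hy : Primrec y) :
    Primrec fun x => sub (c x) (θ x) (τ x) (j x) (y x) := by
  unfold sub
  fun_prop

@[fun_prop] theorem pr_pst {F : α → Lev} {c τ t j : α → ℕ} {θ : α → Par}
    (hF : Primrec fun z : α × (Par × ℕ) => F z.1 z.2) (hc : Primrec c) (hθ : Primrec θ)
    (h : Primrec τ) (ht : Primrec t) (hj : Primrec j) :
    Primrec fun x => pst (F x) (c x) (θ x) (τ x) (t x) (j x) := by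
  unfold pst
  fun_prop

@[fun_prop] theorem pr_cnt {F : α → Lev} {c τ t : α → ℕ} {θ : α → Par}
    (hF : Primrec fun z : α × (Par × ℕ) => F z.1 z.2) (hc : Primrec c) (hθ : Primrec θ)
    (h : Primrec τ) (ht : Primrec t) :
    Primrec fun x => cnt (F x) (c x) (θ x) (τ x) (t x) := by
  unfold cnt
  fun_prop

end prim

/-- Looking up a value by the position of its key. -/
def lkv {β γ : Type*} [DecidableEq β] (keys : List β) (vals : List γ) (b : β) : Option γ :=
  vals[keys.idxOf b]?

@[fun_prop] theorem pr_lkv {α β γ : Type*} [Primcodable α] [Primcodable β] [Primcodable γ]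
    [DecidableEq β] {k : α → List β} {v : α → List γ} {b : α → β} (hk : Primrec k)
    (hv : Primrec v) (hb : Primrec b) : Primrec fun a => lkv (k a) (v a) (b a) :=
  pr_getElem? hv (Primrec.list_idxOf.comp hb hk)

theorem lkv_map {β γ : Type*} [DecidableEq β] (f : β → γ) {L : List β} {b : β} (h : b ∈ L) :
    lkv L (L.map f) b = some (f b) := by
  rw [lkv, List.getElem?_map, List.getElem?_idxOf h]
  rfl

namespace Setting

variable (S : Setting) (a : ℕ → Str)

/-- The instance `τ` is started by the process `θ`. -/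
def start (θ : Par) (τ : ℕ) : Bool :=
  eqb (Encodable.encode (ip τ)) τ.unpair.1.unpair.1 && leb θ.1 (is τ) && leb τ.unpair.1 (is τ) &&
    leb (im τ) (a (is τ)).length && (S.H ((a (is τ)).take (im τ)) (ip τ)).isSome &&
    (eqb (im τ) 0 || !(S.H ((a (is τ)).take (im τ - 1)) (ip τ)).isSome) &&
    (eqb (is τ) θ.1 || !(leb τ.unpair.1 (is τ - 1) && leb (im τ) (a (is τ - 1)).length &&
      eqb ((a (is τ - 1)).take (iu θ τ)) ((a (is τ)).take (iu θ τ))))

/-- The instances started by time `t`. -/
def insts (θ : Par) (t : ℕ) : List ℕ :=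
  (List.range ((t + 1) * (t + 1))).filter fun τ => leb (is τ) t && S.start a θ τ

/-- The promoted weight. -/
def prom (F : Lev) (c : ℕ) (θ : Par) (t : ℕ) : List ℕ :=
  ((S.insts a θ t).filter fun τ => !valid a (iu θ τ) (is τ) t).flatMap fun τ =>
    List.replicate (cnt F c θ τ t) (ig c θ τ)

/-- The process has returned. -/
def retS (F : Lev) (c : ℕ) (θ : Par) (t : ℕ) : Bool :=
  (List.range (t + 1)).any fun t' =>
    leb θ.1 t' && valid a θ.2.1 θ.1 t' && wle [θ.2.2.1] (S.prom a F c θ t')

/-- The new requests of the subprocesses. -/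
def newS (F : Lev) (c : ℕ) (θ : Par) (t : ℕ) : List Req :=
  cond (leb θ.1 t && valid a θ.2.1 θ.1 t && !S.retS a F c θ t)
    ((S.insts a θ t).flatMap fun τ => (List.range (2 ^ (τ + 1))).flatMap fun j =>
      (pst F c θ τ t j).elim [] fun x => (F (sub c θ τ j x, t)).2) []

/-- A process of the lowest level has returned. -/
def ret0 (c : ℕ) (θ : Par) (t : ℕ) : Bool :=
  (List.range (t + 1)).any fun t' =>
    ltb θ.1 t' && valid a θ.2.1 θ.1 t' && !eqb (a t') (a (t' - 1)) &&
      leb (Nat.pair θ.2.2.2 θ.2.1) (a t').length && (upto t').any fun p =>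
        eqb (S.H0 t' p) (some (List.replicate (Nat.pair θ.2.2.2 θ.2.1) false)) &&
          leb p.length (θ.2.2.1 + 2 * c)

/-- The lowest level. -/
def base (c : ℕ) : Lev := fun x => (S.ret0 a c x.1 x.2,
  cond (eqb x.2 x.1.1) [(x.1.2.2.1, List.replicate (Nat.pair x.1.2.2.2 x.1.2.1) false)] [])

/-- The next level. -/
def next (F : Lev) (c : ℕ) : Lev := fun x => (S.retS a F c x.1 x.2, S.newS a F c x.1 x.2)

/-- All levels. -/
def G (c : ℕ) : ℕ → Lev
  | 0 => S.base a c
  | k + 1 => S.next a (G c k) c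

section prim
variable {α : Type*} [Primcodable α] {a}

@[fun_prop] theorem pr_start (ha : Primrec a) {θ : α → Par} {τ : α → ℕ} (hθ : Primrec θ)
    (h : Primrec τ) : Primrec fun x => S.start a (θ x) (τ x) := by
  unfold start
  fun_prop

@[fun_prop] theorem pr_insts (ha : Primrec a) {θ : α → Par} {t : α → ℕ} (hθ : Primrec θ)
    (h : Primrec t) : Primrec fun x => S.insts a (θ x) (t x) := by
  unfold insts
  fun_prop

@[fun_prop] theorem pr_prom (ha : Primrec a) {F : α → Lev} {c t : α → ℕ} {θ : α → Par}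
    (hF : Primrec fun z : α × (Par × ℕ) => F z.1 z.2) (hc : Primrec c) (hθ : Primrec θ)
    (ht : Primrec t) : Primrec fun x => S.prom a (F x) (c x) (θ x) (t x) := by
  unfold prom
  fun_prop

@[fun_prop] theorem pr_retS (ha : Primrec a) {F : α → Lev} {c t : α → ℕ} {θ : α → Par}
    (hF : Primrec fun z : α × (Par × ℕ) => F z.1 z.2) (hc : Primrec c) (hθ : Primrec θ)
    (ht : Primrec t) : Primrec fun x => S.retS a (F x) (c x) (θ x) (t x) := by
  unfold retS
  fun_prop

@[fun_prop] theorem pr_newS (ha : Primrec a) {F : α → Lev} {c t : α → ℕ} {θ : α → Par}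
    (hF : Primrec fun z : α × (Par × ℕ) => F z.1 z.2) (hc : Primrec c) (hθ : Primrec θ)
    (ht : Primrec t) : Primrec fun x => S.newS a (F x) (c x) (θ x) (t x) := by
  unfold newS
  fun_prop

@[fun_prop] theorem pr_base (ha : Primrec a) {c : α → ℕ} {z : α → Par × ℕ} (hc : Primrec c)
    (hz : Primrec z) : Primrec fun x => S.base a (c x) (z x) := by
  unfold base ret0
  fun_prop

@[fun_prop] theorem pr_next (ha : Primrec a) {F : α → Lev} {c : α → ℕ} {z : α → Par × ℕ}
    (hF : Primrec fun z : α × (Par × ℕ) => F z.1 z.2) (hc : Primrec c) (hz : Primrec z) :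
    Primrec fun x => S.next a (F x) (c x) (z x) := by
  unfold next
  fun_prop

end prim

end Setting

theorem pst_succ {F : Lev} {c : ℕ} {θ : Par} {τ t j y : ℕ} : pst F c θ τ t (j + 1) = some y ↔
    ∃ x, pst F c θ τ t j = some x ∧ y ≤ t ∧ (F (sub c θ τ j x, y)).1 = true ∧
      ∀ y' < y, (F (sub c θ τ j x, y')).1 = false := by
  have : pst F c θ τ t (j + 1) = (pst F c θ τ t j).bind fun x =>
    (List.range (t + 1)).find? fun t' => (F (sub c θ τ j x, t')).1 := rfl
  rw [this, Option.bind_eq_some_iff]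
  simp only [List.find?_range_eq_some, List.mem_range, Bool.not_eq_true', Nat.lt_succ_iff]
  tauto

theorem pst_le {F : Lev} {c : ℕ} {θ : Par} {τ t j y : ℕ} (h0 : is τ ≤ t)
    (h : pst F c θ τ t j = some y) : y ≤ t := by
  cases j with
  | zero => obtain rfl := Option.some.inj h; exact h0
  | succ j => obtain ⟨_, -, h1, -⟩ := pst_succ.1 h; exact h1

theorem pst_congr {F F' : Lev} {c : ℕ} {θ : Par} {τ t j : ℕ} (h0 : is τ ≤ t)
    (h : ∀ i < j, ∀ x ≤ t, ∀ y ≤ t, F (sub c θ τ i x, y) = F' (sub c θ τ i x, y)) :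
    pst F c θ τ t j = pst F' c θ τ t j := by
  induction j with
  | zero => rfl
  | succ j ih =>
    have e : ∀ F : Lev, pst F c θ τ t (j + 1) = (pst F c θ τ t j).bind fun x =>
      (List.range (t + 1)).find? fun t' => (F (sub c θ τ j x, t')).1 := fun _ => rfl
    rw [e, e, ← ih fun i hi => h i (by omega)]
    cases hx : pst F c θ τ t j with
    | none => rfl
    | some x =>
      simp only [Option.bind_some]
      apply List.find?_congr
      intro y hy
      rw [h j (by omega) x (pst_le h0 hx) y (by simpa [Nat.lt_succ_iff] using hy)]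

namespace Setting

variable {S : Setting} {a : ℕ → Str}

theorem mem_insts {θ : Par} {t τ : ℕ} : τ ∈ S.insts a θ t ↔ is τ ≤ t ∧ S.start a θ τ = true := by
  simp only [insts, List.mem_filter, List.mem_range, Bool.and_eq_true, leb_true,
    and_iff_right_iff_imp]
  rintro ⟨h1, h2⟩
  simp only [start, Bool.and_eq_true, leb_true] at h2
  have h3 : τ.unpair.1 ≤ is τ := h2.1.1.1.1.2
  have h4 := Nat.pair_lt_max_add_one_sq τ.unpair.1 τ.unpair.2
  rw [Nat.pair_unpair] at h4
  refine h4.trans_le ?_
  rw [sq]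
  have : max τ.unpair.1 τ.unpair.2 ≤ t := max_le (h3.trans h1) h1
  exact Nat.mul_le_mul (by omega) (by omega)

theorem next_congr {F F' : Lev} {c : ℕ} {θ : Par} {t : ℕ}
    (h : ∀ τ < (t + 1) * (t + 1), ∀ i < 2 ^ (τ + 1), ∀ x ≤ t, ∀ y ≤ t,
      F (sub c θ τ i x, y) = F' (sub c θ τ i x, y)) :
    S.next a F c (θ, t) = S.next a F' c (θ, t) := by
  have h1 : ∀ t' ≤ t, ∀ τ ∈ S.insts a θ t', ∀ j ≤ 2 ^ (τ + 1),
      pst F c θ τ t' j = pst F' c θ τ t' j := by
    intro t' ht' τ hτ j hj
    have h2 : τ < (t + 1) * (t + 1) :=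
      (List.mem_range.1 (List.mem_filter.1 hτ).1).trans_le (Nat.mul_le_mul (by omega) (by omega))
    exact pst_congr (mem_insts.1 hτ).1 fun i hi x hx y hy =>
      h τ h2 i (by omega) x (by omega) y (by omega)
  have h2 : ∀ t' ≤ t, S.prom a F c θ t' = S.prom a F' c θ t' := by
    intro t' ht'
    unfold prom
    apply List.flatMap_congr
    intro τ hτ
    unfold cnt
    congr 2
    apply List.filter_congr
    intro j hj
    rw [h1 t' ht' τ (List.mem_filter.1 hτ).1 _ (List.mem_range.1 hj)]
  have h3 : S.retS a F c θ t = S.retS a F' c θ t := by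
    unfold retS
    rw [Bool.eq_iff_iff, List.any_eq_true, List.any_eq_true]
    refine exists_congr fun t' => and_congr_right fun ht' => ?_
    rw [h2 t' (by simpa [Nat.lt_succ_iff] using ht')]
  unfold next newS
  simp only
  rw [h3]
  congr 2
  apply List.flatMap_congr
  intro τ hτ
  apply List.flatMap_congr
  intro j hj
  rw [← h1 t le_rfl τ hτ j (List.mem_range.1 hj).le]
  cases hx : pst F c θ τ t j with
  | none => rfl
  | some x =>
    simp only [Option.elim_some]
    rw [h τ (List.mem_range.1 (List.mem_filter.1 hτ).1) j (List.mem_range.1 hj) x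
      (pst_le (mem_insts.1 hτ).1 hx) t le_rfl]

/-- The arguments of the recursive calls. -/
def keys (b : ℕ × ℕ × Par × ℕ) : List (ℕ × ℕ × Par × ℕ) :=
  cond (eqb b.2.1 0) [] ((List.range ((b.2.2.2 + 1) * (b.2.2.2 + 1))).flatMap fun τ =>
    (List.range (2 ^ (τ + 1))).flatMap fun i => (List.range (b.2.2.2 + 1)).flatMap fun x =>
      (List.range (b.2.2.2 + 1)).map fun y => (b.1, b.2.1 - 1, sub b.1 b.2.2.1 τ i x, y))

@[fun_prop] theorem pr_keys {α : Type*} [Primcodable α] {b : α → ℕ × ℕ × Par × ℕ}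
    (hb : Primrec b) : Primrec fun x => keys (b x) := by
  unfold keys
  fun_prop

set_option synthInstance.maxSize 1024 in
/-- The table of the values of the recursive calls. -/
def tab (b : ℕ × ℕ × Par × ℕ) (v : List (Bool × List Req)) : Lev := fun x =>
  (lkv (keys b) v (b.1, b.2.1 - 1, x)).getD (false, [])

@[fun_prop] theorem pr_tab {α : Type*} [Primcodable α] {b : α → ℕ × ℕ × Par × ℕ}
    {v : α → List (Bool × List Req)} {z : α → Par × ℕ} (hb : Primrec b) (hv : Primrec v)
    (hz : Primrec z) : Primrec fun x => tab (b x) (v x) (z x) := by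
  unfold tab
  fun_prop

/-- The step of the recursion. -/
def gfun (S : Setting) (a : ℕ → Str) (b : ℕ × ℕ × Par × ℕ) (v : List (Bool × List Req)) :
    Option (Bool × List Req) :=
  some (cond (eqb b.2.1 0) (S.base a b.1 b.2.2) (S.next a (tab b v) b.1 b.2.2))

theorem pr_gfun (S : Setting) (ha : Primrec a) : Primrec₂ (S.gfun a) := by
  have : Primrec fun z : (ℕ × ℕ × Par × ℕ) × List (Bool × List Req) => S.gfun a z.1 z.2 := by
    unfold gfun
    fun_prop
  exact this

set_option synthInstance.maxSize 1024 in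
theorem pr_G' (S : Setting) (ha : Primrec a) :
    Primrec fun b : ℕ × ℕ × Par × ℕ => S.G a b.1 b.2.1 b.2.2 := by
  refine Primrec.nat_omega_rec' _ (m := fun b => b.2.1) (l := keys) (g := S.gfun a)
    (by fun_prop) (pr_keys Primrec.id) (S.pr_gfun ha) ?_ ?_
  · rintro ⟨c, k, θ, t⟩ b' hb'
    cases k with
    | zero => simp [keys, eqb] at hb'
    | succ k =>
      simp only [keys, eqb, Nat.add_eq_zero_iff, one_ne_zero, and_false, decide_false, cond_false,
        List.mem_flatMap, List.mem_map] at hb'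
      obtain ⟨_, _, _, _, _, _, _, _, rfl⟩ := hb'
      simp
  · rintro ⟨c, k, θ, t⟩
    cases k with
    | zero => rfl
    | succ k =>
      have e : eqb (k + 1) 0 = false := by simp
      simp only [gfun, e, cond_false, G]
      refine congrArg some (next_congr fun τ hτ i hi x hx y hy => ?_)
      unfold tab
      rw [lkv_map (fun b : ℕ × ℕ × Par × ℕ => S.G a b.1 b.2.1 b.2.2)]
      · rfl
      · simp only [keys, e, cond_false, List.mem_flatMap, List.mem_map, List.mem_range]
        exact ⟨τ, hτ, i, hi, x, by omega, y, by omega, rfl⟩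

theorem pr_G (S : Setting) (ha : Primrec a) {α : Type*} [Primcodable α] {c k : α → ℕ}
    {z : α → Par × ℕ} (hc : Primrec c) (hk : Primrec k) (hz : Primrec z) :
    Primrec fun x => S.G a (c x) (k x) (z x) :=
  (S.pr_G' ha).comp (hc.pair (hk.pair hz))

end Setting

end Pool.Agent.P.MP_8f2c45_lc
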