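import Pool.Agent.P.MP_8f2c45_lc.Normal

/-!
The Kraft–Chaitin machine.
-/

namespace Pool.Agent.P.MP_8f2c45_lc

open Pool.Agent.Lib.Comp

/-- Positions of the ones of a string, starting from one. -/
def ones (p : Str) : List ℕ :=
  p.foldr (fun b r => cond b [1] [] ++ r.map fun l => l + 1) []

@[fun_prop] theorem pr_ones {α : Type*} [Primcodable α] {f : α → Str} (hf : Primrec f) :
    Primrec (fun x => ones (f x)) := by
  unfold ones
  fun_prop

/-- The dyadic rational with binary expansion `0.p`. -/
noncomputable def val (p : Str) : ℝ := W (ones p)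

theorem val_nil : val [] = 0 := rfl

theorem val_cons (b : Bool) (p : Str) : val (b :: p) = cond b (1 / 2) 0 + val p / 2 := by
  have : ones (b :: p) = cond b [1] [] ++ (ones p).map fun l => l + 1 := rfl
  rw [val, this, W_append, W_map_add, val]
  cases b <;> simp [wt] <;> ring

theorem val_bound (p : Str) : 0 ≤ val p ∧ val p + wt p.length ≤ 1 := by
  induction p with
  | nil => simp [val_nil]
  | cons b p ih =>
    rw [val_cons, List.length_cons, wt_succ]
    cases b <;> simp <;> constructor <;> linarith [ih.1, ih.2]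

theorem val_append (p t : Str) : val (p ++ t) = val p + wt p.length * val t := by
  induction p with
  | nil => simp [val_nil]
  | cons b p ih => rw [List.cons_append, val_cons, val_cons, ih, List.length_cons, wt_succ]; ring

theorem val_isPrefix {p q : Str} (h : p <+: q) :
    val p ≤ val q ∧ val q + wt q.length ≤ val p + wt p.length := by
  obtain ⟨t, rfl⟩ := h
  rw [val_append, List.length_append, wt_add]
  have := val_bound t
  have h := wt_pos p.length
  constructor <;> nlinarith [this.1, this.2]

theorem val_zeros (n : ℕ) : val (List.replicate n false) = 0 := by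
  induction n with
  | zero => rfl
  | succ n ih => rw [List.replicate_succ, val_cons, ih]; simp

theorem exists_val (n : ℕ) : ∀ x : ℝ, 0 ≤ x → x + wt n ≤ 1 →
    ∃ p : Str, p.length = n ∧ x ≤ val p ∧ val p ≤ x + wt n := by
  induction n with
  | zero =>
    intro x h0 h1
    refine ⟨[], rfl, ?_, ?_⟩ <;> simp [val_nil] at * <;> linarith
  | succ n ih =>
    intro x h0 h1
    rw [wt_succ] at h1 ⊢
    by_cases c1 : 2 * x + wt n ≤ 1
    · obtain ⟨p, hp, h2, h3⟩ := ih (2 * x) (by linarith) c1
      refine ⟨false :: p, by simp [hp], ?_, ?_⟩ <;> rw [val_cons] <;> simp <;> linarith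
    · by_cases c2 : 1 ≤ 2 * x
      · obtain ⟨p, hp, h2, h3⟩ := ih (2 * x - 1) (by linarith) (by linarith)
        refine ⟨true :: p, by simp [hp], ?_, ?_⟩ <;> rw [val_cons] <;> simp <;> linarith
      · refine ⟨true :: List.replicate n false, by simp, ?_, ?_⟩ <;> rw [val_cons, val_zeros] <;>
          simp <;> linarith

/-- Requests: a length and a string. -/
abbrev Req := ℕ × Str

/-- The weight of a list of requests. -/
noncomputable def WR (L : List Req) : ℝ := W (L.map Prod.fst)

@[simp] theorem WR_nil : WR [] = 0 := rfl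

@[simp] theorem WR_append (L L' : List Req) : WR (L ++ L') = WR L + WR L' := by simp [WR]

@[simp] theorem WR_cons (a : Req) (L : List Req) : WR (a :: L) = wt a.1 + WR L := by simp [WR]

theorem WR_nonneg (L : List Req) : 0 ≤ WR L := W_nonneg _

theorem WR_flatMap {β : Type*} (L : List β) (f : β → List Req) :
    WR (L.flatMap f) = (L.map fun b => WR (f b)).sum := by
  induction L with
  | nil => simp
  | cons a L ih => simp [ih]

theorem WR_take_mono (L : List Req) {i j : ℕ} (h : i ≤ j) : WR (L.take i) ≤ WR (L.take j) :=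
  W_sublist ((List.take_sublist_take_left h).map _)

/-- The test that the interval of `p` lies in the interval given to the `j`-th request. -/
def kcAt (L : List Req) (p : Str) (j : ℕ) : Option Str :=
  (L[j]?).bind fun r => cond (eqb p.length (r.1 + 1) &&
    (wle ((L.take j).map fun x => x.1) (ones p) &&
      wle (p.length :: ones p) ((L.take (j + 1)).map fun x => x.1))) (some r.2) none

/-- The Kraft–Chaitin machine of a list of requests. -/
def kc (L : List Req) (p : Str) : Option Str := (List.range L.length).findSome? (kcAt L p)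

@[fun_prop] theorem pr_kc {α : Type*} [Primcodable α] {f : α → List Req} {g : α → Str}
    (hf : Primrec f) (hg : Primrec g) : Primrec (fun x => kc (f x) (g x)) := by
  unfold kc kcAt
  fun_prop

theorem kcAt_eq {L : List Req} {p y : Str} {j : ℕ} : kcAt L p j = some y ↔
    ∃ l, L[j]? = some (l, y) ∧ p.length = l + 1 ∧ WR (L.take j) ≤ val p ∧
      val p + wt p.length ≤ WR (L.take (j + 1)) := by
  unfold kcAt
  rw [Option.bind_eq_some_iff]
  constructor
  · rintro ⟨⟨l, y'⟩, h1, h2⟩
    rw [Bool.cond_eq_ite] at h2
    split_ifs at h2 with h3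
    simp only [Bool.and_eq_true, eqb_true, wle_true, W_cons] at h3
    obtain rfl : y' = y := by simpa using h2
    exact ⟨l, h1, h3.1, h3.2.1, by rw [add_comm]; exact h3.2.2⟩
  · rintro ⟨l, h1, h2, h3, h4⟩
    refine ⟨(l, y), h1, ?_⟩
    rw [Bool.cond_eq_ite, if_pos]
    simp only [Bool.and_eq_true, eqb_true, wle_true, W_cons]
    exact ⟨h2, h3, by rw [add_comm]; exact h4⟩

theorem kcAt_unique {L : List Req} {p q y z : Str} {i j : ℕ} (hp : kcAt L p i = some y)
    (hq : kcAt L q j = some z) (h : p <+: q) : i = j := by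
  obtain ⟨l, -, -, h1, h2⟩ := kcAt_eq.1 hp
  obtain ⟨l', -, -, h3, h4⟩ := kcAt_eq.1 hq
  obtain ⟨h5, h6⟩ := val_isPrefix h
  have := wt_pos q.length
  rcases lt_trichotomy i j with c | c | c
  · have := WR_take_mono L (Nat.succ_le_of_lt c)
    simp only [Nat.succ_eq_add_one] at this
    linarith
  · exact c
  · have := WR_take_mono L (Nat.succ_le_of_lt c)
    simp only [Nat.succ_eq_add_one] at this
    linarith

theorem kc_eq {L : List Req} {p y : Str} : kc L p = some y ↔ ∃ j, kcAt L p j = some y := by
  constructor
  · intro h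
    obtain ⟨j, -, h⟩ := List.exists_of_findSome?_eq_some h
    exact ⟨j, h⟩
  · rintro ⟨j, h⟩
    have : (kc L p).isSome := by
      unfold kc
      rw [List.findSome?_isSome_iff]
      obtain ⟨l, h1, -⟩ := kcAt_eq.1 h
      exact ⟨j, List.mem_range.2 (List.getElem?_eq_some_iff.1 h1).1, by simp [h]⟩
    obtain ⟨y', hy'⟩ := Option.isSome_iff_exists.1 this
    obtain ⟨j', -, h'⟩ := List.exists_of_findSome?_eq_some hy'
    obtain rfl := kcAt_unique h h' List.prefix_rfl
    rw [hy', ← h, h']

theorem kc_mono {L L' : List Req} {p y : Str} (hL : L <+: L') (h : kc L p = some y) :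
    kc L' p = some y := by
  obtain ⟨j, h⟩ := kc_eq.1 h
  obtain ⟨l, h1, h2, h3, h4⟩ := kcAt_eq.1 h
  obtain ⟨t, rfl⟩ := hL
  have hj := (List.getElem?_eq_some_iff.1 h1).1
  refine kc_eq.2 ⟨j, kcAt_eq.2 ⟨l, ?_, h2, ?_, ?_⟩⟩
  · rw [List.getElem?_append_left hj, h1]
  · rwa [List.take_append_of_le_length hj.le]
  · rwa [List.take_append_of_le_length hj]

theorem kc_free {L : List Req} {p q y z : Str} (hp : kc L p = some y) (hq : kc L q = some z)
    (h : p <+: q) : p = q := by
  obtain ⟨i, hp⟩ := kc_eq.1 hp
  obtain ⟨j, hq⟩ := kc_eq.1 hq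
  obtain rfl := kcAt_unique hp hq h
  obtain ⟨l, h1, h2, -⟩ := kcAt_eq.1 hp
  obtain ⟨l', h3, h4, -⟩ := kcAt_eq.1 hq
  rw [h1] at h3
  obtain rfl : l = l' := by simpa using congrArg (fun o => o.map Prod.fst) h3
  exact h.eq_of_length (by omega)

theorem kc_exists {L : List Req} {l : ℕ} {y : Str} (h : (l, y) ∈ L) (hW : WR L ≤ 1) :
    ∃ p : Str, p.length = l + 1 ∧ kc L p = some y := by
  obtain ⟨j, hj⟩ := List.mem_iff_getElem?.1 h
  have h1 : WR (L.take (j + 1)) = WR (L.take j) + wt l := by
    rw [List.take_add_one, hj]; simp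
  have h2 : WR (L.take (j + 1)) ≤ 1 := (W_sublist ((List.take_sublist _ _).map _)).trans hW
  have h3 := wt_succ l
  have h4 := wt_pos l
  obtain ⟨p, hp, h5, h6⟩ := exists_val (l + 1) (WR (L.take j)) (WR_nonneg _) (by linarith)
  exact ⟨p, hp, kc_eq.2 ⟨j, kcAt_eq.2 ⟨l, hj, hp, h5, by rw [hp]; linarith⟩⟩⟩

/-! ### Streams of requests -/

theorem sum_map_range {n : ℕ} {f g : ℕ → ℝ} (h : ∀ s < n, f s = g s) :
    ((List.range n).map f).sum = ∑ s ∈ Finset.range n, g s := by
  rw [← Finset.sum_congr rfl fun s hs => h s (Finset.mem_range.1 hs),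
    ← List.sum_toFinset _ List.nodup_range, List.toFinset_range]

/-- All the requests issued so far, lengthened by `d`. -/
def stream (d : ℕ) (batch : Str → List Req) (α : Str) : List Req :=
  Nat.rec (motive := fun _ => List Req) []
    (fun s r => r ++ (batch (α.take s)).map fun x => (x.1 + d, x.2)) (α.length + 1)

theorem stream_eq (d : ℕ) (batch : Str → List Req) (α : Str) : stream d batch α =
    (List.range (α.length + 1)).flatMap fun s => (batch (α.take s)).map fun x => (x.1 + d, x.2) := by
  unfold stream
  induction α.length + 1 with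
  | zero => rfl
  | succ n ih => rw [List.range_succ, List.flatMap_append, ← ih]; simp

theorem stream_mono (d : ℕ) (batch : Str → List Req) {α α' : Str} (h : α <+: α') :
    stream d batch α <+: stream d batch α' := by
  rw [stream_eq, stream_eq]
  obtain ⟨t, rfl⟩ := h
  have : (α ++ t).length + 1 = (α.length + 1) + t.length := by simp; omega
  rw [this, List.range_add (n := α.length + 1), List.flatMap_append]
  have e : (List.range (α.length + 1)).flatMap (fun s => (batch (α.take s)).map
        fun x : Req => ((x.1 + d, x.2) : Req)) =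
      (List.range (α.length + 1)).flatMap (fun s => (batch ((α ++ t).take s)).map
        fun x : Req => ((x.1 + d, x.2) : Req)) := by
    apply List.flatMap_congr
    intro s hs
    rw [List.take_append_of_le_length (by simpa [Nat.lt_succ_iff] using hs)]
  rw [e]
  exact List.prefix_append _ _

theorem stream_computable {β : Type*} [Primcodable β] (d : ℕ) {batch : β → Str → List Req}
    (hb : Computable fun x : β × Str => batch x.1 x.2) :
    Computable fun x : β × Str => stream d (batch x.1) x.2 := by
  unfold stream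
  refine Computable.nat_rec (f := fun x : β × Str => x.2.length + 1)
    (h := fun x p => p.2 ++ (batch x.1 (x.2.take p.1)).map fun x => (x.1 + d, x.2))
    (Primrec.to_comp (by fun_prop)) (Computable.const _) ?_
  have h1 : Primrec fun y : List Req × List Req => y.1 ++ y.2.map fun x => (x.1 + d, x.2) := by
    fun_prop
  have h2 : Computable fun z : (β × Str) × ℕ × List Req => batch z.1.1 (z.1.2.take z.2.1) :=
    hb.comp (g := fun z : (β × Str) × ℕ × List Req => (z.1.1, z.1.2.take z.2.1))
      (Primrec.to_comp (by fun_prop))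
  exact h1.to_comp.comp ((Computable.snd.comp Computable.snd).pair h2)

theorem mem_stream (d : ℕ) (batch : Str → List Req) (B : ℕ → Bool) {n l : ℕ} {y : Str}
    (h : (l, y) ∈ batch (pre B n)) : (l + d, y) ∈ stream d batch (pre B n) := by
  rw [stream_eq]
  simp only [List.mem_flatMap, List.mem_range, List.mem_map, length_pre]
  exact ⟨n, by omega, (l, y), by rwa [take_pre B le_rfl], rfl⟩

theorem WR_stream (d : ℕ) (batch : Str → List Req) (B : ℕ → Bool) (n : ℕ) :
    WR (stream d batch (pre B n)) = (∑ s ∈ Finset.range (n + 1), WR (batch (pre B s))) * wt d := by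
  rw [stream_eq, WR_flatMap, length_pre, Finset.sum_mul, sum_map_range]
  intro s hs
  rw [take_pre B (by omega), WR, WR, ← W_map_add, List.map_map, List.map_map]
  rfl

end Pool.Agent.P.MP_8f2c45_lc
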