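import Pool.Agent.P.MP_8f2c45_lc.Coding

/-!
Computable paths along which a time-bounded machine has small mass.
-/

namespace Pool.Agent.P.MP_8f2c45_lc

open Pool.Agent.Lib.Comp

theorem comp_list_map {α β γ : Type*} [Primcodable α] [Primcodable β] [Primcodable γ]
    {l : α → List β} {f : α → β → γ} (hl : Computable l)
    (hf : Computable fun x : α × β => f x.1 x.2) : Computable fun a => (l a).map (f a) := by
  have h1 : Computable fun z : α × ℕ × List γ => ((l z.1)[z.2.1]?).map (f z.1) :=
    Computable.option_map
      (Computable.list_getElem?.comp (hl.comp Computable.fst) (Computable.fst.comp Computable.snd))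
      (Computable₂.comp (f := f) hf (Computable.fst.comp Computable.fst) Computable.snd)
  have h2 : Computable fun z : α × ℕ × List γ =>
      z.2.2 ++ (((l z.1)[z.2.1]?).map (f z.1)).toList :=
    Computable.list_append.comp (Computable.snd.comp Computable.snd)
      (Primrec.optionToList.to_comp.comp h1)
  have h3 := Computable.nat_rec (f := fun a => (l a).length) (g := fun _ => ([] : List γ))
    (h := fun a p => p.2 ++ (((l a)[p.1]?).map (f a)).toList) (Computable.list_length.comp hl)
    (Computable.const _) h2
  refine h3.of_eq fun a => ?_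
  have : ∀ n, (Nat.rec (motive := fun _ => List γ) []
      (fun y IH => IH ++ (((l a)[y]?).map (f a)).toList) n) = ((l a).take n).map (f a) := by
    intro n
    induction n with
    | zero => simp
    | succ n ih =>
      rw [List.take_add_one, List.map_append, ← ih]
      show _ ++ (((l a)[n]?).map (f a)).toList = _
      cases (l a)[n]? <;> rfl
  simp only [this, List.take_length]

theorem length_upto (n : ℕ) : (upto n).length ≤ 2 ^ (n + 1) := by
  have : ∀ n, ((List.range n).flatMap strs).length + 1 = 2 ^ n := by
    intro n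
    induction n with
    | zero => rfl
    | succ n ih =>
      rw [List.range_succ, List.flatMap_append, List.length_append]
      simp only [List.flatMap_singleton, length_strs]
      omega
  have := this (n + 1)
  unfold upto
  omega

theorem four_mul_le_pow (i : ℕ) (hi : 4 ≤ i) : 4 * i ≤ 2 ^ i := by
  induction i, hi using Nat.le_induction with
  | base => norm_num
  | succ n hn ih => rw [pow_succ]; omega

/-- Requests for all initial segments of the given strings. -/
def allPre (n : ℕ) (L : List Str) : List Req :=
  L.flatMap fun σ : Str => (List.range (σ.length + 1)).map fun m => (3 * n + 3, σ.take m)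

theorem pr_allPre : Primrec fun x : ℕ × List Str => allPre x.1 x.2 := by
  unfold allPre
  fun_prop

namespace Setting

variable (S : Setting)

/-- The string `y` is `e`-deep for the clock `T`. -/
def DeepAt (T : ℕ → ℕ) (e : ℕ) (y : Str) : Prop :=
  ∀ p, S.H0 (T y.length) p = some y → S.KH emptyOracle y + e ≤ p.length

variable {S} in
theorem DeepAt.mono {T T' : ℕ → ℕ} {e e' : ℕ} {y : Str} (h : S.DeepAt T' e' y)
    (hT : T y.length ≤ T' y.length) (he : e ≤ e') : S.DeepAt T e y := fun p hp => by
  have := h p (H0_mono hT hp)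
  omega

/-- One block of the light path. -/
def lstep (t i : ℕ) (σ : Str) : Str :=
  σ ++ ((strs (2 ^ i)).find? fun v => wle (S.ms t fun y => isPre (σ ++ v) y) [2 ^ i]).getD []

theorem pr_lstep : Primrec fun x : ℕ × ℕ × Str => S.lstep x.1 x.2.1 x.2.2 := by
  unfold lstep
  fun_prop

theorem lstep_spec (t i : ℕ) (σ : Str) : σ <+: S.lstep t i σ ∧
    (S.lstep t i σ).length = σ.length + 2 ^ i ∧
    W (S.ms t fun y => isPre (S.lstep t i σ) y) ≤ wt (2 ^ i) := by
  have h1 := sum_W_ms_le_one (S := S) (strs (2 ^ i)).toFinset (fun _ => t)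
    (fun v y => isPre (σ ++ v) y) (by
      intro a ha b hb y h1 h2
      rw [List.mem_toFinset, mem_strs] at ha hb
      have := (List.prefix_of_prefix_length_le (isPre_true.1 h1) (isPre_true.1 h2)
        (by simp [ha, hb])).eq_of_length (by simp [ha, hb])
      simpa using this)
  obtain ⟨v, hv, h2⟩ := Finset.exists_le_of_sum_le (s := (strs (2 ^ i)).toFinset)
    (f := fun v => W (S.ms t fun y => isPre (σ ++ v) y)) (g := fun _ => wt (2 ^ i))
    ⟨List.replicate (2 ^ i) false, by simp⟩ (by
      rw [Finset.sum_const, List.toFinset_card_of_nodup (nodup_strs _), length_strs, nsmul_eq_mul]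
      push_cast
      rw [mul_comm, wt_mul_pow]
      exact h1)
  have h3 : ((strs (2 ^ i)).find? fun v =>
      wle (S.ms t fun y => isPre (σ ++ v) y) [2 ^ i]).isSome := by
    rw [List.find?_isSome]
    exact ⟨v, List.mem_toFinset.1 hv, by simpa using h2⟩
  obtain ⟨u, hu⟩ := Option.isSome_iff_exists.1 h3
  unfold lstep
  rw [hu, Option.getD_some]
  refine ⟨List.prefix_append _ _, ?_, by simpa using List.find?_some hu⟩
  rw [List.length_append, mem_strs.1 (List.mem_of_find?_eq_some hu)]

/-- The light path from `Y`. -/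
def lp (T : ℕ → ℕ) (Y : Str) (i : ℕ) : Str :=
  Nat.rec (motive := fun _ => Str) Y (fun i σ => S.lstep (T (σ.length + 3 * 2 ^ i)) i σ) i

theorem lp_succ (T : ℕ → ℕ) (Y : Str) (i : ℕ) : S.lp T Y (i + 1) =
    S.lstep (T ((S.lp T Y i).length + 3 * 2 ^ i)) i (S.lp T Y i) := rfl

theorem lp_computable {T : ℕ → ℕ} (hT : Computable T) :
    Computable fun x : Str × ℕ => S.lp T x.1 x.2 := by
  have h1 : Computable fun z : (Str × ℕ) × ℕ × Str => T (z.2.2.length + 3 * 2 ^ z.2.1) :=
    hT.comp (Primrec.to_comp (by fun_prop))
  have h2 : Computable fun z : (Str × ℕ) × ℕ × Str =>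
      S.lstep (T (z.2.2.length + 3 * 2 ^ z.2.1)) z.2.1 z.2.2 :=
    Computable₂.comp (f := fun t (y : ℕ × Str) => S.lstep t y.1 y.2) S.pr_lstep.to_comp h1
      Computable.snd
  exact Computable.nat_rec (h := fun _ p => S.lstep (T (p.2.length + 3 * 2 ^ p.1)) p.1 p.2)
    Computable.snd Computable.fst h2

theorem length_lp (T : ℕ → ℕ) (Y : Str) (i : ℕ) : (S.lp T Y i).length + 1 = Y.length + 2 ^ i := by
  induction i with
  | zero => rfl
  | succ i ih => rw [lp_succ, (S.lstep_spec _ _ _).2.1, pow_succ]; omega

theorem lp_mono (T : ℕ → ℕ) (Y : Str) {i j : ℕ} (h : i ≤ j) : S.lp T Y i <+: S.lp T Y j := by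
  induction h with
  | refl => exact List.prefix_rfl
  | step _ ih => exact ih.trans (S.lstep_spec _ _ _).1

theorem light {T : ℕ → ℕ} (hT : Computable T) (hm : Monotone T) (e : ℕ) :
    ∃ D : ℕ → ℕ, Computable D ∧ ∀ Y : Str, ∃ Z : ℕ → Bool, Computable Z ∧ Y = pre Z Y.length ∧
      ∀ m, D Y.length ≤ m → S.DeepAt T e (pre Z m) := by
  have hlp := S.lp_computable hT
  have h1 : Computable fun n => (upto n).map fun Y => S.lp T Y n :=
    comp_list_map (Primrec.to_comp (by fun_prop))
      (Computable₂.comp (f := S.lp T) hlp Computable.snd Computable.fst)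
  have h2 : Computable fun n => allPre n ((upto n).map fun Y => S.lp T Y n) :=
    Computable₂.comp (f := allPre) pr_allPre.to_comp Computable.id h1
  obtain ⟨c, hc⟩ := S.KC0 h2 0 (by
      intro N
      unfold allPre
      refine le_trans (Finset.sum_le_sum (g := fun n => wt (n + 1)) fun n _ => ?_) ?_
      · rw [WR_flatMap, List.map_map]
        refine (List.sum_le_card_nsmul _ (2 ^ (n + 1) * wt (3 * n + 3)) ?_).trans ?_
        · intro x hx
          obtain ⟨Y, hY, rfl⟩ := List.mem_map.1 hx
          simp only [Function.comp, WR, List.map_map, Function.comp_def, List.map_const',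
            List.length_range, W_replicate]
          refine mul_le_mul_of_nonneg_right ?_ (wt_pos _).le
          have h3 := S.length_lp T Y n
          have h4 := mem_upto.1 hY
          have h5 : n < 2 ^ n := Nat.lt_two_pow_self
          have : (S.lp T Y n).length + 1 ≤ 2 ^ (n + 1) := by rw [pow_succ]; omega
          exact_mod_cast this
        · rw [List.length_map, nsmul_eq_mul]
          have h3 : ((upto n).length : ℝ) ≤ 2 ^ (n + 1) := by exact_mod_cast length_upto n
          have h4 : wt (3 * n + 3) = wt (n + 1) * wt (n + 1) * wt (n + 1) := by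
            rw [← wt_add, ← wt_add]; congr 1; ring
          have h5 := wt_mul_pow (n + 1)
          have h6 := wt_pos (n + 1)
          calc ((upto n).length : ℝ) * (2 ^ (n + 1) * wt (3 * n + 3))
              ≤ 2 ^ (n + 1) * (2 ^ (n + 1) * wt (3 * n + 3)) :=
                mul_le_mul_of_nonneg_right h3 (by have := wt_pos (3 * n + 3); positivity)
            _ = (wt (n + 1) * 2 ^ (n + 1)) * (wt (n + 1) * 2 ^ (n + 1)) * wt (n + 1) := by
                rw [h4]; ring
            _ = _ := by rw [h5]; ring
      · have := sum_wt_succ_le N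
        have := wt_pos N
        linarith)
  refine ⟨fun a => a + 2 ^ (a + c + e + 10), Primrec.to_comp (by fun_prop), fun Y => ?_⟩
  have hlen : ∀ m, m < (S.lp T Y (m + 1)).length := by
    intro m
    have h3 := S.length_lp T Y (m + 1)
    have h5 : m + 1 < 2 ^ (m + 1) := Nat.lt_two_pow_self
    omega
  have hZ : ∀ i m, m ≤ (S.lp T Y i).length →
      pre (fun m => (S.lp T Y (m + 1)).getD m false) m = (S.lp T Y i).take m := by
    intro i m him
    rw [← pre_ext_le _ him]
    refine pre_congr fun x hx => ?_
    obtain ⟨t1, e1⟩ := S.lp_mono T Y (le_max_left i (x + 1))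
    obtain ⟨t2, e2⟩ := S.lp_mono T Y (le_max_right i (x + 1))
    have e3 : (S.lp T Y i ++ t1)[x]? = (S.lp T Y (x + 1) ++ t2)[x]? := by rw [e1, e2]
    rw [List.getElem?_append_left (by omega), List.getElem?_append_left (hlen x)] at e3
    simp only [ext, List.getD_eq_getElem?_getD, e3]
  refine ⟨fun m => (S.lp T Y (m + 1)).getD m false, ?_, ?_, fun m hm' => ?_⟩
  · have h3 : Primrec fun x : Str × ℕ => x.1.getD x.2 false := by fun_prop
    exact Computable₂.comp (f := fun (σ : Str) (m : ℕ) => σ.getD m false) h3.to_comp
      (Computable₂.comp (f := S.lp T) hlp (Computable.const Y) Computable.succ) Computable.id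
  · rw [hZ 0 Y.length le_rfl]
    exact List.take_length.symm
  · have hex : ∃ i, m < (S.lp T Y (i + 2)).length :=
      ⟨m, (hlen m).trans_le (S.lp_mono T Y (by omega)).length_le⟩
    classical
    obtain ⟨i, hi⟩ : ∃ i, i = Nat.find hex := ⟨_, rfl⟩
    have h3 : m < (S.lp T Y (i + 2)).length := hi ▸ Nat.find_spec hex
    have h4 : Y.length + c + e + 9 ≤ i := by
      by_contra hlt
      have h5 := S.length_lp T Y (i + 2)
      have h6 : 2 ^ (i + 2) ≤ 2 ^ (Y.length + c + e + 10) :=
        Nat.pow_le_pow_right (by norm_num) (by omega)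
      simp only at hm'
      omega
    have h5 : (S.lp T Y (i + 1)).length ≤ m := by
      have := Nat.find_min hex (m := i - 1) (by omega)
      rw [show i - 1 + 2 = i + 1 by omega] at this
      omega
    intro p hp
    rw [length_pre, hZ _ _ h3.le] at hp
    rw [hZ _ _ h3.le]
    have h6 := hc (i + 2) _ ((S.lp T Y (i + 2)).take m) (by
      simp only [allPre, List.mem_flatMap, List.mem_map, List.mem_range, mem_upto]
      exact ⟨_, ⟨Y, by omega, rfl⟩, m, by omega, rfl⟩)
    have h7 := (S.lstep_spec (T ((S.lp T Y i).length + 3 * 2 ^ i)) i (S.lp T Y i)).2.2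
    rw [← lp_succ] at h7
    have h8 : T m ≤ T ((S.lp T Y i).length + 3 * 2 ^ i) := by
      apply hm
      have e1 := S.length_lp T Y i
      have e2 := S.length_lp T Y (i + 2)
      rw [pow_add] at e2
      omega
    have h9 := wt_le_wt.1 ((wt_le_W_ms (H0_mono h8 hp) (f := fun y => isPre (S.lp T Y (i + 1)) y)
      (isPre_true.2 (List.prefix_take_iff.2 ⟨S.lp_mono T Y (by omega), h5⟩))).trans h7)
    have := four_mul_le_pow i (by omega)
    omega

end Setting

end Pool.Agent.P.MP_8f2c45_lc
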