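import Pool.Agent.P.MP_8f2c45_lc.Game
import Pool.Agent.P.MP_8f2c45_lc.Light

/-!
A deep set that is shallow relative to a given noncomputable set that is low for `K`.
-/

namespace Pool.Agent.P.MP_8f2c45_lc

open Pool.Agent.Lib.Comp Nat.Partrec

theorem exists_dominating : ∃ T : ℕ → ℕ → ℕ, (∀ e, Computable (T e)) ∧ (∀ e, Monotone (T e)) ∧
    (∀ n, Monotone fun e => T e n) ∧ ∀ f, Computable f → ∃ e, ∀ n, f n ≤ T e n := by
  classical
  have h1 : ∀ c : Code, ∃ g : ℕ → ℕ, Computable g ∧ Monotone g ∧
      ((∃ f : ℕ → ℕ, Computable f ∧ ∀ N n x, ev ℕ c N n = some x → x = f n) →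
        ∀ N n x, ev ℕ c N n = some x → x ≤ g n) := by
    intro c
    by_cases h : ∃ f : ℕ → ℕ, Computable f ∧ ∀ N n x, ev ℕ c N n = some x → x = f n
    · obtain ⟨f, hf, hs⟩ := h
      obtain ⟨g, hg, hm, hle⟩ := exists_mono_dom hf
      exact ⟨g, hg, hm, fun _ N n x hx => hs N n x hx ▸ hle n⟩
    · exact ⟨fun _ => 0, Computable.const 0, monotone_const, fun h' => absurd h' h⟩
  choose g hg hm hle using h1
  refine ⟨fun e n => ∑ i ∈ Finset.range e, g (Denumerable.ofNat Code i) n, fun e => ?_,
    fun e a b hab => Finset.sum_le_sum fun i _ => hm _ hab,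
    fun n a b hab => Finset.sum_le_sum_of_subset (Finset.range_mono hab), fun f hf => ?_⟩
  · induction e with
    | zero => exact Computable.const 0
    | succ e ih =>
      simp only [Finset.sum_range_succ]
      exact Primrec.nat_add.to_comp.comp ih (hg _)
  · obtain ⟨c, sc, tc⟩ := exists_ev hf
    refine ⟨Encodable.encode c + 1, fun n => ?_⟩
    obtain ⟨N, hN⟩ := tc n
    simp only [Finset.sum_range_succ, Denumerable.ofNat_encode]
    exact (hle c ⟨f, hf, sc⟩ N n _ hN).trans (Nat.le_add_left _ _)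

theorem exists_limit (σ : ℕ → Str) (h : ∀ i, σ i <+: σ (i + 1)) (hl : ∀ i, i ≤ (σ i).length) :
    ∃ X : ℕ → Bool, ∀ i m, m ≤ (σ i).length → pre X m = (σ i).take m := by
  have hm : ∀ i j, i ≤ j → σ i <+: σ j := by
    intro i j hij
    induction hij with
    | refl => exact List.prefix_rfl
    | step _ ih => exact ih.trans (h _)
  refine ⟨fun m => (σ (m + 1)).getD m false, fun i m him => ?_⟩
  rw [← pre_ext_le _ him]
  refine pre_congr fun x hx => ?_
  obtain ⟨t1, e1⟩ := hm _ _ (le_max_left i (x + 1))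
  obtain ⟨t2, e2⟩ := hm _ _ (le_max_right i (x + 1))
  have e3 : (σ i ++ t1)[x]? = (σ (x + 1) ++ t2)[x]? := by rw [e1, e2]
  rw [List.getElem?_append_left (by omega), List.getElem?_append_left (hl (x + 1))] at e3
  simp only [ext, List.getD_eq_getElem?_getD, e3]

/-- Leaving the path `Z` at position `n`. -/
def branch (Z : ℕ → Bool) (n : ℕ) : Str := pre Z n ++ [!Z n]

theorem branch_inj {Z : ℕ → Bool} {m n : ℕ} {y : Str} (h1 : branch Z m <+: y)
    (h2 : branch Z n <+: y) : m = n := by
  have key : ∀ m n, m < n → branch Z m <+: y → branch Z n <+: y → False := by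
    intro m n hmn h1 h2
    have h3 : pre Z (m + 1) <+: y := ((pre_isPrefix Z hmn).trans (List.prefix_append _ _)).trans h2
    have h4 := (List.prefix_of_prefix_length_le h1 h3 (by simp [branch])).eq_of_length
      (by simp [branch])
    rw [pre_succ, branch] at h4
    simp at h4
  rcases lt_trichotomy m n with c | c | c
  · exact (key _ _ c h1 h2).elim
  · exact c
  · exact (key _ _ c h2 h1).elim

theorem branch_computable {Z : ℕ → Bool} (hZ : Computable Z) : Computable (branch Z) := by
  have h1 : Computable (pre Z) :=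
    comp_list_map (l := List.range) (f := fun _ i => Z i) Primrec.list_range.to_comp
      (hZ.comp Computable.snd)
  exact Computable.list_concat.comp h1 (Primrec.not.to_comp.comp hZ)

theorem Setting.exists_deep_shallow (S : Setting) {A : ℕ → Bool} (hA : ¬ Computable A) {cl : ℕ}
    (hlow : ∀ y, S.KH emptyOracle y ≤ S.KH A y + cl) : ∃ X : ℕ → Bool,
    (∀ T, Computable T → ∀ e, ∀ᶠ n in Filter.atTop, S.DeepAt T e (pre X n)) ∧
    ∃ (t0 : ℕ → ℕ) (C : ℕ), Computable t0 ∧ Monotone t0 ∧ ∃ᶠ n in Filter.atTop,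
      ∃ x, S.H (pre A (t0 n)) x = some (pre X n) ∧ x.length ≤ S.KH A (pre X n) + C := by
  obtain ⟨C, t0, ht0, hm0, hgame⟩ := S.game hA hlow
  obtain ⟨T, hT, hTm, hTe, hTd⟩ := exists_dominating
  choose D hD hlight using fun e => S.light (hT e) (hTm e) e
  let Inv : ℕ → Str → Prop := fun e Y =>
    ∀ y, Y <+: y → y.length ≤ D (e + 1) Y.length → S.DeepAt (T e) e y
  have step : ∀ e Y, Inv e Y → ∃ Y', Inv (e + 1) Y' ∧ Y <+: Y' ∧ Y.length < Y'.length ∧
      (∃ x, S.H (pre A (t0 Y'.length)) x = some Y' ∧ x.length ≤ S.KH A Y' + C) ∧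
      ∀ y, Y <+: y → y <+: Y' → S.DeepAt (T e) e y := by
    intro e Y hY
    obtain ⟨Z, hZ, hYZ, hdeep⟩ := hlight (e + 1) Y
    obtain ⟨β, Y', s, h1, h2, h3, h4⟩ := hgame (fun β => branch Z (Y.length + Encodable.encode β))
      (fun n => T (e + 1) (n + D (e + 2) n)) (e + 1 + C)
      ((branch_computable hZ).comp (Primrec.to_comp (by fun_prop)))
      ((hT _).comp (Primrec.nat_add.to_comp.comp Computable.id (hD _)))
      (fun β β' y h1 h2 => by
        have := branch_inj h1 h2
        exact Encodable.encode_injective (by omega))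
    have hcone : ∀ y, branch Z (Y.length + Encodable.encode β) <+: y →
        y.length ≤ Y'.length + D (e + 2) Y'.length → S.DeepAt (T (e + 1)) (e + 1) y := by
      intro y hy hl p hp
      have := h4 p y (Setting.H0_mono ((hTm _ hl).trans h2) hp) hy
      omega
    have h5 : pre Z (Y.length + Encodable.encode β) <+: Y' := (List.prefix_append _ _).trans h1
    have h6 := h1.length_le
    simp only [branch, List.length_append, length_pre, List.length_singleton] at h6
    refine ⟨Y', fun y hy hl => hcone y (h1.trans hy) (hl.trans (Nat.le_add_left _ _)), ?_, by omega, h3,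
      fun y hy hy' => ?_⟩
    · rw [hYZ]
      exact (pre_isPrefix Z (by simp)).trans h5
    · by_cases c1 : y.length ≤ D (e + 1) Y.length
      · exact hY y hy c1
      refine Setting.DeepAt.mono (T' := T (e + 1)) (e' := e + 1) ?_ (hTe _ (Nat.le_succ e))
        (Nat.le_succ e)
      by_cases c2 : y.length ≤ Y.length + Encodable.encode β
      · rw [eq_pre_of_isPrefix (List.prefix_of_prefix_length_le hy' h5 (by simpa using c2))]
        exact hdeep _ (by omega)
      · refine hcone y (List.prefix_of_prefix_length_le h1 hy' ?_) ?_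
        · simp [branch]; omega
        · have := hy'.length_le; omega
  choose nx hnx using step
  let σ : ∀ e, {Y // Inv e Y} := fun e => Nat.rec (motive := fun e => {Y // Inv e Y})
    ⟨[], fun y _ _ p hp => by simpa using Setting.KH0_le hp⟩
    (fun e Y => ⟨nx e Y.1 Y.2, (hnx e Y.1 Y.2).1⟩) e
  have hσ : ∀ e, (σ (e + 1)).1 = nx e (σ e).1 (σ e).2 := fun _ => rfl
  have hlt : ∀ e, (σ e).1.length < (σ (e + 1)).1.length := fun e => (hnx e _ (σ e).2).2.2.1
  have hsm : StrictMono fun e => (σ e).1.length := strictMono_nat_of_lt_succ hlt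
  obtain ⟨X, hX⟩ := exists_limit (fun e => (σ e).1) (fun e => (hnx e _ (σ e).2).2.1)
    fun e => hsm.le_apply
  refine ⟨X, fun f hf e => ?_, t0, C, ht0, hm0, ?_⟩
  · obtain ⟨e1, he1⟩ := hTd f hf
    filter_upwards [Filter.eventually_ge_atTop (σ (max e e1)).1.length] with n hn
    have hex : ∃ i, n < (σ (i + 1)).1.length := ⟨n, hsm.le_apply (x := n + 1)⟩
    classical
    obtain ⟨i, hi⟩ : ∃ i, i = Nat.find hex := ⟨_, rfl⟩
    have h1 : n < (σ (i + 1)).1.length := hi ▸ Nat.find_spec hex
    have h2 : max e e1 ≤ i := by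
      by_contra hc
      have := hsm.monotone (show i + 1 ≤ max e e1 by omega)
      omega
    have h3 : (σ i).1.length ≤ n := by
      rcases Nat.eq_zero_or_pos i with rfl | h0
      · exact Nat.zero_le _
      · have := Nat.find_min hex (m := i - 1) (by omega)
        rw [show i - 1 + 1 = i by omega] at this
        omega
    refine ((hnx i _ (σ i).2).2.2.2.2 (pre X n) ?_ ?_).mono
      ((he1 _).trans (hTe _ (le_trans (le_max_right _ _) h2))) (le_trans (le_max_left _ _) h2)
    · have := hX i _ le_rfl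
      rw [List.take_length] at this
      rw [← this]
      exact pre_isPrefix X h3
    · rw [hX (i + 1) n h1.le]
      exact List.take_prefix _ _
  · rw [Filter.frequently_atTop]
    intro N
    refine ⟨(σ (N + 1)).1.length, (Nat.le_succ N).trans (hsm.le_apply (x := N + 1)), ?_⟩
    rw [hX (N + 1) _ le_rfl, List.take_length]
    exact (hnx N _ (σ N).2).2.2.2.1

end Pool.Agent.P.MP_8f2c45_lc
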