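import Pool.Agent.P.MP_8f2c45_lc.Basic

/-!
Normal form of a universal machine: a primitive recursive clocked machine.
-/

namespace Pool.Agent.P.MP_8f2c45_lc

open Pool.Agent.Lib.Comp Encodable Nat.Partrec

/-! ### Clocked evaluation of codes -/

/-- Clocked evaluation of a code, with typed input and output. -/
def ev {α : Type*} (β : Type*) [Primcodable α] [Primcodable β] (c : Code) (N : ℕ) (a : α) :
    Option β :=
  (Code.evaln N c (encode a)).bind fun x => (decode x : Option β)

section ev
variable {α β γ : Type*} [Primcodable α] [Primcodable β] [Primcodable γ]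

@[fun_prop] theorem pr_ev {c : γ → Code} {N : γ → ℕ} {a : γ → α} (hc : Primrec c)
    (hN : Primrec N) (ha : Primrec a) : Primrec (fun x => ev β (c x) (N x) (a x)) := by
  unfold ev
  fun_prop

theorem ev_mono {c : Code} {N N' : ℕ} {a : α} {b : β} (h : N ≤ N') (hb : ev β c N a = some b) :
    ev β c N' a = some b := by
  unfold ev at hb ⊢
  rw [Option.bind_eq_some_iff] at hb ⊢
  obtain ⟨x, h1, h2⟩ := hb
  exact ⟨x, Code.evaln_mono h h1, h2⟩

theorem exists_ev {f : α → β} (hf : Computable f) :
    ∃ c : Code, (∀ N a b, ev β c N a = some b → b = f a) ∧ ∀ a, ∃ N, ev β c N a = some (f a) := by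
  obtain ⟨c, hc⟩ := Code.exists_code.1 hf
  have key : ∀ a, c.eval (encode a) = Part.some (encode (f a)) := by
    intro a
    rw [hc]
    simp
  refine ⟨c, fun N a b h => ?_, fun a => ?_⟩
  · unfold ev at h
    rw [Option.bind_eq_some_iff] at h
    obtain ⟨x, h1, h2⟩ := h
    have := Code.evaln_sound h1
    rw [key, Part.mem_some_iff] at this
    subst this
    simpa using h2.symm
  · have : encode (f a) ∈ c.eval (encode a) := by rw [key]; simp
    obtain ⟨N, hN⟩ := Code.evaln_complete.1 this
    refine ⟨N, ?_⟩
    unfold ev
    rw [Option.mem_def.1 hN]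
    simp

theorem exists_modulus {P : α → ℕ → Bool} (hP : Computable fun x : α × ℕ => P x.1 x.2)
    (h : ∀ a, ∃ N, P a N = true) : ∃ g : α → ℕ, Computable g ∧ ∀ a, P a (g a) = true := by
  refine ⟨fun a => Nat.find (h a), ?_, fun a => Nat.find_spec (h a)⟩
  have h1 : Partrec fun a => Nat.rfind (fun n => (Part.some (P a n) : Part Bool)) :=
    Partrec.rfind (p := fun a n => (Part.some (P a n) : Part Bool)) hP.partrec
  refine h1.of_eq_tot fun a => ?_
  rw [Nat.mem_rfind]
  refine ⟨by simpa using Nat.find_spec (h a), fun {m} hm => ?_⟩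
  simpa using Nat.find_min (h a) hm

theorem exists_mono_dom {g : ℕ → ℕ} (hg : Computable g) :
    ∃ g' : ℕ → ℕ, Computable g' ∧ Monotone g' ∧ ∀ n, g n ≤ g' n := by
  refine ⟨fun n => Nat.rec (motive := fun _ => ℕ) (g 0) (fun k r => r + g (k + 1)) n, ?_, ?_, ?_⟩
  · refine Computable.nat_rec (h := fun _ p => p.2 + g (p.1 + 1)) Computable.id
      (Computable.const _) ?_
    refine Primrec.nat_add.to_comp.comp (Computable.snd.comp Computable.snd) (hg.comp ?_)
    exact Computable.succ.comp (Computable.fst.comp Computable.snd)
  · exact monotone_nat_of_le_succ fun n => Nat.le_add_right _ _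
  · intro n
    cases n with
    | zero => exact le_rfl
    | succ n => exact Nat.le_add_left _ _

end ev

/-! ### Clocked machines -/

/-- A universal clocked machine: the clock is the length of the given piece of the oracle. -/
structure Setting where
  H : Str → Str → Option Str
  prim : Primrec fun x : Str × Str => H x.1 x.2
  mono : ∀ {α α' p y}, α <+: α' → H α p = some y → H α' p = some y
  free : ∀ {α p q y z}, H α p = some y → H α q = some z → p <+: q → p = q
  len : ∀ {α p y}, H α p = some y → p.length ≤ α.length
  univ : ∀ M : Str → Str → Option Str, (Computable fun x : Str × Str => M x.1 x.2) →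
    (∀ α α' p y, α <+: α' → M α p = some y → M α' p = some y) →
    (∀ α p q y z, M α p = some y → M α q = some z → p <+: q → p = q) →
    ∃ (c : ℕ) (h : ℕ → ℕ), Computable h ∧ Monotone h ∧ ∀ B n p y, M (pre B n) p = some y →
      ∃ q : Str, q.length = p.length + c ∧ H (pre B (h (p.length + n))) q = some y

/-- The machine given by a clocked machine. -/
def mkMachine (M : Str → Str → Option Str) (hc : Computable fun x : Str × Str => M x.1 x.2)
    (hm : ∀ α α' p y, α <+: α' → M α p = some y → M α' p = some y)
    (hf : ∀ α p q y z, M α p = some y → M α q = some z → p <+: q → p = q) : Machine where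
  run A p s := M (pre A s) p
  mono A _ _ _ _ h h' := hm _ _ _ _ (pre_isPrefix A h) h'
  free A _ _ s s' _ _ h h' hpq :=
    hf (pre A (max s s')) _ _ _ _ (hm _ _ _ _ (pre_isPrefix A (le_max_left _ _)) h)
      (hm _ _ _ _ (pre_isPrefix A (le_max_right _ _)) h') hpq
  eff := ⟨id, fun x => M x.1 x.2.1, Computable.id,
    hc.comp (Computable.fst.pair (Computable.fst.comp Computable.snd)), fun _ _ _ => rfl⟩

/-- One trial of the simulation. -/
def trial (cu cf : Code) (α p : Str) (s : ℕ) : Option Str :=
  (ev ℕ cu α.length s).bind fun us =>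
    cond (leb us α.length) ((ev (Option Str) cf α.length (α.take us, p, s)).bind fun o => o) none

/-- The clocked simulation. -/
def simH (cu cf : Code) (α p : Str) : Option Str :=
  cond (leb p.length α.length) ((List.range (α.length + 1)).findSome? (trial cu cf α p)) none

theorem exists_setting (U : Machine) (hU : Universal U) : ∃ S : Setting,
    (∀ B n p y, S.H (pre B n) p = some y → U.run B p n = some y) ∧
    ∃ g : ℕ → ℕ, Computable g ∧ Monotone g ∧
      ∀ B p s y, U.run B p s = some y → S.H (pre B (g (p.length + s))) p = some y := by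
  obtain ⟨u, f, hu, hf, hrun⟩ := U.eff
  obtain ⟨cu, su, tu⟩ := exists_ev hu
  obtain ⟨cf, sf, tf⟩ := exists_ev hf
  have tsound : ∀ α p s y, trial cu cf α p s = some y →
      ∀ B, α = pre B α.length → U.run B p s = some y := by
    intro α p s y h B hB
    unfold trial at h
    rw [Option.bind_eq_some_iff] at h
    obtain ⟨us, h1, h2⟩ := h
    obtain rfl := su _ _ _ h1
    cases hle : leb (u s) α.length
    · simp [hle] at h2
    · rw [hle, cond_true, Option.bind_eq_some_iff] at h2
      obtain ⟨o, h3, rfl⟩ := h2
      have := sf _ _ _ h3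
      rw [hrun, ← take_pre B (leb_true.1 hle), ← hB, ← this]
  have sound : ∀ α p y, simH cu cf α p = some y → p.length ≤ α.length ∧
      ∃ s ≤ α.length, trial cu cf α p s = some y := by
    intro α p y h
    unfold simH at h
    cases hle : leb p.length α.length
    · simp [hle] at h
    · rw [hle, cond_true] at h
      obtain ⟨s, hs, h⟩ := List.exists_of_findSome?_eq_some h
      exact ⟨leb_true.1 hle, s, by simpa [Nat.lt_succ_iff] using hs, h⟩
  have compl : ∀ α p s y, p.length ≤ α.length → s ≤ α.length → trial cu cf α p s = some y →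
      simH cu cf α p = some y := by
    intro α p s y h1 h2 h3
    have : (simH cu cf α p).isSome := by
      unfold simH
      rw [leb_true.2 h1, cond_true, List.findSome?_isSome_iff]
      exact ⟨s, by simp; omega, by simp [h3]⟩
    obtain ⟨y', hy'⟩ := Option.isSome_iff_exists.1 this
    obtain ⟨_, s', _, h4⟩ := sound _ _ _ hy'
    have e1 := U.mono _ _ _ _ _ (le_max_left s s') (tsound _ _ _ _ h3 (ext α) (pre_ext α).symm)
    have e2 := U.mono _ _ _ _ _ (le_max_right s s') (tsound _ _ _ _ h4 (ext α) (pre_ext α).symm)
    rw [hy', ← e1, e2]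
  have tmono : ∀ α α' p s y, α <+: α' → trial cu cf α p s = some y →
      trial cu cf α' p s = some y := by
    intro α α' p s y hα h
    unfold trial at h ⊢
    rw [Option.bind_eq_some_iff] at h ⊢
    obtain ⟨us, h1, h2⟩ := h
    refine ⟨us, ev_mono hα.length_le h1, ?_⟩
    cases hle : leb us α.length
    · simp [hle] at h2
    · rw [hle, cond_true, Option.bind_eq_some_iff] at h2
      obtain ⟨o, h3, h4⟩ := h2
      have hle' := leb_true.1 hle
      rw [leb_true.2 (hle'.trans hα.length_le), cond_true, Option.bind_eq_some_iff]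
      refine ⟨o, ?_, h4⟩
      have : α'.take us = α.take us := by
        obtain ⟨t, rfl⟩ := hα
        rw [List.take_append_of_le_length hle']
      rw [this]
      exact ev_mono hα.length_le h3
  have L1 : ∀ B n p y, simH cu cf (pre B n) p = some y → U.run B p n = some y := by
    intro B n p y h
    obtain ⟨_, s, hs, h⟩ := sound _ _ _ h
    exact U.mono _ _ _ _ _ (by simpa using hs) (tsound _ _ _ _ h B (by simp))
  -- the modulus
  have L2 : ∃ g : ℕ → ℕ, Computable g ∧ Monotone g ∧
      ∀ B p s y, U.run B p s = some y → simH cu cf (pre B (g (p.length + s))) p = some y := by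
    let P : ℕ → ℕ → Bool := fun m N => leb m N && (List.range (m + 1)).all fun s =>
      (ev ℕ cu N s).elim false fun us => leb us N && (strs us).all fun α =>
        (upto m).all fun p => (ev (Option Str) cf N (α, p, s)).isSome
    have hP : Primrec fun x : ℕ × ℕ => P x.1 x.2 := by
      simp only [P]
      fun_prop
    have hev : ∀ m, ∀ᶠ N in Filter.atTop, P m N = true := by
      intro m
      simp only [P, Bool.and_eq_true, List.all_eq_true, leb_true]
      refine (Filter.eventually_ge_atTop m).and ?_
      refine (Filter.eventually_all_finite (I := {s | s ∈ List.range (m + 1)})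
        (List.finite_toSet _)).2 fun s _ => ?_
      obtain ⟨N0, h0⟩ := tu s
      have h1 : ∀ᶠ N in Filter.atTop, ∀ α ∈ strs (u s), ∀ p ∈ upto m,
          (ev (Option Str) cf N (α, p, s)).isSome = true := by
        refine (Filter.eventually_all_finite (I := {α | α ∈ strs (u s)})
          (List.finite_toSet _)).2 fun α _ => ?_
        refine (Filter.eventually_all_finite (I := {p | p ∈ upto m})
          (List.finite_toSet _)).2 fun p _ => ?_
        obtain ⟨N1, h1⟩ := tf (α, p, s)
        filter_upwards [Filter.eventually_ge_atTop N1] with N hN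
        rw [ev_mono hN h1]; rfl
      filter_upwards [h1, Filter.eventually_ge_atTop N0, Filter.eventually_ge_atTop (u s)]
        with N h1 h2 h3
      rw [ev_mono h2 h0]
      simpa only [Option.elim, Bool.and_eq_true, leb_true, List.all_eq_true] using ⟨h3, h1⟩
    obtain ⟨g0, hg0, hP0⟩ := exists_modulus hP.to_comp fun m => (hev m).exists
    obtain ⟨g, hg, hm, hle⟩ := exists_mono_dom hg0
    refine ⟨g, hg, hm, fun B p s y h => ?_⟩
    have h1 := hP0 (p.length + s)
    have hle' := hle (p.length + s)
    simp only [P, Bool.and_eq_true, List.all_eq_true, leb_true] at h1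
    obtain ⟨h1, h2⟩ := h1
    have h3 := h2 s (by simp)
    cases hus : ev ℕ cu (g0 (p.length + s)) s with
    | none => simp [hus] at h3
    | some us =>
      obtain rfl := su _ _ _ hus
      simp only [hus, Option.elim, Bool.and_eq_true, leb_true, List.all_eq_true] at h3
      obtain ⟨h3, h4⟩ := h3
      have h5 := h4 (pre B (u s)) (by simp) p (by simp)
      obtain ⟨o, ho⟩ := Option.isSome_iff_exists.1 h5
      have ho' := sf _ _ _ ho
      rw [← hrun, h] at ho'
      refine compl _ _ s _ (by simp; omega) (by simp; omega) ?_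
      unfold trial
      rw [length_pre, ev_mono hle' hus, Option.bind_some, leb_true.2 (h3.trans hle'), cond_true,
        take_pre B (h3.trans hle'), ev_mono hle' ho, ho']
      rfl
  refine ⟨⟨simH cu cf, ?_, ?_, ?_, ?_, ?_⟩, L1, L2⟩
  · unfold simH trial
    fun_prop
  · intro α α' p y hα h
    obtain ⟨h1, s, hs, h2⟩ := sound _ _ _ h
    exact compl _ _ s _ (h1.trans hα.length_le) (hs.trans hα.length_le) (tmono _ _ _ _ _ hα h2)
  · intro α p q y z h h' hpq
    rw [← pre_ext α] at h h'
    exact U.free _ _ _ _ _ _ _ (L1 _ _ _ _ h) (L1 _ _ _ _ h') hpq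
  · intro α p y h
    exact (sound _ _ _ h).1
  · intro M hc hm hfr
    obtain ⟨ρ, h, hh, hsim⟩ := hU (mkMachine M hc hm hfr)
    obtain ⟨g, hg, hgm, hL⟩ := L2
    obtain ⟨h', hh', hm', hle⟩ := exists_mono_dom hh
    refine ⟨ρ.length, fun m => g (ρ.length + m + h' m), ?_, ?_, ?_⟩
    · refine hg.comp (Primrec.nat_add.to_comp.comp ?_ hh')
      exact Primrec.to_comp (by fun_prop)
    · intro a b hab
      exact hgm (Nat.add_le_add (by omega) (hm' hab))
    · intro B n p y hM
      refine ⟨ρ ++ p, by simp [add_comm], ?_⟩
      have h1 := hL _ _ _ _ (hsim B p n y hM)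
      obtain ⟨h2, s, hs, h3⟩ := sound _ _ _ h1
      have hle2 : g ((ρ ++ p).length + h (p.length + n)) ≤
          g (ρ.length + (p.length + n) + h' (p.length + n)) := by
        apply hgm
        have := hle (p.length + n)
        simp only [List.length_append]
        omega
      have hα := pre_isPrefix B hle2
      exact compl _ _ s _ (h2.trans hα.length_le) (hs.trans hα.length_le) (tmono _ _ _ _ _ hα h3)

end Pool.Agent.P.MP_8f2c45_lc
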